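import Mathlib

/-!
# The Cousin problem on an affine chart

An abstract form of the vanishing of the first cohomology of a quasi-coherent subsheaf of a
constant sheaf on an affine variety.
-/

universe u v w

namespace Pool.Agent.Lib.MP_8481ed_ag

open MvPolynomial

/-- The data of an affine chart: points `Pt`, coordinates `ξ`, functions `φ`, the stalks `M` of a
subsheaf of the constant sheaf `K`, and its module of sections `L`. -/
structure Chart (k : Type u) [Field k] (K : Type v) [Field K] (Pt : Type w) where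
  /-- coordinates of a point -/
  xi : Pt → Fin 3 → k
  /-- the regular functions on the chart -/
  phi : MvPolynomial (Fin 3) k →+* K
  /-- the stalks -/
  M : Pt → AddSubgroup K
  /-- the sections over the chart -/
  L : AddSubgroup K
  ker : ∀ x h, phi h = 0 → eval (xi x) h = 0
  inv_mem : ∀ x h, eval (xi x) h ≠ 0 → ∀ s ∈ M x, (phi h)⁻¹ * s ∈ M x
  smul_mem : ∀ g, ∀ s ∈ L, phi g * s ∈ L
  denom : ∀ x, ∀ s ∈ M x, ∃ h, eval (xi x) h ≠ 0 ∧ phi h * s ∈ L
  le : ∀ x, L ≤ M x
  pts : ∀ z : Fin 3 → k, (∀ g, phi g = 0 → eval z g = 0) → ∃ x, xi x = z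

namespace Chart

variable {k : Type u} [Field k] [IsAlgClosed k] {K : Type v} [Field K] {Pt : Type w}
  (C : Chart k K Pt)

/-- If `s` is a section over the locus `h ≠ 0` then `h ^ N * s` is a global section. -/
lemma exists_pow_mul_mem (s : K) (h : MvPolynomial (Fin 3) k)
    (hs : ∀ x, eval (C.xi x) h ≠ 0 → s ∈ C.M x) : ∃ N : ℕ, C.phi h ^ N * s ∈ C.L := by
  let J : Ideal (MvPolynomial (Fin 3) k) :=
    { carrier := {g | C.phi g * s ∈ C.L}
      zero_mem' := by
        simp only [Set.mem_ofPred_eq, map_zero, zero_mul]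
        exact C.L.zero_mem
      add_mem' := fun {a b} ha hb => by
        simp only [Set.mem_ofPred_eq, map_add, add_mul] at *
        exact C.L.add_mem ha hb
      smul_mem' := fun c a ha => by
        simp only [Set.mem_ofPred_eq, smul_eq_mul, map_mul, mul_assoc] at *
        exact C.smul_mem _ _ ha }
  have hJ : h ∈ J.radical := by
    rw [← vanishingIdeal_zeroLocus_eq_radical (K := k)]
    intro z hz
    by_contra hne
    have hker : ∀ g, C.phi g = 0 → eval z g = 0 := by
      intro g hg
      have : g ∈ J := by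
        change C.phi g * s ∈ C.L
        rw [hg, zero_mul]
        exact C.L.zero_mem
      exact hz g this
    obtain ⟨x, hx⟩ := C.pts z hker
    have hsx : s ∈ C.M x := by
      apply hs
      rw [hx]
      exact hne
    obtain ⟨g, hg1, hg2⟩ := C.denom x s hsx
    exact hg1 (by rw [hx]; exact hz g hg2)
  obtain ⟨N, hN⟩ := hJ
  refine ⟨N, ?_⟩
  rw [← map_pow]
  exact hN

/-- **Cousin problem on an affine chart**: every Cousin datum has a solution. -/
theorem cousin (c : Pt → K)
    (hc : ∀ x, ∃ h, eval (C.xi x) h ≠ 0 ∧ ∀ y, eval (C.xi y) h ≠ 0 → c y - c x ∈ C.M y) :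
    ∃ f : K, ∀ x, f - c x ∈ C.M x := by
  classical
  choose h hx hc using hc
  -- the functions `h x` and the kernel of `phi` generate the unit ideal
  let I : Ideal (MvPolynomial (Fin 3) k) := Ideal.span (Set.range h) ⊔ RingHom.ker C.phi
  have hI : I = ⊤ := by
    by_contra hne
    have : (1 : MvPolynomial (Fin 3) k) ∈ I.radical := by
      rw [← vanishingIdeal_zeroLocus_eq_radical (K := k)]
      intro z hz
      exfalso
      obtain ⟨x, hxz⟩ := C.pts z fun g hg =>
        hz g (Ideal.mem_sup_right ((RingHom.mem_ker).2 hg))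
      exact hx x (by
        rw [hxz]
        exact hz (h x) (Ideal.mem_sup_left (Ideal.subset_span ⟨x, rfl⟩)))
    exact hne (Ideal.radical_eq_top.1 ((Ideal.eq_top_iff_one _).2 this))
  have h1 : (1 : MvPolynomial (Fin 3) k) ∈ I := hI ▸ Submodule.mem_top
  obtain ⟨t, ht, g₀, hg₀, htg⟩ := Submodule.mem_sup.1 h1
  obtain ⟨a, ha⟩ := Finsupp.mem_span_range_iff_exists_finsupp.1 ht
  let T : Finset Pt := a.support
  -- work in the ring of regular functions
  let R := C.phi.range
  let H : T → R := fun i => C.phi.rangeRestrict (h i)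
  have hspan : Ideal.span (Set.range H) = ⊤ := by
    rw [Ideal.eq_top_iff_one]
    have e1 : (1 : R) = ∑ i : T, C.phi.rangeRestrict (a i) * H i := by
      have e2 : (1 : R) = C.phi.rangeRestrict t := by
        have : C.phi.rangeRestrict g₀ = 0 := by
          apply Subtype.ext
          exact (RingHom.mem_ker).1 hg₀
        rw [← map_one C.phi.rangeRestrict, ← htg, map_add, this, add_zero]
      rw [e2, ← ha, Finsupp.sum, map_sum, ← Finset.sum_coe_sort]
      refine Finset.sum_congr rfl fun i _ => ?_
      rw [smul_eq_mul, map_mul]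
    rw [e1]
    exact Ideal.sum_mem _ fun i _ => Ideal.mul_mem_left _ _ (Ideal.subset_span ⟨i, rfl⟩)
  -- a common exponent
  have hN : ∀ i j : T, ∃ N : ℕ, (C.phi (h i) * C.phi (h j)) ^ N * (c j - c i) ∈ C.L := by
    intro i j
    obtain ⟨N, hN⟩ := C.exists_pow_mul_mem (c j - c i) (h i * h j) (fun y hy => by
      rw [map_mul] at hy
      have h1 := hc i y (left_ne_zero_of_mul hy)
      have h2 := hc j y (right_ne_zero_of_mul hy)
      have : c j - c i = (c y - c i) - (c y - c j) := by ring
      rw [this]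
      exact (C.M y).sub_mem h1 h2)
    exact ⟨N, by rwa [map_mul] at hN⟩
  choose N hN using hN
  let n : ℕ := ∑ i : T, ∑ j : T, N i j
  have hn : ∀ i j : T, (C.phi (h i) * C.phi (h j)) ^ n * (c j - c i) ∈ C.L := by
    intro i j
    have hle : N i j ≤ n := by
      calc N i j ≤ ∑ j : T, N i j :=
            Finset.single_le_sum (f := fun j => N i j) (fun _ _ => Nat.zero_le _) (Finset.mem_univ j)
        _ ≤ n := Finset.single_le_sum (f := fun i => ∑ j : T, N i j) (fun _ _ => Nat.zero_le _)
            (Finset.mem_univ i)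
    obtain ⟨m, hm⟩ := Nat.exists_eq_add_of_le hle
    rw [hm, add_comm, pow_add, mul_assoc, ← map_mul, ← map_pow]
    exact C.smul_mem _ _ (by rw [map_mul]; exact hN i j)
  -- a partition of unity
  have hspan2 : (1 : R) ∈ Ideal.span (Set.range fun i : T => H i ^ n) := by
    have := Ideal.span_pow_eq_top _ hspan n
    rw [← Set.range_comp] at this
    rw [show (fun i : T => H i ^ n) = (fun x => x ^ n) ∘ H from rfl, this]
    exact Submodule.mem_top
  obtain ⟨b, hb⟩ := Ideal.mem_span_range_iff_exists_fun.1 hspan2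
  have hb1 : ∑ j : T, (b j : K) * C.phi (h j) ^ n = 1 := by
    have := congrArg (fun r : R => (r : K)) hb
    simpa [H] using this
  refine ⟨∑ j : T, (b j : K) * C.phi (h j) ^ n * c j, fun x => ?_⟩
  -- at every point some `h i` with `i ∈ T` does not vanish
  have hex : ∃ i : T, eval (C.xi x) (h i) ≠ 0 := by
    by_contra hcon
    push Not at hcon
    have hker : eval (C.xi x) g₀ = 0 := C.ker x g₀ ((RingHom.mem_ker).1 hg₀)
    have h2 : eval (C.xi x) t = 0 := by
      rw [← ha, Finsupp.sum, map_sum]
      refine Finset.sum_eq_zero fun i hi => ?_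
      rw [smul_eq_mul, map_mul, hcon ⟨i, hi⟩, mul_zero]
    have h3 := congrArg (eval (C.xi x)) htg
    rw [map_add, hker, h2, map_one, add_zero] at h3
    exact zero_ne_one h3
  obtain ⟨i, hi⟩ := hex
  have h4 : (∑ j : T, (b j : K) * C.phi (h j) ^ n * c j) - c x =
      (∑ j : T, (b j : K) * (C.phi (h j) ^ n * (c j - c i))) - (c x - c i) := by
    have : c i = ∑ j : T, (b j : K) * C.phi (h j) ^ n * c i := by
      rw [← Finset.sum_mul, hb1, one_mul]
    have e5 : (∑ j : T, (b j : K) * (C.phi (h j) ^ n * (c j - c i))) =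
        (∑ j : T, (b j : K) * C.phi (h j) ^ n * c j) - c i := by
      conv_rhs => rw [this]
      rw [← Finset.sum_sub_distrib]
      refine Finset.sum_congr rfl fun j _ => ?_
      ring
    rw [e5]
    ring
  rw [h4]
  refine (C.M x).sub_mem ?_ (hc i x hi)
  refine (C.M x).sum_mem fun j _ => ?_
  have hphi : C.phi (h i) ≠ 0 := fun h0 => hi (C.ker x _ h0)
  obtain ⟨g, hg⟩ := (b j).2
  have h5 : (b j : K) * (C.phi (h j) ^ n * (c j - c i)) =
      (C.phi (h i ^ n))⁻¹ * (C.phi g * ((C.phi (h i) * C.phi (h j)) ^ n * (c j - c i))) := by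
    rw [← hg, map_pow]
    field_simp
    rw [mul_pow]
    ring
  rw [h5]
  apply C.inv_mem
  · rw [map_pow]
    exact pow_ne_zero _ hi
  · exact C.le x (C.smul_mem _ _ (hn i j))

end Chart

end Pool.Agent.Lib.MP_8481ed_ag
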