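import Mathlib

/-!
# Sheaves given by local predicates and their first cohomology

For a topological space `X`, an abelian group `K` and a family of subgroups `M x ≤ K` (`x : X`) we
consider the sheaf of locally constant `K`-valued functions `s` with `s x ∈ M x`.
We compute its first cohomology by the exact sequence `0 → F_M → K_X → K_X / F_M → 0`.
-/

open CategoryTheory TopologicalSpace Opposite

universe u

namespace Pool.Agent.Lib.MP_8481ed_ag

noncomputable section

/-- A local predicate on dependent functions whose sections form subgroups. -/
structure AddLocalPredicate (X : TopCat.{u}) (T : X → Type u) [∀ x, AddCommGroup (T x)] extends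
    TopCat.LocalPredicate T where
  zero_mem : ∀ (U : Opens X), pred (fun x : U => (0 : T x))
  add_mem : ∀ {U : Opens X} {f g : ∀ x : U, T x}, pred f → pred g → pred (fun x => f x + g x)
  neg_mem : ∀ {U : Opens X} {f : ∀ x : U, T x}, pred f → pred (fun x => - f x)

namespace AddLocalPredicate

variable {X : TopCat.{u}} {T : X → Type u} [∀ x, AddCommGroup (T x)] (P : AddLocalPredicate X T)

/-- The group of sections over an open set. -/
def sec (U : Opens X) : AddSubgroup (∀ x : U, T x) where
  carrier := {f | P.pred f}
  zero_mem' := P.zero_mem U
  add_mem' := fun hf hg => P.add_mem hf hg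
  neg_mem' := fun hf => P.neg_mem hf

/-- The presheaf of abelian groups of sections of a local predicate. -/
def presheaf : TopCat.Presheaf AddCommGrpCat.{u} X where
  obj U := AddCommGrpCat.of (P.sec U.unop)
  map {U V} i := AddCommGrpCat.ofHom
    { toFun := fun f => ⟨fun x => f.1 (i.unop x), P.res i.unop f.1 f.2⟩
      map_zero' := rfl
      map_add' := fun _ _ => rfl }

/-- The sheaf condition. -/
lemma isSheaf : P.presheaf.IsSheaf := by
  rw [TopCat.Presheaf.isSheaf_iff_isSheaf_comp (forget AddCommGrpCat.{u})]
  refine TopCat.Presheaf.isSheaf_of_iso (F := TopCat.subpresheafToTypes P.toPrelocalPredicate) ?_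
    (TopCat.subpresheafToTypes.isSheaf P.toLocalPredicate)
  exact NatIso.ofComponents (fun U => Iso.refl _) (by intros; rfl)

/-- The sheaf of abelian groups of sections of a local predicate. -/
def sheaf : CategoryTheory.Sheaf (Opens.grothendieckTopology X) AddCommGrpCat.{u} :=
  ⟨P.presheaf, P.isSheaf⟩

end AddLocalPredicate

end

end Pool.Agent.Lib.MP_8481ed_ag
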