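import Mathlib
import Pool.Agent.Lib.MP_8481ed_ag.Coh

open CategoryTheory TopologicalSpace Opposite

universe u

namespace Pool.Agent.Lib.MP_8481ed_ag

noncomputable section

variable (X : TopCat.{u}) {K : Type u} [AddCommGroup K]

/-- The locally constant `K`-valued functions `s` on open sets of `X` such that `s x ∈ M x`
for all `x`, as a local predicate. -/
def constSub (M : X → AddSubgroup K) : AddLocalPredicate X (fun _ => K) where
  pred {U} f := (∀ x : U, ∃ (V : Opens X) (_ : x.1 ∈ V) (i : V ⟶ U) (c : K), ∀ y : V, f (i y) = c) ∧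
    ∀ x : U, f x ∈ M x
  res {U V} i f hf := by
    refine ⟨fun x => ?_, fun x => hf.2 (i x)⟩
    obtain ⟨W, hxW, j, c, hc⟩ := hf.1 (i x)
    exact ⟨U ⊓ W, ⟨x.2, hxW⟩, Opens.infLELeft _ _, c, fun y => hc ⟨y.1, y.2.2⟩⟩
  locality {U} f hf := by
    refine ⟨fun x => ?_, fun x => ?_⟩
    · obtain ⟨V, hxV, i, h1, -⟩ := hf x
      obtain ⟨W, hxW, j, c, hc⟩ := h1 ⟨x.1, hxV⟩
      exact ⟨W, hxW, j ≫ i, c, fun y => hc y⟩
    · obtain ⟨V, hxV, i, -, h2⟩ := hf x
      exact h2 ⟨x.1, hxV⟩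
  zero_mem U := ⟨fun x => ⟨U, x.2, 𝟙 _, 0, fun _ => rfl⟩, fun x => (M x).zero_mem⟩
  add_mem {U f g} hf hg := by
    refine ⟨fun x => ?_, fun x => (M x).add_mem (hf.2 x) (hg.2 x)⟩
    obtain ⟨V, hxV, i, c, hc⟩ := hf.1 x
    obtain ⟨W, hxW, j, d, hd⟩ := hg.1 x
    refine ⟨V ⊓ W, ⟨hxV, hxW⟩, Opens.infLELeft _ _ ≫ i, c + d, fun y => ?_⟩
    exact congrArg₂ (· + ·) (hc ⟨y.1, y.2.1⟩) (hd ⟨y.1, y.2.2⟩)
  neg_mem {U f} hf := by
    refine ⟨fun x => ?_, fun x => (M x).neg_mem (hf.2 x)⟩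
    obtain ⟨V, hxV, i, c, hc⟩ := hf.1 x
    exact ⟨V, hxV, i, -c, fun y => congrArg Neg.neg (hc y)⟩

/-- Sections of the quotient `K / M`: functions `c` with `c x ∈ K / M x` that are locally
represented by a constant. -/
def quotPred (M : X → AddSubgroup K) : AddLocalPredicate X (fun x => K ⧸ M x) where
  pred {U} f := ∀ x : U, ∃ (V : Opens X) (_ : x.1 ∈ V) (i : V ⟶ U) (c : K),
    ∀ y : V, f (i y) = QuotientAddGroup.mk c
  res {U V} i f hf x := by
    obtain ⟨W, hxW, j, c, hc⟩ := hf (i x)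
    exact ⟨U ⊓ W, ⟨x.2, hxW⟩, Opens.infLELeft _ _, c, fun y => hc ⟨y.1, y.2.2⟩⟩
  locality {U} f hf x := by
    obtain ⟨V, hxV, i, h1⟩ := hf x
    obtain ⟨W, hxW, j, c, hc⟩ := h1 ⟨x.1, hxV⟩
    exact ⟨W, hxW, j ≫ i, c, fun y => hc y⟩
  zero_mem U x := ⟨U, x.2, 𝟙 _, 0, fun _ => rfl⟩
  add_mem {U f g} hf hg x := by
    obtain ⟨V, hxV, i, c, hc⟩ := hf x
    obtain ⟨W, hxW, j, d, hd⟩ := hg x
    refine ⟨V ⊓ W, ⟨hxV, hxW⟩, Opens.infLELeft _ _ ≫ i, c + d, fun y => ?_⟩
    exact congrArg₂ (· + ·) (hc ⟨y.1, y.2.1⟩) (hd ⟨y.1, y.2.2⟩)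
  neg_mem {U f} hf x := by
    obtain ⟨V, hxV, i, c, hc⟩ := hf x
    exact ⟨V, hxV, i, -c, fun y => congrArg Neg.neg (hc y)⟩

variable (M : X → AddSubgroup K)

/-- The inclusion of `F_M` in `F_N` for `M ≤ N`. -/
def inclHom : (constSub X M).sheaf ⟶ (constSub X (fun _ => (⊤ : AddSubgroup K))).sheaf :=
  ⟨{ app := fun U => AddCommGrpCat.ofHom
      { toFun := fun f => ⟨f.1, f.2.1, fun _ => AddSubgroup.mem_top _⟩
        map_zero' := rfl
        map_add' := fun _ _ => rfl }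
     naturality := by intros; rfl }⟩

/-- The projection of `K_X` onto `K_X / F_M`. -/
def quotHom : (constSub X (fun _ => (⊤ : AddSubgroup K))).sheaf ⟶ (quotPred X M).sheaf :=
  ⟨{ app := fun U => AddCommGrpCat.ofHom
      { toFun := fun f => ⟨fun x => QuotientAddGroup.mk (f.1 x), fun x => by
          obtain ⟨V, hxV, i, c, hc⟩ := f.2.1 x
          exact ⟨V, hxV, i, c, fun y => congrArg _ (hc y)⟩⟩
        map_zero' := rfl
        map_add' := fun _ _ => rfl }
     naturality := by intros; rfl }⟩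

lemma inclHom_comp_quotHom : inclHom X M ≫ quotHom X M = 0 := by
  apply Sheaf.hom_ext
  ext U f
  apply Subtype.ext
  funext x
  exact (QuotientAddGroup.eq_zero_iff _).2 (f.2.2 x)

/-- The short complex `F_M → K_X → K_X / F_M`. -/
def sc : ShortComplex (CategoryTheory.Sheaf (Opens.grothendieckTopology X) AddCommGrpCat.{u}) :=
  ShortComplex.mk (inclHom X M) (quotHom X M) (inclHom_comp_quotHom X M)


instance : Mono (inclHom X M) := by
  constructor
  intro G a b hab
  apply Sheaf.hom_ext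
  ext U s
  have h := congrArg (fun φ : G ⟶ _ => φ.hom.app U s) hab
  apply Subtype.ext
  exact congrArg (fun t => t.1) h

instance : Epi (quotHom X M) := by
  refine (TopCat.Sheaf.isLocallySurjective_iff_epi (X := X) (quotHom X M)).1 ?_
  rw [TopCat.Presheaf.isLocallySurjective_iff]
  intro U t x hx
  obtain ⟨V, hxV, i, c, hc⟩ := t.2 ⟨x, hx⟩
  refine ⟨V, i.le, ⟨⟨fun _ => c, fun y => ⟨V, y.2, 𝟙 _, c, fun _ => rfl⟩, fun _ => AddSubgroup.mem_top _⟩, ?_⟩, hxV⟩
  apply Subtype.ext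
  funext y
  exact (hc y).symm

/-- The lift of a map to `K_X` with values in `F_M`. -/
def liftHom {G : CategoryTheory.Sheaf (Opens.grothendieckTopology X) AddCommGrpCat.{u}}
    (k : G ⟶ (constSub X (fun _ => (⊤ : AddSubgroup K))).sheaf) (hk : k ≫ quotHom X M = 0) :
    G ⟶ (constSub X M).sheaf :=
  ⟨{ app := fun U => AddCommGrpCat.ofHom
      { toFun := fun s => ⟨(k.hom.app U s).1, (k.hom.app U s).2.1, fun x => by
          have h := congrArg (fun φ : G ⟶ (quotPred X M).sheaf => (φ.hom.app U s).1 x) hk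
          exact (QuotientAddGroup.eq_zero_iff _).1 h⟩
        map_zero' := by
          apply Subtype.ext
          exact congrArg (fun t => t.1) (map_zero (k.hom.app U).hom)
        map_add' := fun a b => by
          apply Subtype.ext
          exact congrArg (fun t => t.1) (map_add (k.hom.app U).hom a b) }
     naturality := by
      intro U V i
      ext s
      apply Subtype.ext
      have h := congrArg (fun φ => (φ.hom s).1) (k.hom.naturality i)
      exact h }⟩

lemma liftHom_comp {G : CategoryTheory.Sheaf (Opens.grothendieckTopology X) AddCommGrpCat.{u}}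
    (k : G ⟶ (constSub X (fun _ => (⊤ : AddSubgroup K))).sheaf) (hk : k ≫ quotHom X M = 0) :
    liftHom X M k hk ≫ inclHom X M = k := by
  apply Sheaf.hom_ext
  ext U s
  rfl

lemma sc_shortExact : (sc X M).ShortExact := by
  have : Mono (sc X M).f := inferInstanceAs (Mono (inclHom X M))
  have : Epi (sc X M).g := inferInstanceAs (Epi (quotHom X M))
  refine { exact := ?_ }
  apply ShortComplex.exact_of_f_is_kernel
  exact Limits.KernelFork.IsLimit.ofι' (inclHom X M) (inclHom_comp_quotHom X M)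
    (fun k hk => ⟨liftHom X M k hk, liftHom_comp X M k hk⟩)

end

end Pool.Agent.Lib.MP_8481ed_ag
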