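import Mathlib
import Pool.Agent.Lib.MP_8481ed_ag.Seq

open CategoryTheory TopologicalSpace Opposite Abelian

universe u

namespace Pool.Agent.Lib.MP_8481ed_ag

noncomputable section

/-- Sheaves of abelian groups on a topological space. -/
abbrev AbSh (X : TopCat.{u}) := CategoryTheory.Sheaf (Opens.grothendieckTopology X) AddCommGrpCat.{u}

variable {X : TopCat.{u}}

/-- For a short exact sequence of sheaves, if `H¹` of the middle term vanishes, then
`H¹` of the first term vanishes iff the map on global sections is surjective. -/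
lemma subsingleton_H1_iff {S : ShortComplex (AbSh X)}
    (hS : S.ShortExact) (h2 : Subsingleton (Sheaf.H S.X₂ 1)) :
    Subsingleton (Sheaf.H S.X₁ 1) ↔
      Function.Surjective (S.g.hom.app (op (⊤ : Opens X))) := by
  have hT : Limits.IsTerminal (⊤ : Opens X) := Limits.isTerminalTop
  constructor
  · intro h1 s
    let x3 := (Sheaf.H.equiv₀ S.X₃ hT).symm s
    have hx : x3.comp hS.extClass (zero_add 1) = 0 := Subsingleton.elim (α := Sheaf.H S.X₁ 1) _ _
    obtain ⟨x2, hx2⟩ := Ext.covariant_sequence_exact₃ _ hS x3 (zero_add 1) hx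
    refine ⟨Sheaf.H.equiv₀ S.X₂ hT x2, ?_⟩
    rw [Sheaf.H.equiv₀_naturality]
    have : Sheaf.H.map S.g 0 x2 = x3 := hx2
    rw [this]
    exact (Sheaf.H.equiv₀ S.X₃ hT).apply_symm_apply s
  · intro hsurj
    refine subsingleton_of_forall_eq 0 fun x1 => ?_
    have hx : Ext.comp x1 (Ext.mk₀ S.f) (add_zero 1) = 0 :=
      Subsingleton.elim (α := Sheaf.H S.X₂ 1) _ _
    obtain ⟨x3, hx3⟩ := Ext.covariant_sequence_exact₁ _ hS x1 hx (zero_add 1)
    obtain ⟨t, ht⟩ := hsurj (Sheaf.H.equiv₀ S.X₃ hT x3)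
    have h3 : Sheaf.H.map S.g 0 ((Sheaf.H.equiv₀ S.X₂ hT).symm t) = x3 := by
      apply (Sheaf.H.equiv₀ S.X₃ hT).injective
      rw [← Sheaf.H.equiv₀_naturality, AddEquiv.apply_symm_apply, ht]
    rw [← hx3, ← h3, Sheaf.H.map_apply, Ext.comp_assoc_of_second_deg_zero]
    simp

/-- Flasque sheaves have vanishing first cohomology. -/
lemma subsingleton_H1_of_flasque (F : AbSh X) (hF : TopCat.Sheaf.IsFlasque (X := X) F) :
    Subsingleton (Sheaf.H F 1) := by
  let S : ShortComplex (AbSh X) :=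
    ShortComplex.mk (Injective.ι F) (Limits.cokernel.π (Injective.ι F)) (Limits.cokernel.condition _)
  have hS : S.ShortExact :=
    { exact := ShortComplex.exact_of_g_is_cokernel _ (Limits.cokernelIsCokernel S.f) }
  have : Injective S.X₂ := inferInstanceAs (Injective (Injective.under F))
  have : Subsingleton (Sheaf.H S.X₂ 1) := inferInstance
  have h1 : TopCat.Sheaf.IsFlasque (X := X) S.X₁ := hF
  refine (subsingleton_H1_iff hS inferInstance).2 ?_
  have := TopCat.Sheaf.IsFlasque.epi_of_shortExact (U := ⊤) (X := X) (S := S) hS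
  exact (AddCommGrpCat.epi_iff_surjective _).1 this


/-- On a preirreducible space a locally constant function on an open set is constant. -/
lemma eq_of_locallyConst [PreirreducibleSpace X] {K : Type u} {U : Opens X} (f : U → K)
    (hf : ∀ x : U, ∃ (V : Opens X) (_ : x.1 ∈ V) (i : V ⟶ U) (c : K), ∀ y : V, f (i y) = c)
    (x y : U) : f x = f y := by
  obtain ⟨V, hxV, i, c, hc⟩ := hf x
  obtain ⟨W, hyW, j, d, hd⟩ := hf y
  obtain ⟨z, hz⟩ := nonempty_preirreducible_inter V.2 W.2 ⟨x.1, hxV⟩ ⟨y.1, hyW⟩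
  have h1 : f x = c := hc ⟨x.1, hxV⟩
  have h2 : f y = d := hd ⟨y.1, hyW⟩
  have h3 : f (i ⟨z, hz.1⟩) = c := hc ⟨z, hz.1⟩
  have h4 : f (j ⟨z, hz.2⟩) = d := hd ⟨z, hz.2⟩
  rw [h1, h2, ← h3, ← h4]
  rfl

variable (X) in
/-- The sheaf of locally constant functions on a preirreducible space is flasque. -/
lemma flasque_const [PreirreducibleSpace X] (K : Type u) [AddCommGroup K] :
    TopCat.Sheaf.IsFlasque (X := X) (constSub X (fun _ => (⊤ : AddSubgroup K))).sheaf := by
  constructor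
  intro U V i
  refine (AddCommGrpCat.epi_iff_surjective _).2 fun s => ?_
  by_cases hV : Nonempty V.unop
  · obtain ⟨v⟩ := hV
    refine ⟨⟨fun _ => s.1 v, fun x => ⟨U.unop, x.2, 𝟙 _, s.1 v, fun _ => rfl⟩,
      fun _ => AddSubgroup.mem_top _⟩, ?_⟩
    apply Subtype.ext
    funext y
    exact eq_of_locallyConst s.1 s.2.1 v y
  · refine ⟨0, ?_⟩
    apply Subtype.ext
    funext y
    exact absurd ⟨y⟩ hV

/-- **Cousin criterion.** On an irreducible space, `H¹(X, F_M) = 0` iff every Cousin datum with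
respect to `M` has a solution. -/
theorem subsingleton_H1_constSub_iff [PreirreducibleSpace X] {K : Type u} [AddCommGroup K]
    (M : X → AddSubgroup K) :
    Subsingleton (Sheaf.H (constSub X M).sheaf 1) ↔
      ∀ c : X → K, (∀ x, ∃ V : Opens X, x ∈ V ∧ ∀ y ∈ V, c y - c x ∈ M y) →
        ∃ f : K, ∀ x, f - c x ∈ M x := by
  have hcomp := subsingleton_H1_iff (sc_shortExact X M)
    (subsingleton_H1_of_flasque _ (flasque_const X K))
  refine Iff.trans hcomp ?_
  constructor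
  · intro hsurj c hc
    let s : (quotPred X M).sec ⊤ := ⟨fun x => QuotientAddGroup.mk (c x.1), fun x => by
      obtain ⟨V, hxV, hV⟩ := hc x.1
      refine ⟨V, hxV, Opens.leTop _, c x.1, fun y => ?_⟩
      rw [QuotientAddGroup.eq_iff_sub_mem]
      exact hV y.1 y.2⟩
    obtain ⟨t, ht⟩ := hsurj s
    rcases isEmpty_or_nonempty X with hX | ⟨⟨x₀⟩⟩
    · exact ⟨0, fun x => hX.elim x⟩
    refine ⟨t.1 ⟨x₀, trivial⟩, fun x => ?_⟩
    have h1 : (QuotientAddGroup.mk (t.1 ⟨x, trivial⟩) : K ⧸ M x) = QuotientAddGroup.mk (c x) :=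
      congrFun (congrArg (fun s => s.1) ht) ⟨x, trivial⟩
    rw [QuotientAddGroup.eq_iff_sub_mem] at h1
    rwa [eq_of_locallyConst t.1 t.2.1 ⟨x₀, trivial⟩ ⟨x, trivial⟩]
  · intro h s
    have hs := s.2
    choose V hV i c hc using hs
    obtain ⟨f, hf⟩ := h (fun x => c ⟨x, trivial⟩) (fun x => by
      refine ⟨V ⟨x, trivial⟩, hV _, fun y hy => ?_⟩
      rw [← QuotientAddGroup.eq_iff_sub_mem]
      have h1 := hc ⟨x, trivial⟩ ⟨y, hy⟩
      have h2 := hc ⟨y, trivial⟩ ⟨y, hV _⟩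
      exact h2.symm.trans h1)
    refine ⟨⟨fun _ => f, fun x => ⟨⊤, x.2, 𝟙 _, f, fun _ => rfl⟩,
      fun _ => AddSubgroup.mem_top _⟩, ?_⟩
    apply Subtype.ext
    funext x
    have h1 : (QuotientAddGroup.mk f : K ⧸ M x.1) = QuotientAddGroup.mk (c x) := by
      rw [QuotientAddGroup.eq_iff_sub_mem]
      exact hf x.1
    exact h1.trans (hc x ⟨x.1, hV x⟩).symm

/-- On an irreducible space, `H⁰(X, F_M)` is `⋂ M x`. -/
theorem nontrivial_H0_constSub_iff [PreirreducibleSpace X] [Nonempty X] {K : Type u}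
    [AddCommGroup K] (M : X → AddSubgroup K) :
    Nontrivial (Sheaf.H (constSub X M).sheaf 0) ↔ ∃ f : K, f ≠ 0 ∧ ∀ x, f ∈ M x := by
  have e := Sheaf.H.equiv₀ (constSub X M).sheaf (Limits.isTerminalTop : Limits.IsTerminal (⊤ : Opens X))
  rw [e.toEquiv.nontrivial_congr]
  constructor
  · intro h
    have h : Nontrivial ((constSub X M).sec ⊤) := h
    obtain ⟨s, hs⟩ := exists_ne (0 : (constSub X M).sec ⊤)
    obtain ⟨x₀⟩ := ‹Nonempty X›
    have hconst := eq_of_locallyConst s.1 s.2.1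
    refine ⟨s.1 ⟨x₀, trivial⟩, fun h0 => hs ?_, fun x => ?_⟩
    · apply Subtype.ext
      funext x
      rw [hconst x ⟨x₀, trivial⟩, h0]
      rfl
    · rw [hconst ⟨x₀, trivial⟩ ⟨x, trivial⟩]
      exact s.2.2 ⟨x, trivial⟩
  · rintro ⟨f, hf, hfM⟩
    obtain ⟨x₀⟩ := ‹Nonempty X›
    refine ⟨⟨(⟨fun _ => f, fun x => ⟨⊤, x.2, 𝟙 _, f, fun _ => rfl⟩, fun x => hfM x.1⟩ :
      (constSub X M).sec ⊤), (0 : (constSub X M).sec ⊤), fun h => hf ?_⟩⟩
    exact congrFun (congrArg Subtype.val h) ⟨x₀, trivial⟩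

end

end Pool.Agent.Lib.MP_8481ed_ag
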