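import Mathlib
import Pool.Agent.Lib.MP_8481ed_ag.H1

/-!
# Subsheaves of constant sheaves and their cohomology

For a topological space `X`, an abelian group `K` and a family of subgroups `M x ≤ K` (`x : X`),
`sheafOf M` is the sheaf of locally constant functions `s` with values in `K` such that
`s x ∈ M x` for all `x`. This is the usual description of a subsheaf, with stalks `M x`, of the
constant sheaf `K`.
-/

open CategoryTheory TopologicalSpace Opposite

universe u

namespace Pool.Agent.Lib.MP_8481ed_ag

noncomputable section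

variable {X : Type u} [TopologicalSpace X] {K : Type u} [AddCommGroup K]

/-- `s` is a section over `U` of the subsheaf with stalks `M x` of the constant sheaf `K`: it is
a locally constant function with `s x ∈ M x` for all `x ∈ U`. -/
def IsSection (M : X → AddSubgroup K) (U : Opens X) (s : U → K) : Prop :=
  IsLocallyConstant s ∧ ∀ x : U, s x ∈ M x

lemma isSection_zero (M : X → AddSubgroup K) (U : Opens X) : IsSection M U 0 :=
  ⟨IsLocallyConstant.const 0, fun x => (M x).zero_mem⟩

lemma isSection_add (M : X → AddSubgroup K) (U : Opens X) {s t : U → K} (hs : IsSection M U s)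
    (ht : IsSection M U t) : IsSection M U (s + t) :=
  ⟨hs.1.add ht.1, fun x => (M x).add_mem (hs.2 x) (ht.2 x)⟩

lemma isSection_neg (M : X → AddSubgroup K) (U : Opens X) {s : U → K} (hs : IsSection M U s) :
    IsSection M U (-s) :=
  ⟨hs.1.neg, fun x => (M x).neg_mem (hs.2 x)⟩

/-- The sections over `U` form a subgroup of the group of all functions. -/
def sectionGroup (M : X → AddSubgroup K) (U : Opens X) : AddSubgroup (U → K) where
  carrier := {s | IsSection M U s}
  zero_mem' := isSection_zero M U
  add_mem' := isSection_add M U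
  neg_mem' := isSection_neg M U

/-- The group of sections over `U`. -/
def Sections (M : X → AddSubgroup K) (U : Opens X) : Type u := sectionGroup M U

/-- The group structure on sections is pointwise addition. -/
instance sectionsAddCommGroup (M : X → AddSubgroup K) (U : Opens X) :
    AddCommGroup (Sections M U) :=
  (sectionGroup M U).toAddCommGroup

/-- The underlying function of a section. -/
def Sections.toFun {M : X → AddSubgroup K} {U : Opens X} (s : Sections M U) : U → K := s.1

lemma isSection_res (M : X → AddSubgroup K) {U V : Opens X} (h : ∀ x, x ∈ V → x ∈ U)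
    (s : Sections M U) : IsSection M V (fun x => s.toFun ⟨x, h x x.2⟩) :=
  ⟨s.2.1.comp_continuous (continuous_inclusion (fun x hx => h x hx)),
    fun x => s.2.2 ⟨x.1, h x x.2⟩⟩

/-- The restriction of a section to a smaller open set. -/
def resFun (M : X → AddSubgroup K) {U V : Opens X} (h : ∀ x, x ∈ V → x ∈ U) (s : Sections M U) :
    Sections M V :=
  ⟨fun x => s.toFun ⟨x, h x x.2⟩, isSection_res M h s⟩

lemma resFun_zero (M : X → AddSubgroup K) {U V : Opens X} (h : ∀ x, x ∈ V → x ∈ U) :
    resFun M h 0 = 0 := rfl

lemma resFun_add (M : X → AddSubgroup K) {U V : Opens X} (h : ∀ x, x ∈ V → x ∈ U)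
    (s t : Sections M U) : resFun M h (s + t) = resFun M h s + resFun M h t := rfl

/-- The restriction of sections to a smaller open set. -/
def resHom (M : X → AddSubgroup K) {U V : Opens X} (h : ∀ x, x ∈ V → x ∈ U) :
    Sections M U →+ Sections M V where
  toFun := resFun M h
  map_zero' := resFun_zero M h
  map_add' := resFun_add M h

/-- The group of sections as an object of the category of abelian groups. -/
def presheafObj (M : X → AddSubgroup K) (U : (Opens X)ᵒᵖ) : AddCommGrpCat.{u} :=
  AddCommGrpCat.of (Sections M U.unop)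

lemma mem_of_hom {U V : (Opens X)ᵒᵖ} (i : U ⟶ V) (x : X) (hx : x ∈ V.unop) : x ∈ U.unop :=
  leOfHom i.unop hx

/-- The restriction maps as morphisms of the category of abelian groups. -/
def presheafMap (M : X → AddSubgroup K) {U V : (Opens X)ᵒᵖ} (i : U ⟶ V) :
    presheafObj M U ⟶ presheafObj M V :=
  AddCommGrpCat.ofHom (resHom M (mem_of_hom i))

lemma presheafMap_id (M : X → AddSubgroup K) (U : (Opens X)ᵒᵖ) :
    presheafMap M (𝟙 U) = 𝟙 (presheafObj M U) := rfl

lemma presheafMap_comp (M : X → AddSubgroup K) {U V W : (Opens X)ᵒᵖ} (i : U ⟶ V) (j : V ⟶ W) :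
    presheafMap M (i ≫ j) = presheafMap M i ≫ presheafMap M j := rfl

/-- The presheaf of sections. -/
def presheafOf (M : X → AddSubgroup K) : (Opens X)ᵒᵖ ⥤ AddCommGrpCat.{u} where
  obj := presheafObj M
  map := presheafMap M
  map_id := presheafMap_id M
  map_comp := presheafMap_comp M

lemma isSection_iff (M : X → AddSubgroup K) (U : Opens X) (s : U → K) :
    IsSection M U s ↔ (constSub (TopCat.of X) M).pred (U := U) s := by
  refine and_congr ?_ Iff.rfl
  rw [IsLocallyConstant.iff_exists_open]
  constructor
  · intro h x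
    obtain ⟨V, hV, hxV, hc⟩ := h x
    refine ⟨⟨(fun y : U => y.1) '' V, U.2.isOpenEmbedding_subtypeVal.isOpenMap V hV⟩,
      ⟨x, hxV, rfl⟩, homOfLE (by rintro _ ⟨y, -, rfl⟩; exact y.2), s x, ?_⟩
    rintro ⟨_, ⟨y, hy, rfl⟩⟩
    exact hc y hy
  · intro h x
    obtain ⟨V, hxV, i, c, hc⟩ := h x
    refine ⟨{y : U | y.1 ∈ V}, V.2.preimage continuous_subtype_val, hxV, fun y hy => ?_⟩
    exact (hc ⟨y.1, hy⟩).trans (hc ⟨x.1, hxV⟩).symm

/-- Comparison with the auxiliary description. -/
def presheafIso (M : X → AddSubgroup K) :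
    presheafOf M ≅ (constSub (TopCat.of X) M).presheaf :=
  NatIso.ofComponents (fun U =>
    { hom := AddCommGrpCat.ofHom
        { toFun := fun s => ⟨s.1, (isSection_iff M U.unop s.1).1 s.2⟩
          map_zero' := rfl
          map_add' := fun _ _ => rfl }
      inv := AddCommGrpCat.ofHom
        { toFun := fun s => ⟨s.1, (isSection_iff M U.unop s.1).2 s.2⟩
          map_zero' := rfl
          map_add' := fun _ _ => rfl }
      hom_inv_id := rfl
      inv_hom_id := rfl }) (by intros; rfl)

theorem isSheaf_presheafOf (M : X → AddSubgroup K) :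
    Presheaf.IsSheaf (Opens.grothendieckTopology X) (presheafOf M) :=
  TopCat.Presheaf.isSheaf_of_iso (X := TopCat.of X) (presheafIso M).symm
    (constSub (TopCat.of X) M).isSheaf

/-- The sheaf of locally constant functions `s` with values in `K` such that `s x ∈ M x` for all
`x`, i.e. the subsheaf with stalks `M x` of the constant sheaf `K`. -/
def sheafOf (M : X → AddSubgroup K) : Sheaf (Opens.grothendieckTopology X) AddCommGrpCat.{u} :=
  ⟨presheafOf M, isSheaf_presheafOf M⟩

theorem hasSheafify_opens (X : Type u) [TopologicalSpace X] :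
    HasSheafify (Opens.grothendieckTopology X) AddCommGrpCat.{u} := inferInstance

theorem hasExt_sheaf (X : Type u) [TopologicalSpace X] :
    HasExt.{u} (Sheaf (Opens.grothendieckTopology X) AddCommGrpCat.{u}) := inferInstance

/-- The sheaf cohomology group `Hⁿ(X, F)` of Mathlib, where `F` is the sheaf `sheafOf M`. -/
def cohomology (M : X → AddSubgroup K) (n : ℕ) : Type u :=
  @Sheaf.H _ _ _ (sheafOf M) (hasSheafify_opens X) (hasExt_sheaf X) n

/-- Comparison of sheaves. -/
def sheafIso (M : X → AddSubgroup K) : sheafOf M ≅ (constSub (TopCat.of X) M).sheaf where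
  hom := ⟨(presheafIso M).hom⟩
  inv := ⟨(presheafIso M).inv⟩
  hom_inv_id := by
    apply Sheaf.hom_ext
    exact (presheafIso M).hom_inv_id
  inv_hom_id := by
    apply Sheaf.hom_ext
    exact (presheafIso M).inv_hom_id

/-- Comparison of cohomology. -/
def cohomologyEquiv (M : X → AddSubgroup K) (n : ℕ) :
    Sheaf.H (sheafOf M) n ≃ Sheaf.H (constSub (TopCat.of X) M).sheaf n where
  toFun := Sheaf.H.map (sheafIso M).hom n
  invFun := Sheaf.H.map (sheafIso M).inv n
  left_inv x := by
    rw [← Sheaf.H.map_comp_apply, Iso.hom_inv_id, Sheaf.H.map_id_apply]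
  right_inv x := by
    rw [← Sheaf.H.map_comp_apply, Iso.inv_hom_id, Sheaf.H.map_id_apply]

/-- **Cousin criterion.** -/
theorem subsingleton_cohomology_one_iff [PreirreducibleSpace X] (M : X → AddSubgroup K) :
    Subsingleton (cohomology M 1) ↔
      ∀ c : X → K, (∀ x, ∃ V : Opens X, x ∈ V ∧ ∀ y ∈ V, c y - c x ∈ M y) →
        ∃ f : K, ∀ x, f - c x ∈ M x := by
  change Subsingleton (Sheaf.H (sheafOf M) 1) ↔ _
  rw [(cohomologyEquiv M 1).subsingleton_congr]
  exact subsingleton_H1_constSub_iff (X := TopCat.of X) M

theorem nontrivial_cohomology_zero_iff [PreirreducibleSpace X] [Nonempty X]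
    (M : X → AddSubgroup K) :
    Nontrivial (cohomology M 0) ↔ ∃ f : K, f ≠ 0 ∧ ∀ x, f ∈ M x := by
  change Nontrivial (Sheaf.H (sheafOf M) 0) ↔ _
  rw [(cohomologyEquiv M 0).nontrivial_congr]
  exact nontrivial_H0_constSub_iff (X := TopCat.of X) M

end

end Pool.Agent.Lib.MP_8481ed_ag
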