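import Mathlib
import Pool.Agent.Lib.MP_8481ed_ag.ConstSheaf

/-!
# Blow-ups of the projective plane at distinct points (closed points, Zariski topology)

Let `k` be an algebraically closed field, `S = k[X₀, X₁, X₂]` the homogeneous coordinate ring of
`ℙ²` and `p₁, …, p_r` points of `ℙ²`.

* A closed point of the blow-up `X` of `ℙ²` at `p₁, …, p_r` is either a point of `ℙ²` different
  from all `pᵢ`, or a pair `(pᵢ, ℓ)` with `ℓ` a line through `pᵢ` (a point of the exceptional curve
  `Eᵢ`).
* A rational section of `𝒪_X(dH - ∑ mᵢ Eᵢ)` is a fraction `s = a / b` of forms with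
  `deg a = deg b + d`. It is regular at a point `q ≠ pᵢ` if one can choose `b(q) ≠ 0`; it is
  regular at `(pᵢ, ℓ)` if one can choose `a`, `b` and `μ ≥ 0` such that `b` has multiplicity
  at least `μ` at `pᵢ`, the restriction of `b` to the line `ℓ` vanishes exactly to order `μ`
  at `pᵢ`, and `a` has multiplicity at least `μ + mᵢ` at `pᵢ`.
  For `d = 0`, `m = 0` this is the local ring of `X` at the point.
* The Zariski topology of `X` is the coarsest topology for which the domain of regularity of every
  rational function is open.
-/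

open CategoryTheory TopologicalSpace Opposite
open scoped LinearAlgebra.Projectivization

universe u

namespace Pool.Agent.Lib.MP_8481ed_ag

noncomputable section

variable (k : Type u) [Field k]

/-- The homogeneous coordinate ring `S = k[X₀, X₁, X₂]` of the projective plane. -/
abbrev CoordRing : Type u := MvPolynomial (Fin 3) k

/-- The fraction field of the homogeneous coordinate ring. -/
abbrev Frac : Type u := FractionRing (MvPolynomial (Fin 3) k)

/-- The (closed) points of the projective plane over `k`. -/
abbrev Plane : Type u := ℙ k (Fin 3 → k)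

variable {k}

/-- The homogeneous prime ideal of a point `P` of the plane: all polynomials vanishing on the
line `P ⊂ k³`. -/
def pointIdeal (P : ℙ k (Fin 3 → k)) : Ideal (MvPolynomial (Fin 3) k) :=
  MvPolynomial.vanishingIdeal k (P.submodule : Set (Fin 3 → k))

/-- The restriction of a polynomial to the parametrised line `t ↦ v + t w`. -/
def alongLine (v w : Fin 3 → k) : MvPolynomial (Fin 3) k →ₐ[k] Polynomial k :=
  MvPolynomial.aeval (fun i => Polynomial.C (v i) + Polynomial.C (w i) * Polynomial.X)

/-- The lines of the plane through `P`, i.e. the two-dimensional subspaces of `k³` containing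
the line `P ⊂ k³`. They are the points of the exceptional curve over `P`. -/
def LineThrough (P : ℙ k (Fin 3 → k)) : Type u :=
  {L : Submodule k (Fin 3 → k) // Module.finrank k L = 2 ∧ P.submodule ≤ L}

/-- The closed points of the blow-up of the projective plane at the points `p i`. -/
inductive BlowUp {r : ℕ} (p : Fin r → ℙ k (Fin 3 → k)) : Type u
  /-- a point of the plane different from all `p i` -/
  | away (q : ℙ k (Fin 3 → k)) (hq : ∀ i, q ≠ p i) : BlowUp p
  /-- a point of the exceptional curve `E_i` -/
  | exc (i : Fin r) (L : LineThrough (p i)) : BlowUp p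

/-- `IsRegularAt p d m x s`: the element `s` of the fraction field of `S` is a rational section of
`𝒪_X(dH - ∑ mᵢ Eᵢ)` which is regular at the point `x` of the blow-up `X`. -/
def IsRegularAt {r : ℕ} (p : Fin r → ℙ k (Fin 3 → k)) (d : ℤ) (m : Fin r → ℤ) :
    BlowUp p → FractionRing (MvPolynomial (Fin 3) k) → Prop
  | .away q _, s => ∃ (n e : ℕ) (a b : MvPolynomial (Fin 3) k), a.IsHomogeneous n ∧
      b.IsHomogeneous e ∧ (n : ℤ) = e + d ∧ MvPolynomial.eval q.rep b ≠ 0 ∧
      s * algebraMap _ _ b = algebraMap _ _ a
  | .exc i L, s => ∃ (n e μ : ℕ) (a b : MvPolynomial (Fin 3) k), a.IsHomogeneous n ∧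
      b.IsHomogeneous e ∧ (n : ℤ) = e + d ∧ a ∈ pointIdeal (p i) ^ ((μ : ℤ) + m i).toNat ∧
      b ∈ pointIdeal (p i) ^ μ ∧ (∃ w ∈ L.1, (alongLine (p i).rep w b).coeff μ ≠ 0) ∧
      s * algebraMap _ _ b = algebraMap _ _ a

end

end Pool.Agent.Lib.MP_8481ed_ag
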