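import Mathlib
import Pool.Agent.Lib.MP_8481ed_ag.BlowUp

/-!
# Local rings of the blow-up
-/

open scoped LinearAlgebra.Projectivization

universe u

namespace Pool.Agent.Lib.MP_8481ed_ag

noncomputable section

variable {k : Type u} [Field k]

section Along

variable (v w : Fin 3 → k)

lemma alongLine_coeff_zero (b : CoordRing k) :
    (alongLine v w b).coeff 0 = MvPolynomial.eval v b := by
  have : (Polynomial.aeval (0 : k)).comp (alongLine v w) = MvPolynomial.aeval v := by
    apply MvPolynomial.algHom_ext
    intro i
    simp [alongLine]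
  have h2 := congrArg (fun φ : CoordRing k →ₐ[k] k => φ b) this
  simp only [AlgHom.comp_apply, ← Polynomial.coeff_zero_eq_aeval_zero] at h2
  rw [h2]
  rfl

lemma alongLine_zero (b : CoordRing k) :
    alongLine v 0 b = Polynomial.C (MvPolynomial.eval v b) := by
  have : alongLine v 0 = (Algebra.ofId k (Polynomial k)).comp (MvPolynomial.aeval v) := by
    apply MvPolynomial.algHom_ext
    intro i
    simp [alongLine, Algebra.ofId_apply]
  rw [this]
  simp [Algebra.ofId_apply]

variable {v w} {I : Ideal (CoordRing k)}

lemma X_pow_dvd_alongLine (hI : ∀ f ∈ I, (alongLine v w f).coeff 0 = 0) (μ : ℕ)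
    {b : CoordRing k} (hb : b ∈ I ^ μ) : Polynomial.X ^ μ ∣ alongLine v w b := by
  have h1 : I ≤ Ideal.comap (alongLine v w) (Ideal.span {Polynomial.X}) := by
    intro f hf
    rw [Ideal.mem_comap, Ideal.mem_span_singleton, Polynomial.X_dvd_iff]
    exact hI f hf
  have h2 : I ^ μ ≤ Ideal.comap (alongLine v w) (Ideal.span {Polynomial.X} ^ μ) :=
    (Ideal.pow_right_mono h1 μ).trans (Ideal.le_comap_pow _ μ)
  have h3 := h2 hb
  rwa [Ideal.mem_comap, Ideal.span_singleton_pow, Ideal.mem_span_singleton] at h3

lemma coeff_alongLine_of_lt (hI : ∀ f ∈ I, (alongLine v w f).coeff 0 = 0) {μ n : ℕ} (hn : n < μ)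
    {b : CoordRing k} (hb : b ∈ I ^ μ) : (alongLine v w b).coeff n = 0 :=
  Polynomial.X_pow_dvd_iff.1 (X_pow_dvd_alongLine hI μ hb) n hn

lemma coeff_alongLine_mul (hI : ∀ f ∈ I, (alongLine v w f).coeff 0 = 0) {μ ν : ℕ}
    {a b : CoordRing k} (ha : a ∈ I ^ μ) (hb : b ∈ I ^ ν) :
    (alongLine v w (a * b)).coeff (μ + ν) =
      (alongLine v w a).coeff μ * (alongLine v w b).coeff ν := by
  obtain ⟨f, hf⟩ := X_pow_dvd_alongLine hI μ ha
  obtain ⟨g, hg⟩ := X_pow_dvd_alongLine hI ν hb
  rw [map_mul, hf, hg]
  have e1 : (Polynomial.X ^ μ * f) * (Polynomial.X ^ ν * g) = (f * g) * Polynomial.X ^ (μ + ν) := by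
    ring
  rw [e1]
  have e2 : (Polynomial.X ^ μ * f).coeff μ = f.coeff 0 := by
    have := Polynomial.coeff_X_pow_mul f μ 0
    rwa [zero_add] at this
  have e3 : (Polynomial.X ^ ν * g).coeff ν = g.coeff 0 := by
    have := Polynomial.coeff_X_pow_mul g ν 0
    rwa [zero_add] at this
  have e4 : (f * g * Polynomial.X ^ (μ + ν)).coeff (μ + ν) = (f * g).coeff 0 := by
    have := Polynomial.coeff_mul_X_pow (f * g) (μ + ν) 0
    rwa [zero_add] at this
  rw [e2, e3, e4, Polynomial.mul_coeff_zero]

end Along


section Direction

/-- The derivative along a line is linear in the direction. -/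
lemma coeff_one_alongLine_linear (v w : Fin 3 → k) (α β : k) (f : CoordRing k) :
    (alongLine v (α • v + β • w) f).coeff 1 =
      α * (alongLine v v f).coeff 1 + β * (alongLine v w f).coeff 1 := by
  induction f using MvPolynomial.induction_on with
  | C a =>
    rw [show MvPolynomial.C a = algebraMap k (CoordRing k) a from rfl]
    simp only [AlgHom.commutes, Polynomial.algebraMap_apply, Algebra.algebraMap_self,
      RingHom.id_apply, Polynomial.coeff_C_succ, mul_zero, add_zero]
  | add p q hp hq =>
    simp only [map_add, Polynomial.coeff_add, hp, hq]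
    ring
  | mul_X p i hp =>
    have key : ∀ u : Fin 3 → k, (alongLine v u (p * MvPolynomial.X i)).coeff 1 =
        (alongLine v u p).coeff 1 * v i + MvPolynomial.eval v p * u i := by
      intro u
      rw [map_mul]
      have : alongLine v u (MvPolynomial.X i) = Polynomial.C (v i) + Polynomial.C (u i) * Polynomial.X := by
        simp [alongLine]
      rw [this, mul_add, Polynomial.coeff_add, Polynomial.coeff_mul_C, ← mul_assoc,
        Polynomial.coeff_mul_X, Polynomial.coeff_mul_C, alongLine_coeff_zero]
    rw [key, key, key, hp]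
    simp only [Pi.add_apply, Pi.smul_apply, smul_eq_mul]
    ring

lemma eval_eq_zero_of_mem_pointIdeal {P : Plane k} {f : CoordRing k} (hf : f ∈ pointIdeal P)
    (c : k) : MvPolynomial.eval (c • P.rep) f = 0 := by
  apply hf
  rw [Projectivization.submodule_eq]
  exact Submodule.smul_mem _ _ (Submodule.mem_span_singleton_self _)

lemma eval_rep_eq_zero {P : Plane k} {f : CoordRing k} (hf : f ∈ pointIdeal P) :
    MvPolynomial.eval P.rep f = 0 := by
  have := eval_eq_zero_of_mem_pointIdeal hf 1
  rwa [one_smul] at this

lemma eval_alongLine (v w : Fin 3 → k) (f : CoordRing k) (t : k) :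
    (alongLine v w f).eval t = MvPolynomial.eval (fun i => v i + w i * t) f := by
  have : (Polynomial.aeval t).comp (alongLine v w) = MvPolynomial.aeval (fun i => v i + w i * t) := by
    apply MvPolynomial.algHom_ext
    intro i
    simp [alongLine]
  have h2 := congrArg (fun φ : CoordRing k →ₐ[k] k => φ f) this
  simpa [Polynomial.aeval_def, Polynomial.eval₂_eq_eval_map] using h2

variable [Infinite k]

lemma alongLine_self {P : Plane k} {f : CoordRing k} (hf : f ∈ pointIdeal P) :
    alongLine P.rep P.rep f = 0 := by
  apply Polynomial.funext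
  intro t
  rw [eval_alongLine, Polynomial.eval_zero]
  have h1 := eval_eq_zero_of_mem_pointIdeal hf (1 + t)
  have h2 : (fun i => P.rep i + P.rep i * t) = (1 + t) • P.rep := by
    funext i
    simp only [Pi.smul_apply, smul_eq_mul]
    ring
  rw [h2, h1]

lemma coeff_alongLine_dir {P : Plane k} (α β : k) (w : Fin 3 → k) (μ : ℕ) :
    ∀ b ∈ pointIdeal P ^ μ, (alongLine P.rep (α • P.rep + β • w) b).coeff μ =
      β ^ μ * (alongLine P.rep w b).coeff μ := by
  have hI : ∀ u : Fin 3 → k, ∀ f ∈ pointIdeal P, (alongLine P.rep u f).coeff 0 = 0 := by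
    intro u f hf
    rw [alongLine_coeff_zero]
    exact eval_rep_eq_zero hf
  induction μ with
  | zero =>
    intro b _
    rw [alongLine_coeff_zero, alongLine_coeff_zero, pow_zero, one_mul]
  | succ μ ih =>
    intro b hb
    rw [pow_succ] at hb
    refine Submodule.mul_induction_on hb ?_ ?_
    · intro f hf g hg
      have hg' : g ∈ pointIdeal P ^ 1 := by rwa [pow_one]
      rw [coeff_alongLine_mul (hI _) hf hg', coeff_alongLine_mul (hI _) hf hg', ih f hf,
        coeff_one_alongLine_linear, alongLine_self hg, Polynomial.coeff_zero]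
      ring
    · intro f g hf hg
      rw [map_add, map_add, Polynomial.coeff_add, Polynomial.coeff_add, hf, hg]
      ring

end Direction

namespace LineThrough

variable {P : Plane k} (L : LineThrough P)

lemma exists_dir : ∃ w ∈ L.1, w ∉ P.submodule := by
  by_contra h
  push Not at h
  have h1 : L.1 ≤ P.submodule := h
  have h2 := Submodule.finrank_mono h1
  rw [L.2.1, Projectivization.finrank_submodule] at h2
  omega

/-- A direction vector: together with the point it spans the line. -/
def dir : Fin 3 → k := L.exists_dir.choose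

lemma dir_mem : L.dir ∈ L.1 := L.exists_dir.choose_spec.1

lemma dir_not_mem : L.dir ∉ P.submodule := L.exists_dir.choose_spec.2

lemma rep_mem : P.rep ∈ L.1 := by
  apply L.2.2
  rw [Projectivization.submodule_eq]
  exact Submodule.mem_span_singleton_self _

lemma exists_coord (w : Fin 3 → k) (hw : w ∈ L.1) : ∃ α β : k, w = α • P.rep + β • L.dir := by
  have hli : LinearIndependent k ![P.rep, L.dir] := by
    rw [LinearIndependent.pair_iff' P.rep_nonzero]
    intro a ha
    apply L.dir_not_mem
    rw [← ha, Projectivization.submodule_eq]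
    exact Submodule.smul_mem _ _ (Submodule.mem_span_singleton_self _)
  have hle : Submodule.span k (Set.range ![P.rep, L.dir]) ≤ L.1 := by
    rw [Submodule.span_le]
    rintro _ ⟨i, rfl⟩
    fin_cases i
    · exact L.rep_mem
    · exact L.dir_mem
  have heq : Submodule.span k (Set.range ![P.rep, L.dir]) = L.1 := by
    apply Submodule.eq_of_le_of_finrank_eq hle
    rw [finrank_span_eq_card hli, L.2.1, Fintype.card_fin]
  rw [← heq, Matrix.range_cons, Matrix.range_cons, Matrix.range_empty, Set.union_empty,
    Set.singleton_union, Submodule.mem_span_pair] at hw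
  obtain ⟨α, β, h⟩ := hw
  exact ⟨α, β, h.symm⟩

/-- The line through `P` with direction `w`. -/
def ofDir (P : Plane k) (w : Fin 3 → k) (hw : w ∉ P.submodule) : LineThrough P :=
  ⟨Submodule.span k {P.rep, w}, by
    have hli : LinearIndependent k ![P.rep, w] := by
      rw [LinearIndependent.pair_iff' P.rep_nonzero]
      intro a ha
      apply hw
      rw [← ha, Projectivization.submodule_eq]
      exact Submodule.smul_mem _ _ (Submodule.mem_span_singleton_self _)
    have := finrank_span_eq_card hli
    rw [Matrix.range_cons, Matrix.range_cons, Matrix.range_empty, Set.union_empty,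
      Set.singleton_union, Fintype.card_fin] at this
    exact this, by
    rw [Projectivization.submodule_eq, Submodule.span_singleton_le_iff_mem]
    exact Submodule.subset_span (Set.mem_insert _ _)⟩

lemma ofDir_dir (P : Plane k) (w : Fin 3 → k) (hw : w ∉ P.submodule) :
    ∃ α β : k, β ≠ 0 ∧ (ofDir P w hw).dir = α • P.rep + β • w := by
  have h := (ofDir P w hw).dir_mem
  change _ ∈ Submodule.span k {P.rep, w} at h
  rw [Submodule.mem_span_pair] at h
  obtain ⟨α, β, h⟩ := h
  refine ⟨α, β, ?_, h.symm⟩
  rintro rfl
  apply (ofDir P w hw).dir_not_mem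
  rw [← h, zero_smul, add_zero, Projectivization.submodule_eq]
  exact Submodule.smul_mem _ _ (Submodule.mem_span_singleton_self _)

end LineThrough

end

end Pool.Agent.Lib.MP_8481ed_ag
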