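import Mathlib
import Pool.Agent.Lib.MP_8481ed_ag.Local

/-!
# Stalks of the sheaves `𝒪_X(dH - ∑ mᵢ Eᵢ)`
-/

open scoped LinearAlgebra.Projectivization

universe u

namespace Pool.Agent.Lib.MP_8481ed_ag

noncomputable section

variable {k : Type u} [Field k] {r : ℕ} {p : Fin r → Plane k}

namespace BlowUp

/-- A vector representing the image in the plane. -/
def vec : BlowUp p → Fin 3 → k
  | .away q _ => q.rep
  | .exc i _ => (p i).rep

/-- A direction vector (zero for points outside the exceptional curves). -/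
def dir : BlowUp p → Fin 3 → k
  | .away _ _ => 0
  | .exc _ L => LineThrough.dir L

/-- The ideal measuring multiplicities (zero for points outside the exceptional curves). -/
def idl : BlowUp p → Ideal (CoordRing k)
  | .away _ _ => ⊥
  | .exc i _ => pointIdeal (p i)

/-- The multiplicity prescribed at a point. -/
def mlt (m : Fin r → ℤ) : BlowUp p → ℤ
  | .away _ _ => 0
  | .exc i _ => m i

/-- The leading coefficient of order `μ` of a polynomial along the arc at `x`. -/
def lead (x : BlowUp p) (μ : ℕ) (b : CoordRing k) : k := (alongLine x.vec x.dir b).coeff μ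

lemma idl_coeff_zero (x : BlowUp p) : ∀ f ∈ x.idl, (alongLine x.vec x.dir f).coeff 0 = 0 := by
  cases x with
  | away q hq =>
    intro f hf
    have : f = 0 := hf
    rw [this, map_zero, Polynomial.coeff_zero]
  | exc i L =>
    intro f hf
    rw [alongLine_coeff_zero]
    exact eval_rep_eq_zero hf

lemma lead_mul (x : BlowUp p) {μ ν : ℕ} {a b : CoordRing k} (ha : a ∈ x.idl ^ μ)
    (hb : b ∈ x.idl ^ ν) : x.lead (μ + ν) (a * b) = x.lead μ a * x.lead ν b :=
  coeff_alongLine_mul x.idl_coeff_zero ha hb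

lemma lead_add (x : BlowUp p) (μ : ℕ) (a b : CoordRing k) :
    x.lead μ (a + b) = x.lead μ a + x.lead μ b := by
  simp [lead]

lemma lead_neg (x : BlowUp p) (μ : ℕ) (a : CoordRing k) : x.lead μ (-a) = - x.lead μ a := by
  simp [lead]

lemma lead_zero (x : BlowUp p) (a : CoordRing k) : x.lead 0 a = MvPolynomial.eval x.vec a :=
  alongLine_coeff_zero _ _ _

lemma lead_of_lt (x : BlowUp p) {μ ν : ℕ} (h : μ < ν) {a : CoordRing k} (ha : a ∈ x.idl ^ ν) :
    x.lead μ a = 0 :=
  coeff_alongLine_of_lt x.idl_coeff_zero h ha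

lemma ne_zero_of_lead (x : BlowUp p) {μ : ℕ} {a : CoordRing k} (h : x.lead μ a ≠ 0) : a ≠ 0 := by
  rintro rfl
  simp [lead] at h

end BlowUp

/-- The canonical map from polynomials to the fraction field. -/
abbrev toFrac : CoordRing k →+* Frac k := algebraMap (CoordRing k) (Frac k)

lemma toFrac_injective : Function.Injective (toFrac (k := k)) :=
  IsFractionRing.injective (CoordRing k) (Frac k)

lemma toFrac_ne_zero {a : CoordRing k} (h : a ≠ 0) : toFrac a ≠ 0 := fun h0 =>
  h (toFrac_injective (by rw [h0, map_zero]))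

/-- Regularity outside the exceptional curves. -/
lemma isRegularAt_away_iff (d : ℤ) (m : Fin r → ℤ) (q : Plane k) (hq : ∀ i, q ≠ p i)
    (s : Frac k) : IsRegularAt p d m (.away q hq) s ↔ ∃ (n e : ℕ) (a b : CoordRing k),
      a.IsHomogeneous n ∧ b.IsHomogeneous e ∧ (n : ℤ) = e + d ∧
      MvPolynomial.eval q.rep b ≠ 0 ∧ s = toFrac a / toFrac b := by
  constructor
  · rintro ⟨n, e, a, b, ha, hb, hn, hbq, hs⟩
    have hb0 : b ≠ 0 := by
      rintro rfl
      simp at hbq
    exact ⟨n, e, a, b, ha, hb, hn, hbq, (eq_div_iff (toFrac_ne_zero hb0)).2 hs⟩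
  · rintro ⟨n, e, a, b, ha, hb, hn, hbq, hs⟩
    have hb0 : b ≠ 0 := by
      rintro rfl
      simp at hbq
    exact ⟨n, e, a, b, ha, hb, hn, hbq, (eq_div_iff (toFrac_ne_zero hb0)).1 hs⟩

/-- Uniform description of regularity at a point of the blow-up. -/
lemma isRegularAt_iff [Infinite k] (d : ℤ) (m : Fin r → ℤ) (x : BlowUp p) (s : Frac k) :
    IsRegularAt p d m x s ↔ ∃ (n e μ : ℕ) (a b : CoordRing k), a.IsHomogeneous n ∧
      b.IsHomogeneous e ∧ (n : ℤ) = e + d ∧ a ∈ x.idl ^ ((μ : ℤ) + x.mlt m).toNat ∧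
      b ∈ x.idl ^ μ ∧ x.lead μ b ≠ 0 ∧ s = toFrac a / toFrac b := by
  cases x with
  | away q hq =>
    rw [isRegularAt_away_iff]
    constructor
    · rintro ⟨n, e, a, b, ha, hb, hn, hbq, rfl⟩
      refine ⟨n, e, 0, a, b, ha, hb, hn, ?_, ?_, ?_, rfl⟩
      · simp [BlowUp.mlt]
      · simp
      · rw [BlowUp.lead_zero]
        exact hbq
    · rintro ⟨n, e, μ, a, b, ha, hb, hn, -, hbI, hbl, rfl⟩
      have hμ : μ = 0 := by
        by_contra hμ
        apply BlowUp.ne_zero_of_lead _ hbl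
        have : b ∈ (⊥ : Ideal (CoordRing k)) ^ μ := hbI
        rw [Ideal.bot_pow hμ] at this
        exact this
      subst hμ
      rw [BlowUp.lead_zero] at hbl
      exact ⟨n, e, a, b, ha, hb, hn, hbl, rfl⟩
  | exc i L =>
    constructor
    · rintro ⟨n, e, μ, a, b, ha, hb, hn, haI, hbI, ⟨w, hw, hwc⟩, hs⟩
      have hb0 : b ≠ 0 := by
        rintro rfl
        simp at hwc
      refine ⟨n, e, μ, a, b, ha, hb, hn, haI, hbI, ?_, (eq_div_iff (toFrac_ne_zero hb0)).2 hs⟩
      obtain ⟨α, β, rfl⟩ := L.exists_coord w hw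
      rw [coeff_alongLine_dir α β _ μ b hbI] at hwc
      exact right_ne_zero_of_mul hwc
    · rintro ⟨n, e, μ, a, b, ha, hb, hn, haI, hbI, hbl, hs⟩
      have hb0 : b ≠ 0 := BlowUp.ne_zero_of_lead _ hbl
      exact ⟨n, e, μ, a, b, ha, hb, hn, haI, hbI, ⟨_, L.dir_mem, hbl⟩,
        (eq_div_iff (toFrac_ne_zero hb0)).1 hs⟩

/-- There is a linear form not vanishing at a given nonzero vector. -/
lemma exists_linear_ne_zero (v : Fin 3 → k) (hv : v ≠ 0) :
    ∃ i : Fin 3, MvPolynomial.eval v (MvPolynomial.X i : CoordRing k) ≠ 0 := by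
  obtain ⟨i, hi⟩ := Function.ne_iff.1 hv
  exact ⟨i, by simpa using hi⟩

lemma BlowUp.vec_ne_zero (x : BlowUp p) : x.vec ≠ 0 := by
  cases x with
  | away q hq => exact q.rep_nonzero
  | exc i L => exact (p i).rep_nonzero

/-- The stalk of `𝒪_X(dH - ∑ mᵢ Eᵢ)` at `x`, as a subgroup of the fraction field. -/
lemma isRegularAt_zero [Infinite k] (d : ℤ) (m : Fin r → ℤ) (x : BlowUp p) :
    IsRegularAt p d m x 0 := by
  rw [isRegularAt_iff]
  obtain ⟨i, hi⟩ := exists_linear_ne_zero x.vec x.vec_ne_zero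
  refine ⟨((d.natAbs : ℤ) + d).toNat, d.natAbs, 0, 0, MvPolynomial.X i ^ d.natAbs,
    MvPolynomial.isHomogeneous_zero _ _ _, ?_, by omega, Ideal.zero_mem _, by simp, ?_, by simp⟩
  · have := (MvPolynomial.isHomogeneous_X k i).pow d.natAbs
    rwa [one_mul] at this
  · rw [BlowUp.lead_zero, map_pow]
    exact pow_ne_zero _ hi

lemma isRegularAt_add [Infinite k] {d : ℤ} {m : Fin r → ℤ} {x : BlowUp p} {s t : Frac k}
    (hs : IsRegularAt p d m x s) (ht : IsRegularAt p d m x t) : IsRegularAt p d m x (s + t) := by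
  rw [isRegularAt_iff] at *
  obtain ⟨n, e, μ, a, b, ha, hb, hn, haI, hbI, hbl, rfl⟩ := hs
  obtain ⟨n', e', μ', a', b', ha', hb', hn', haI', hbI', hbl', rfl⟩ := ht
  refine ⟨n + e', e + e', μ + μ', a * b' + a' * b, b * b', ?_, hb.mul hb', by push_cast; omega,
    ?_, ?_, ?_, ?_⟩
  · refine (ha.mul hb').add ?_
    have h1 := ha'.mul hb
    have h2 : n' + e = n + e' := by omega
    rwa [h2] at h1
  · refine Ideal.add_mem _ ?_ ?_
    · have h1 := Ideal.mul_mem_mul haI hbI'
      rw [← pow_add] at h1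
      exact Ideal.pow_le_pow_right (by push_cast; omega) h1
    · have h1 := Ideal.mul_mem_mul haI' hbI
      rw [← pow_add] at h1
      exact Ideal.pow_le_pow_right (by push_cast; omega) h1
  · rw [pow_add]
    exact Ideal.mul_mem_mul hbI hbI'
  · rw [x.lead_mul hbI hbI']
    exact mul_ne_zero hbl hbl'
  · have h1 := toFrac_ne_zero (x.ne_zero_of_lead hbl)
    have h2 := toFrac_ne_zero (x.ne_zero_of_lead hbl')
    rw [map_add, map_mul, map_mul, map_mul]
    field_simp

lemma isRegularAt_neg [Infinite k] {d : ℤ} {m : Fin r → ℤ} {x : BlowUp p} {s : Frac k}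
    (hs : IsRegularAt p d m x s) : IsRegularAt p d m x (-s) := by
  rw [isRegularAt_iff] at *
  obtain ⟨n, e, μ, a, b, ha, hb, hn, haI, hbI, hbl, rfl⟩ := hs
  exact ⟨n, e, μ, -a, b, ha.neg, hb, hn, Ideal.neg_mem_iff _ |>.2 haI, hbI, hbl, by
    rw [map_neg, neg_div]⟩

lemma isRegularAt_mul [Infinite k] {d d' : ℤ} {m m' : Fin r → ℤ} {x : BlowUp p} {s t : Frac k}
    (hs : IsRegularAt p d m x s) (ht : IsRegularAt p d' m' x t) :
    IsRegularAt p (d + d') (fun i => m i + m' i) x (s * t) := by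
  have hmlt : x.mlt (fun i => m i + m' i) = x.mlt m + x.mlt m' := by
    cases x <;> simp [BlowUp.mlt]
  rw [isRegularAt_iff] at *
  obtain ⟨n, e, μ, a, b, ha, hb, hn, haI, hbI, hbl, rfl⟩ := hs
  obtain ⟨n', e', μ', a', b', ha', hb', hn', haI', hbI', hbl', rfl⟩ := ht
  refine ⟨n + n', e + e', μ + μ', a * a', b * b', ha.mul ha', hb.mul hb', by push_cast; omega,
    ?_, ?_, ?_, ?_⟩
  · have h1 := Ideal.mul_mem_mul haI haI'
    rw [← pow_add] at h1
    rw [hmlt]
    exact Ideal.pow_le_pow_right (by push_cast; omega) h1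
  · rw [pow_add]
    exact Ideal.mul_mem_mul hbI hbI'
  · rw [x.lead_mul hbI hbI']
    exact mul_ne_zero hbl hbl'
  · rw [map_mul, map_mul, div_mul_div_comm]

end

end Pool.Agent.Lib.MP_8481ed_ag
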