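import Mathlib
import Pool.Agent.Lib.MP_8481ed_ag.Stalk

/-!
# The Zariski topology and the sheaves `𝒪_X(dH - ∑ mᵢ Eᵢ)`
-/

open CategoryTheory TopologicalSpace Opposite
open scoped LinearAlgebra.Projectivization

universe u

namespace Pool.Agent.Lib.MP_8481ed_ag

noncomputable section

variable {k : Type u} [Field k] [IsAlgClosed k] {r : ℕ} (p : Fin r → Plane k)

/-- The stalk at `x` of the line bundle `𝒪_X(dH - ∑ mᵢ Eᵢ)` on the blow-up `X` of the plane at the
points `p i`, as a subgroup of the fraction field of the homogeneous coordinate ring. -/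
def stalk (d : ℤ) (m : Fin r → ℤ) (x : BlowUp p) :
    AddSubgroup (FractionRing (MvPolynomial (Fin 3) k)) where
  carrier := {s | IsRegularAt p d m x s}
  zero_mem' := isRegularAt_zero d m x
  add_mem' := isRegularAt_add
  neg_mem' := isRegularAt_neg

/-- The Zariski topology on the blow-up: the coarsest topology for which the domain of regularity
of every rational function is open. -/
instance zariski : TopologicalSpace (BlowUp p) :=
  TopologicalSpace.generateFrom {U | ∃ g, U = {x | g ∈ stalk p 0 0 x}}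

/-- The cohomology group `Hⁱ(X, 𝒪_X(dH - ∑ mᵢ Eᵢ))`, where `X` is the blow-up of the plane at the
points `p i`. The line bundle is the subsheaf with stalks `stalk p d m x` of the constant sheaf. -/
def H (d : ℤ) (m : Fin r → ℤ) (i : ℕ) : Type u := cohomology (stalk p d m) i

/-- The divisor `D = dH - ∑ mᵢ Eᵢ` on the blow-up `X` is special: `h⁰(X, D) > 0` and
`h¹(X, D) > 0`. -/
def IsSpecial (d : ℤ) (m : Fin r → ℤ) : Prop :=
  Nontrivial (H p d m 0) ∧ Nontrivial (H p d m 1)

variable {p}

lemma mem_stalk_iff {d : ℤ} {m : Fin r → ℤ} {x : BlowUp p} {s : Frac k} :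
    s ∈ stalk p d m x ↔ IsRegularAt p d m x s := Iff.rfl

lemma exists_eval_ne_zero {h : CoordRing k} (hh : h ≠ 0) :
    ∃ v : Fin 3 → k, v ≠ 0 ∧ MvPolynomial.eval v h ≠ 0 := by
  by_contra hcon
  push Not at hcon
  have h0 : h * MvPolynomial.X 0 = 0 := by
    apply MvPolynomial.funext
    intro v
    by_cases hv : v = 0
    · simp [hv]
    · rw [map_mul, hcon v hv, zero_mul, map_zero]
  rcases mul_eq_zero.1 h0 with h1 | h1
  · exact hh h1
  · exact MvPolynomial.X_ne_zero 0 h1

omit [IsAlgClosed k] in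
/-- For every point there is a nonzero linear form vanishing at it. -/
lemma exists_linear_form (P : Plane k) : ∃ l : CoordRing k, l ≠ 0 ∧ l.IsHomogeneous 1 ∧
    ∀ q : Plane k, q = P → MvPolynomial.eval q.rep l = 0 := by
  obtain ⟨i, hi⟩ := Function.ne_iff.1 P.rep_nonzero
  have hi' : P.rep i ≠ 0 := hi
  obtain ⟨j, hj⟩ : ∃ j : Fin 3, j ≠ i := exists_ne i
  refine ⟨MvPolynomial.C (P.rep i) * MvPolynomial.X j - MvPolynomial.C (P.rep j) * MvPolynomial.X i,
    ?_, ?_, ?_⟩
  · intro h0
    have h1 := congrArg (MvPolynomial.eval (Pi.single j (1 : k))) h0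
    simp [hj.symm] at h1
    exact hi' h1
  · refine MvPolynomial.IsHomogeneous.sub ?_ ?_
    · have := (MvPolynomial.isHomogeneous_C (Fin 3) (P.rep i)).mul (MvPolynomial.isHomogeneous_X k j)
      rwa [zero_add] at this
    · have := (MvPolynomial.isHomogeneous_C (Fin 3) (P.rep j)).mul (MvPolynomial.isHomogeneous_X k i)
      rwa [zero_add] at this
  · rintro q rfl
    simp [mul_comm]

omit [IsAlgClosed k] in
lemma eval₂_smul_homog {R : Type*} [CommRing R] (f : k →+* R) {a : CoordRing k} {n : ℕ}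
    (ha : a.IsHomogeneous n) (c : R) (v : Fin 3 → R) :
    MvPolynomial.eval₂ f (fun i => c * v i) a = c ^ n * MvPolynomial.eval₂ f v a := by
  rw [MvPolynomial.eval₂_eq, MvPolynomial.eval₂_eq, Finset.mul_sum]
  refine Finset.sum_congr rfl fun e he => ?_
  have hdeg : ∑ i ∈ e.support, e i = n := by
    have h1 := ha (MvPolynomial.mem_support_iff.1 he)
    rw [← h1, Finsupp.weight_apply, Finsupp.sum]
    simp
  rw [← hdeg, ← Finset.prod_pow_eq_pow_sum]
  rw [Finset.prod_congr rfl (fun i _ => mul_pow c (v i) (e i)), Finset.prod_mul_distrib]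
  ring

omit [IsAlgClosed k] in
lemma eval_smul_homog {a : CoordRing k} {n : ℕ} (ha : a.IsHomogeneous n) (c : k)
    (v : Fin 3 → k) : MvPolynomial.eval (c • v) a = c ^ n * MvPolynomial.eval v a :=
  eval₂_smul_homog (RingHom.id k) ha c v

omit [IsAlgClosed k] in
lemma eval_rep_mk {a : CoordRing k} {n : ℕ} (ha : a.IsHomogeneous n) (v : Fin 3 → k) (hv : v ≠ 0) :
    MvPolynomial.eval (Projectivization.mk k v hv).rep a = 0 ↔ MvPolynomial.eval v a = 0 := by
  obtain ⟨c, hc⟩ := Projectivization.exists_smul_eq_mk_rep k v hv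
  rw [← hc, Units.smul_def, eval_smul_homog ha]
  simp

/-- For every nonzero form there is a point of the plane outside the blown-up points at which
it does not vanish. -/
lemma exists_away {h : CoordRing k} (hh : h ≠ 0) {n : ℕ} (hn : h.IsHomogeneous n) :
    ∃ (q : Plane k) (_ : ∀ i, q ≠ p i), MvPolynomial.eval q.rep h ≠ 0 := by
  choose l hl0 hl1 hl using fun i => exists_linear_form (p i)
  have hprod : h * ∏ i, l i ≠ 0 := mul_ne_zero hh (Finset.prod_ne_zero_iff.2 fun i _ => hl0 i)
  have hhom : (h * ∏ i, l i).IsHomogeneous (n + ∑ i : Fin r, 1) :=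
    hn.mul (MvPolynomial.IsHomogeneous.prod _ _ _ fun i _ => hl1 i)
  obtain ⟨v, hv, hne⟩ := exists_eval_ne_zero hprod
  refine ⟨Projectivization.mk k v hv, fun i hi => ?_, fun h0 => ?_⟩
  · apply hne
    rw [← eval_rep_mk hhom v hv, map_mul, map_prod]
    rw [Finset.prod_eq_zero (Finset.mem_univ i) (hl i _ hi), mul_zero]
  · apply hne
    rw [← eval_rep_mk hhom v hv, map_mul, h0, zero_mul]

/-- Every nonempty open set contains all points away from the blown-up points at which some
nonzero form does not vanish. -/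
lemma exists_form_of_isOpen {V : Set (BlowUp p)} (hV : IsOpen V) {x : BlowUp p} (hx : x ∈ V) :
    ∃ (h : CoordRing k) (n : ℕ), h ≠ 0 ∧ h.IsHomogeneous n ∧
      (∀ q hq, x = .away q hq → MvPolynomial.eval q.rep h ≠ 0) ∧
      ∀ q hq, MvPolynomial.eval q.rep h ≠ 0 → (.away q hq : BlowUp p) ∈ V := by
  induction hV with
  | basic s hs =>
    obtain ⟨g, rfl⟩ := hs
    change IsRegularAt p 0 0 x g at hx
    cases x with
    | away q hq =>
      obtain ⟨n, e, a, b, ha, hb, hn, hbq, hg⟩ := hx
      refine ⟨b, e, ?_, hb, ?_, ?_⟩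
      · rintro rfl
        simp at hbq
      · intro q' hq' h
        cases h
        exact hbq
      · intro q' hq' hbq'
        exact ⟨n, e, a, b, ha, hb, hn, hbq', hg⟩
    | exc i L =>
      obtain ⟨n, e, μ, a, b, ha, hb, hn, haI, hbI, ⟨w, hw, hbl⟩, hg⟩ := hx
      refine ⟨b, e, ?_, hb, ?_, ?_⟩
      · rintro rfl
        simp at hbl
      · intro q' hq' h
        cases h
      · intro q' hq' hbq'
        exact ⟨n, e, a, b, ha, hb, hn, hbq', hg⟩
  | univ =>
    exact ⟨1, 0, one_ne_zero, MvPolynomial.isHomogeneous_one _ _, by simp, by simp⟩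
  | inter s t _ _ ih1 ih2 =>
    obtain ⟨h1, n1, h10, hn1, hx1, hs1⟩ := ih1 hx.1
    obtain ⟨h2, n2, h20, hn2, hx2, hs2⟩ := ih2 hx.2
    refine ⟨h1 * h2, n1 + n2, mul_ne_zero h10 h20, hn1.mul hn2, ?_, ?_⟩
    · intro q hq h
      rw [map_mul]
      exact mul_ne_zero (hx1 q hq h) (hx2 q hq h)
    · intro q hq h
      rw [map_mul] at h
      exact ⟨hs1 q hq (left_ne_zero_of_mul h), hs2 q hq (right_ne_zero_of_mul h)⟩
  | sUnion S _ ih =>
    obtain ⟨s, hs, hxs⟩ := hx
    obtain ⟨h, n, h0, hn, hx', hs'⟩ := ih s hs hxs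
    exact ⟨h, n, h0, hn, hx', fun q hq hh => ⟨s, hs, hs' q hq hh⟩⟩

instance : PreirreducibleSpace (BlowUp p) where
  isPreirreducible_univ := by
    rintro U V hU hV ⟨x, -, hx⟩ ⟨y, -, hy⟩
    obtain ⟨h1, n1, h10, hn1, -, hs1⟩ := exists_form_of_isOpen hU hx
    obtain ⟨h2, n2, h20, hn2, -, hs2⟩ := exists_form_of_isOpen hV hy
    obtain ⟨q, hq, hne⟩ := exists_away (p := p) (mul_ne_zero h10 h20) (hn1.mul hn2)
    rw [map_mul] at hne
    exact ⟨.away q hq, trivial, hs1 q hq (left_ne_zero_of_mul hne),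
      hs2 q hq (right_ne_zero_of_mul hne)⟩

instance : Nonempty (BlowUp p) := by
  obtain ⟨q, hq, -⟩ := exists_away (p := p) (one_ne_zero (α := CoordRing k))
    (MvPolynomial.isHomogeneous_one _ _)
  exact ⟨.away q hq⟩

omit [IsAlgClosed k] in
/-- Linear forms separate points of the plane. -/
lemma exists_separating (P q : Plane k) (h : q ≠ P) : ∃ l : CoordRing k, l.IsHomogeneous 1 ∧
    MvPolynomial.eval P.rep l = 0 ∧ MvPolynomial.eval q.rep l ≠ 0 := by
  obtain ⟨i, hi⟩ := Function.ne_iff.1 P.rep_nonzero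
  have hi' : P.rep i ≠ 0 := hi
  by_contra hcon
  push Not at hcon
  have hl : ∀ j, P.rep i * q.rep j = P.rep j * q.rep i := by
    intro j
    have h1 := hcon (MvPolynomial.C (P.rep i) * MvPolynomial.X j -
      MvPolynomial.C (P.rep j) * MvPolynomial.X i) (by
        refine MvPolynomial.IsHomogeneous.sub ?_ ?_
        · have := (MvPolynomial.isHomogeneous_C (Fin 3) (P.rep i)).mul
            (MvPolynomial.isHomogeneous_X k j)
          rwa [zero_add] at this
        · have := (MvPolynomial.isHomogeneous_C (Fin 3) (P.rep j)).mul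
            (MvPolynomial.isHomogeneous_X k i)
          rwa [zero_add] at this) (by simp [mul_comm])
    simp only [map_sub, map_mul, MvPolynomial.eval_C, MvPolynomial.eval_X] at h1
    exact sub_eq_zero.1 h1
  apply h
  rw [← q.mk_rep, ← P.mk_rep, Projectivization.mk_eq_mk_iff']
  refine ⟨q.rep i / P.rep i, ?_⟩
  funext j
  rw [Pi.smul_apply, smul_eq_mul, div_mul_eq_mul_div, div_eq_iff hi']
  linear_combination -hl j

/-- The image in the plane of a point of the blow-up. -/
def BlowUp.center : BlowUp p → Plane k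
  | .away q _ => q
  | .exc i _ => p i

omit [IsAlgClosed k] in
lemma BlowUp.vec_eq (x : BlowUp p) : x.vec = x.center.rep := by
  cases x <;> rfl

/-- The set of points of the blow-up lying over a point different from `P` is open. -/
lemma isOpen_center_ne (P : Plane k) : IsOpen {x : BlowUp p | x.center ≠ P} := by
  rw [isOpen_iff_forall_mem_open]
  intro x hx
  have hx' : x.center ≠ P := hx
  obtain ⟨β, hβ, hβP, hβx⟩ := exists_separating P x.center hx'
  obtain ⟨i, hi⟩ := exists_linear_ne_zero P.rep P.rep_nonzero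
  let g : Frac k := toFrac (MvPolynomial.X i) / toFrac β
  refine ⟨{y | g ∈ stalk p 0 0 y}, ?_, isOpen_generateFrom_of_mem ⟨g, rfl⟩, ?_⟩
  · intro y hy hyP
    have hy' : IsRegularAt p 0 0 y g := hy
    rw [isRegularAt_iff] at hy'
    obtain ⟨n, e, μ, a, b, ha, hb, hn, haI, hbI, hbl, hab⟩ := hy'
    have hβ0 : β ≠ 0 := by
      rintro rfl
      simp at hβx
    have h1 : toFrac (MvPolynomial.X i * b) = toFrac (β * a) := by
      have h2 := toFrac_ne_zero hβ0
      have h3 := toFrac_ne_zero (y.ne_zero_of_lead hbl)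
      rw [map_mul, map_mul]
      simp only [g] at hab
      rw [div_eq_div_iff h2 h3] at hab
      rw [hab]
      ring
    have h4 := toFrac_injective h1
    have h5 : y.lead (0 + μ) (MvPolynomial.X i * b) = y.lead (0 + μ) (β * a) := by rw [h4]
    have haI' : a ∈ y.idl ^ μ := by
      have : ((μ : ℤ) + y.mlt (0 : Fin r → ℤ)).toNat = μ := by
        cases y <;> simp [BlowUp.mlt]
      rwa [this] at haI
    rw [y.lead_mul (by simp) hbI, y.lead_mul (by simp) haI', y.lead_zero, y.lead_zero,
      y.vec_eq, hyP, hβP, zero_mul] at h5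
    exact mul_ne_zero hi hbl h5
  · change IsRegularAt p 0 0 x g
    rw [isRegularAt_iff]
    refine ⟨1, 1, 0, MvPolynomial.X i, β, MvPolynomial.isHomogeneous_X k i, hβ, by simp, ?_,
      by simp, ?_, rfl⟩
    · have : (((0 : ℕ) : ℤ) + x.mlt (0 : Fin r → ℤ)).toNat = 0 := by
        cases x <;> simp [BlowUp.mlt]
      rw [this]
      simp
    · rw [x.lead_zero, x.vec_eq]
      exact hβx

end

end Pool.Agent.Lib.MP_8481ed_ag
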