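import Mathlib
import Pool.Agent.Lib.MP_8481ed_ag.Sheaf

/-!
# Values of regular functions on the blow-up
-/

open scoped LinearAlgebra.Projectivization

universe u

namespace Pool.Agent.Lib.MP_8481ed_ag

noncomputable section

variable {k : Type u} [Field k] {r : ℕ} {p : Fin r → Plane k}

/-- `HasVal x s l`: the rational function `s` is regular at `x` with value `l`. -/
def HasVal (x : BlowUp p) (s : Frac k) (l : k) : Prop :=
  ∃ (n μ : ℕ) (a b : CoordRing k), a.IsHomogeneous n ∧ b.IsHomogeneous n ∧ a ∈ x.idl ^ μ ∧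
    b ∈ x.idl ^ μ ∧ x.lead μ b ≠ 0 ∧ s = toFrac a / toFrac b ∧ l = x.lead μ a / x.lead μ b

namespace HasVal

variable {x : BlowUp p} {s t : Frac k} {l l' : k}

lemma const (x : BlowUp p) (c : k) : HasVal x (algebraMap k (Frac k) c) c := by
  refine ⟨0, 0, MvPolynomial.C c, 1, MvPolynomial.isHomogeneous_C _ _,
    MvPolynomial.isHomogeneous_one _ _, by simp, by simp, ?_, ?_, ?_⟩
  · rw [x.lead_zero, map_one]
    exact one_ne_zero
  · rw [map_one, div_one, IsScalarTower.algebraMap_apply k (CoordRing k) (Frac k)]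
    rfl
  · rw [x.lead_zero, x.lead_zero, map_one, div_one, MvPolynomial.eval_C]

lemma add (hs : HasVal x s l) (ht : HasVal x t l') : HasVal x (s + t) (l + l') := by
  obtain ⟨n, μ, a, b, ha, hb, haI, hbI, hbl, rfl, rfl⟩ := hs
  obtain ⟨n', μ', a', b', ha', hb', haI', hbI', hbl', rfl, rfl⟩ := ht
  refine ⟨n + n', μ + μ', a * b' + a' * b, b * b', ?_, hb.mul hb', ?_, ?_, ?_, ?_, ?_⟩
  · refine (ha.mul hb').add ?_
    have h1 := ha'.mul hb
    rwa [add_comm n' n] at h1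
  · refine Ideal.add_mem _ ?_ ?_
    · rw [pow_add]
      exact Ideal.mul_mem_mul haI hbI'
    · rw [add_comm, pow_add]
      exact Ideal.mul_mem_mul haI' hbI
  · rw [pow_add]
    exact Ideal.mul_mem_mul hbI hbI'
  · rw [x.lead_mul hbI hbI']
    exact mul_ne_zero hbl hbl'
  · have h1 := toFrac_ne_zero (x.ne_zero_of_lead hbl)
    have h2 := toFrac_ne_zero (x.ne_zero_of_lead hbl')
    rw [map_add, map_mul, map_mul, map_mul]
    field_simp
  · rw [x.lead_mul hbI hbI', x.lead_add, x.lead_mul haI hbI', add_comm μ μ', x.lead_mul haI' hbI]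
    field_simp

lemma mul (hs : HasVal x s l) (ht : HasVal x t l') : HasVal x (s * t) (l * l') := by
  obtain ⟨n, μ, a, b, ha, hb, haI, hbI, hbl, rfl, rfl⟩ := hs
  obtain ⟨n', μ', a', b', ha', hb', haI', hbI', hbl', rfl, rfl⟩ := ht
  refine ⟨n + n', μ + μ', a * a', b * b', ha.mul ha', hb.mul hb', ?_, ?_, ?_, ?_, ?_⟩
  · rw [pow_add]
    exact Ideal.mul_mem_mul haI haI'
  · rw [pow_add]
    exact Ideal.mul_mem_mul hbI hbI'
  · rw [x.lead_mul hbI hbI']
    exact mul_ne_zero hbl hbl'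
  · rw [map_mul, map_mul, div_mul_div_comm]
  · rw [x.lead_mul hbI hbI', x.lead_mul haI haI', div_mul_div_comm]

lemma inv (hs : HasVal x s l) (hl : l ≠ 0) : HasVal x s⁻¹ l⁻¹ := by
  obtain ⟨n, μ, a, b, ha, hb, haI, hbI, hbl, rfl, rfl⟩ := hs
  refine ⟨n, μ, b, a, hb, ha, hbI, haI, ?_, ?_, ?_⟩
  · intro h
    rw [h, zero_div] at hl
    exact hl rfl
  · rw [inv_div]
  · rw [inv_div]

lemma unique (hs : HasVal x s l) (ht : HasVal x s l') : l = l' := by
  obtain ⟨n, μ, a, b, ha, hb, haI, hbI, hbl, rfl, rfl⟩ := hs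
  obtain ⟨n', μ', a', b', ha', hb', haI', hbI', hbl', h, rfl⟩ := ht
  have h1 := toFrac_ne_zero (x.ne_zero_of_lead hbl)
  have h2 := toFrac_ne_zero (x.ne_zero_of_lead hbl')
  rw [div_eq_div_iff h1 h2, ← map_mul, ← map_mul] at h
  have h3 := toFrac_injective h
  have h4 : x.lead (μ + μ') (a * b') = x.lead (μ + μ') (a' * b) := by rw [h3]
  rw [x.lead_mul haI hbI', add_comm μ μ', x.lead_mul haI' hbI] at h4
  rw [div_eq_div_iff hbl hbl', h4]

lemma isRegular [Infinite k] (hs : HasVal x s l) : IsRegularAt p 0 0 x s := by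
  obtain ⟨n, μ, a, b, ha, hb, haI, hbI, hbl, rfl, rfl⟩ := hs
  rw [isRegularAt_iff]
  refine ⟨n, n, μ, a, b, ha, hb, by simp, ?_, hbI, hbl, rfl⟩
  have : ((μ : ℤ) + x.mlt (0 : Fin r → ℤ)).toNat = μ := by
    cases x <;> simp [BlowUp.mlt]
  rwa [this]

end HasVal

lemma isRegularAt_smul [Infinite k] {d : ℤ} {m : Fin r → ℤ} {x : BlowUp p} {s t : Frac k}
    (hs : IsRegularAt p 0 0 x s) (ht : IsRegularAt p d m x t) : IsRegularAt p d m x (s * t) := by
  have h := isRegularAt_mul hs ht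
  simpa using h

end

end Pool.Agent.Lib.MP_8481ed_ag
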