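import Mathlib
import Pool.Agent.Lib.MP_8481ed_ag.Val
import Pool.Agent.Lib.MP_8481ed_ag.Affine

/-!
# The affine chart `G / F` of the blow-up over the affine plane
-/

open scoped LinearAlgebra.Projectivization
open TopologicalSpace

universe u

namespace Pool.Agent.Lib.MP_8481ed_ag

noncomputable section

variable {k : Type u} [Field k] {r : ℕ}

/-- Two quartics `F`, `G` meeting transversally exactly in the points `p i`. -/
structure Pencil (p : Fin r → Plane k) where
  /-- first quartic -/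
  F : CoordRing k
  /-- second quartic -/
  G : CoordRing k
  /-- local linear factor of `F` -/
  U : Fin r → CoordRing k
  /-- local linear factor of `G` -/
  V : Fin r → CoordRing k
  /-- cofactor of `F` -/
  F' : Fin r → CoordRing k
  /-- cofactor of `G` -/
  G' : Fin r → CoordRing k
  hF : F.IsHomogeneous 4
  hG : G.IsHomogeneous 4
  hFU : ∀ i, F = U i * F' i
  hGV : ∀ i, G = V i * G' i
  hU : ∀ i, (U i).IsHomogeneous 1
  hV : ∀ i, (V i).IsHomogeneous 1
  hF'3 : ∀ i, (F' i).IsHomogeneous 3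
  hG'3 : ∀ i, (G' i).IsHomogeneous 3
  hF' : ∀ i, MvPolynomial.eval (p i).rep (F' i) ≠ 0
  hG' : ∀ i, MvPolynomial.eval (p i).rep (G' i) ≠ 0
  hUI : ∀ i, U i ∈ pointIdeal (p i)
  hVI : ∀ i, V i ∈ pointIdeal (p i)
  hI : ∀ i, pointIdeal (p i) ≤ Ideal.span {U i, V i}
  hZ : ∀ i, MvPolynomial.eval (p i).rep (MvPolynomial.X 2 : CoordRing k) ≠ 0
  hdir : ∀ i (u v : k), ∃ w : Fin 3 → k, MvPolynomial.eval w (U i) = u ∧
    MvPolynomial.eval w (V i) = v
  hcommon : ∀ q : Plane k, MvPolynomial.eval q.rep F = 0 → MvPolynomial.eval q.rep G = 0 →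
    ∃ i, q = p i

variable {p : Fin r → Plane k}

/-- Exchanging the roles of the two quartics. -/
def Pencil.swap (Q : Pencil p) : Pencil p where
  F := Q.G
  G := Q.F
  U := Q.V
  V := Q.U
  F' := Q.G'
  G' := Q.F'
  hF := Q.hG
  hG := Q.hF
  hFU := Q.hGV
  hGV := Q.hFU
  hU := Q.hV
  hV := Q.hU
  hF'3 := Q.hG'3
  hG'3 := Q.hF'3
  hF' := Q.hG'
  hG' := Q.hF'
  hUI := Q.hVI
  hVI := Q.hUI
  hI := fun i => by
    rw [Set.pair_comm]
    exact Q.hI i
  hZ := Q.hZ
  hdir := fun i u v => by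
    obtain ⟨w, h1, h2⟩ := Q.hdir i v u
    exact ⟨w, h2, h1⟩
  hcommon := fun q h1 h2 => Q.hcommon q h2 h1

namespace BlowUp

/-- the order of vanishing of the pencil -/
def ord : BlowUp p → ℕ
  | .away _ _ => 0
  | .exc _ _ => 1

end BlowUp

namespace Pencil

variable (Q : Pencil p)

lemma F_mem (x : BlowUp p) : Q.F ∈ x.idl ^ x.ord := by
  cases x with
  | away q hq => simp [BlowUp.ord]
  | exc i L =>
    rw [Q.hFU i]
    exact Ideal.mul_mem_right _ _ (by simpa [BlowUp.ord, BlowUp.idl] using Q.hUI i)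

lemma G_mem (x : BlowUp p) : Q.G ∈ x.idl ^ x.ord := Q.swap.F_mem x

/-- the chart of points of the blow-up over the affine plane `X₂ ≠ 0` where `G / F` is regular -/
abbrev W : Type u := {x : BlowUp p // MvPolynomial.eval x.vec (MvPolynomial.X 2 : CoordRing k) ≠ 0 ∧
  x.lead x.ord Q.F ≠ 0}

/-- The coordinates `(X₀/X₂, X₁/X₂, G/F)` of a point. -/
def xi (x : Q.W) : Fin 3 → k :=
  ![x.1.vec 0 / x.1.vec 2, x.1.vec 1 / x.1.vec 2, x.1.lead x.1.ord Q.G / x.1.lead x.1.ord Q.F]

/-- The coordinate functions `(X₀/X₂, X₁/X₂, G/F)`. -/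
def phi : MvPolynomial (Fin 3) k →+* Frac k :=
  MvPolynomial.eval₂Hom (algebraMap k (Frac k))
    ![toFrac (MvPolynomial.X 0) / toFrac (MvPolynomial.X 2),
      toFrac (MvPolynomial.X 1) / toFrac (MvPolynomial.X 2), toFrac Q.G / toFrac Q.F]

lemma hasVal_phi (x : Q.W) (h : MvPolynomial (Fin 3) k) :
    HasVal x.1 (Q.phi h) (MvPolynomial.eval (Q.xi x) h) := by
  have hX : ∀ j, HasVal x.1 (Q.phi (MvPolynomial.X j)) (Q.xi x j) := by
    have h01 : ∀ j : Fin 3, HasVal x.1 (toFrac (MvPolynomial.X j) / toFrac (MvPolynomial.X 2))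
        (x.1.vec j / x.1.vec 2) := by
      intro j
      refine ⟨1, 0, MvPolynomial.X j, MvPolynomial.X 2, MvPolynomial.isHomogeneous_X k j,
        MvPolynomial.isHomogeneous_X k 2, by simp, by simp, ?_, rfl, ?_⟩
      · rw [x.1.lead_zero]
        exact x.2.1
      · rw [x.1.lead_zero, x.1.lead_zero, MvPolynomial.eval_X, MvPolynomial.eval_X]
    intro j
    fin_cases j
    · simpa [phi, xi] using h01 0
    · simpa [phi, xi] using h01 1
    · have : HasVal x.1 (toFrac Q.G / toFrac Q.F)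
          (x.1.lead x.1.ord Q.G / x.1.lead x.1.ord Q.F) :=
        ⟨4, x.1.ord, Q.G, Q.F, Q.hG, Q.hF, Q.G_mem x.1, Q.F_mem x.1, x.2.2, rfl, rfl⟩
      simpa [phi, xi] using this
  induction h using MvPolynomial.induction_on with
  | C c =>
    have := HasVal.const x.1 c
    simpa [phi] using this
  | add f g hf hg =>
    rw [map_add, map_add]
    exact hf.add hg
  | mul_X f j hf =>
    rw [map_mul, map_mul, MvPolynomial.eval_X]
    exact hf.mul (hX j)

/-- dehomogenisation -/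
def dh : CoordRing k →+* MvPolynomial (Fin 3) k :=
  MvPolynomial.eval₂Hom MvPolynomial.C ![MvPolynomial.X 0, MvPolynomial.X 1, 1]

lemma phi_dh {A : CoordRing k} {n : ℕ} (hA : A.IsHomogeneous n) :
    Q.phi (dh A) = toFrac A / toFrac (MvPolynomial.X 2) ^ n := by
  have hZ : toFrac (MvPolynomial.X 2 : CoordRing k) ≠ 0 :=
    toFrac_ne_zero (MvPolynomial.X_ne_zero 2)
  have h1 : Q.phi.comp dh = MvPolynomial.eval₂Hom (algebraMap k (Frac k))
      (fun i => (toFrac (MvPolynomial.X 2))⁻¹ * toFrac (MvPolynomial.X i)) := by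
    apply MvPolynomial.ringHom_ext
    · intro c
      simp [phi, dh]
    · intro i
      fin_cases i
      · simp [phi, dh, div_eq_inv_mul]
      · simp [phi, dh, div_eq_inv_mul]
      · simp [phi, dh, hZ]
  have h2 : Q.phi (dh A) = (Q.phi.comp dh) A := rfl
  rw [h2, h1, MvPolynomial.coe_eval₂Hom, eval₂_smul_homog _ hA, div_eq_inv_mul, inv_pow]
  congr 1
  have h3 : (MvPolynomial.eval₂Hom (algebraMap k (Frac k)) fun i => toFrac (MvPolynomial.X i)) =
      toFrac := by
    apply MvPolynomial.ringHom_ext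
    · intro c
      rw [MvPolynomial.eval₂Hom_C, IsScalarTower.algebraMap_apply k (CoordRing k) (Frac k)]
      rfl
    · intro i
      simp
  exact congrArg (fun f : CoordRing k →+* Frac k => f A) h3

lemma eval_dh (z : Fin 3 → k) (A : CoordRing k) :
    MvPolynomial.eval z (dh A) = MvPolynomial.eval ![z 0, z 1, 1] A := by
  have h1 : (MvPolynomial.eval z).comp dh = MvPolynomial.eval ![z 0, z 1, 1] := by
    apply MvPolynomial.ringHom_ext
    · intro c
      simp [dh]
    · intro i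
      fin_cases i <;> simp [dh]
  exact congrArg (fun f : CoordRing k →+* k => f A) h1

lemma eval_xi_dh (x : Q.W) {A : CoordRing k} {n : ℕ} (hA : A.IsHomogeneous n) :
    MvPolynomial.eval (Q.xi x) (dh A) = MvPolynomial.eval x.1.vec A / x.1.vec 2 ^ n := by
  have hz : x.1.vec 2 ≠ 0 := by
    have := x.2.1
    rwa [MvPolynomial.eval_X] at this
  rw [eval_dh]
  have h1 : (![Q.xi x 0, Q.xi x 1, 1] : Fin 3 → k) = (x.1.vec 2)⁻¹ • x.1.vec := by
    funext i
    fin_cases i
    · simp [xi, div_eq_inv_mul]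
    · simp [xi, div_eq_inv_mul]
    · simp [hz]
  rw [h1, eval_smul_homog hA, inv_pow, div_eq_inv_mul]

lemma F_ne_zero (x : Q.W) : Q.F ≠ 0 := x.1.ne_zero_of_lead x.2.2

lemma phi_X2_mul (hF0 : Q.F ≠ 0) : Q.phi (MvPolynomial.X 2) * Q.phi (dh Q.F) = Q.phi (dh Q.G) := by
  rw [Q.phi_dh Q.hF, Q.phi_dh Q.hG]
  have h1 : Q.phi (MvPolynomial.X 2) = toFrac Q.G / toFrac Q.F := by simp [phi]
  have h2 := toFrac_ne_zero hF0
  rw [h1]
  field_simp

/-- Elements of a power of the ideal of `p i` become divisible by the corresponding power of `F`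
on the chart, up to a factor not vanishing at `p i`. -/
lemma exists_phi_eq (hF0 : Q.F ≠ 0) (i : Fin r) (N : ℕ) : ∀ a ∈ pointIdeal (p i) ^ N,
    ∃ g, Q.phi (dh a) * Q.phi (dh (Q.F' i * Q.G' i)) ^ N = Q.phi (dh Q.F) ^ N * Q.phi g := by
  induction N with
  | zero =>
    intro a _
    exact ⟨dh a, by simp⟩
  | succ N ih =>
    intro a ha
    rw [pow_succ] at ha
    refine Submodule.mul_induction_on ha ?_ ?_
    · intro f hf g hg
      obtain ⟨g₁, hg₁⟩ := ih f hf
      obtain ⟨α, β, hαβ⟩ := Ideal.mem_span_pair.1 (Q.hI i hg)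
      refine ⟨g₁ * (dh α * dh (Q.G' i) + dh β * dh (Q.F' i) * MvPolynomial.X 2), ?_⟩
      have e1 : Q.phi (dh Q.F) = Q.phi (dh (Q.U i)) * Q.phi (dh (Q.F' i)) := by
        conv_lhs => rw [Q.hFU i]
        rw [map_mul, map_mul]
      have e2 : Q.phi (dh Q.G) = Q.phi (dh (Q.V i)) * Q.phi (dh (Q.G' i)) := by
        conv_lhs => rw [Q.hGV i]
        rw [map_mul, map_mul]
      have e3 := Q.phi_X2_mul hF0
      have e4 : Q.phi (dh g) * Q.phi (dh (Q.F' i * Q.G' i)) =
          Q.phi (dh Q.F) * Q.phi (dh α * dh (Q.G' i) + dh β * dh (Q.F' i) * MvPolynomial.X 2) := by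
        rw [← hαβ]
        simp only [map_add, map_mul]
        rw [e2] at e3
        rw [e1] at e3 ⊢
        linear_combination (-Q.phi (dh β) * Q.phi (dh (Q.F' i))) * e3
      calc Q.phi (dh (f * g)) * Q.phi (dh (Q.F' i * Q.G' i)) ^ (N + 1)
          = (Q.phi (dh f) * Q.phi (dh (Q.F' i * Q.G' i)) ^ N) *
            (Q.phi (dh g) * Q.phi (dh (Q.F' i * Q.G' i))) := by
            rw [map_mul, map_mul]
            ring
        _ = _ := by
            rw [hg₁, e4, map_mul]
            ring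
    · rintro f g ⟨g₁, h₁⟩ ⟨g₂, h₂⟩
      refine ⟨g₁ + g₂, ?_⟩
      rw [map_add, map_add, map_add, add_mul, h₁, h₂]
      ring

end Pencil

end

end Pool.Agent.Lib.MP_8481ed_ag
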