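import Mathlib
import Pool.Agent.Lib.MP_8481ed_ag.ChartW

/-!
# The affine chart `G / F`: the chart data
-/

open scoped LinearAlgebra.Projectivization
open TopologicalSpace

universe u

namespace Pool.Agent.Lib.MP_8481ed_ag

noncomputable section

variable {k : Type u} [Field k] {r : ℕ} {p : Fin r → Plane k}

/-- evaluation of linear forms is additive -/
lemma eval_linear {l : CoordRing k} (hl : l.IsHomogeneous 1) (α β : k) (v w : Fin 3 → k) :
    MvPolynomial.eval (α • v + β • w) l =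
      α * MvPolynomial.eval v l + β * MvPolynomial.eval w l := by
  have h : l ∈ Submodule.span k (Set.range (MvPolynomial.X : Fin 3 → CoordRing k)) := by
    rw [← MvPolynomial.homogeneousSubmodule_one_eq_span_X]
    exact hl
  clear hl
  induction h using Submodule.span_induction with
  | mem x hx =>
    obtain ⟨i, rfl⟩ := hx
    simp
  | zero => simp
  | add x y _ _ hx hy =>
    rw [map_add, map_add, map_add, hx, hy]
    ring
  | smul c x _ hx =>
    rw [MvPolynomial.smul_eval, MvPolynomial.smul_eval, MvPolynomial.smul_eval, hx]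
    ring

lemma coeff_one_linear {l : CoordRing k} (hl : l.IsHomogeneous 1) (v w : Fin 3 → k) :
    (alongLine v w l).coeff 1 = MvPolynomial.eval w l := by
  have h : l ∈ Submodule.span k (Set.range (MvPolynomial.X : Fin 3 → CoordRing k)) := by
    rw [← MvPolynomial.homogeneousSubmodule_one_eq_span_X]
    exact hl
  clear hl
  induction h using Submodule.span_induction with
  | mem x hx =>
    obtain ⟨i, rfl⟩ := hx
    simp [alongLine, Polynomial.coeff_C]
  | zero => simp
  | add x y _ _ hx hy => rw [map_add, map_add, Polynomial.coeff_add, hx, hy]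
  | smul c x _ hx =>
    rw [map_smul, MvPolynomial.smul_eval, Polynomial.coeff_smul, hx, smul_eq_mul]

section

variable [IsAlgClosed k]

/-- Powers of `X₂` are regular sections where `X₂` does not vanish. -/
lemma isRegularAt_zpow (x : BlowUp p)
    (hx : MvPolynomial.eval x.vec (MvPolynomial.X 2 : CoordRing k) ≠ 0) (z : ℤ) :
    IsRegularAt p z 0 x (toFrac (MvPolynomial.X 2) ^ z) := by
  rw [isRegularAt_iff]
  have hm : x.mlt (0 : Fin r → ℤ) = 0 := by cases x <;> simp [BlowUp.mlt]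
  rw [hm]
  have hX : ∀ n : ℕ, (MvPolynomial.X 2 ^ n : CoordRing k).IsHomogeneous n := by
    intro n
    have := (MvPolynomial.isHomogeneous_X k (2 : Fin 3)).pow n
    rwa [one_mul] at this
  rcases Int.le_total 0 z with h | h
  · obtain ⟨n, rfl⟩ := Int.eq_ofNat_of_zero_le h
    refine ⟨n, 0, 0, MvPolynomial.X 2 ^ n, 1, hX n, MvPolynomial.isHomogeneous_one _ _, by simp,
      by simp, by simp, ?_, by simp⟩
    rw [x.lead_zero, map_one]
    exact one_ne_zero
  · obtain ⟨n, hn⟩ := Int.eq_ofNat_of_zero_le (Int.neg_nonneg.2 h)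
    refine ⟨0, n, 0, 1, MvPolynomial.X 2 ^ n, MvPolynomial.isHomogeneous_one _ _, hX n,
      by push_cast; omega, by simp, by simp, ?_, ?_⟩
    · rw [x.lead_zero, map_pow]
      exact pow_ne_zero _ hx
    · have : z = -(n : ℤ) := by omega
      rw [this, zpow_neg, zpow_natCast, map_one, map_pow, one_div]

namespace Pencil

variable (Q : Pencil p)

lemma isRegularAt_F_pow (x : BlowUp p) (m : ℕ) :
    IsRegularAt p (4 * m) (fun _ => (m : ℤ)) x (toFrac Q.F ^ m) := by
  rw [isRegularAt_iff]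
  refine ⟨4 * m, 0, 0, Q.F ^ m, 1, Q.hF.pow m, MvPolynomial.isHomogeneous_one _ _, by simp, ?_,
    by simp, ?_, by simp⟩
  · cases x with
    | away q hq => simp [BlowUp.mlt]
    | exc i L =>
      have h1 : Q.F ∈ pointIdeal (p i) := by
        rw [Q.hFU i]
        exact Ideal.mul_mem_right _ _ (Q.hUI i)
      simpa [BlowUp.mlt, BlowUp.idl] using Ideal.pow_mem_pow h1 m
  · rw [x.lead_zero, map_one]
    exact one_ne_zero

/-- A local generator of `𝒪_X(dH - m ∑ Eᵢ)` on the chart. -/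
def gen (d m : ℕ) : Frac k := toFrac (MvPolynomial.X 2) ^ ((d : ℤ) - 4 * m) * toFrac Q.F ^ m

lemma gen_regular (d m : ℕ) (x : Q.W) :
    IsRegularAt p d (fun _ => (m : ℤ)) x.1 (Q.gen d m) := by
  have h1 := isRegularAt_mul (isRegularAt_zpow x.1 x.2.1 ((d : ℤ) - 4 * m))
    (Q.isRegularAt_F_pow x.1 m)
  have e1 : ((d : ℤ) - 4 * m) + 4 * m = d := by ring
  rw [e1] at h1
  simpa [gen] using h1

/-- sections over the chart -/
def L (d m : ℕ) : AddSubgroup (Frac k) where
  carrier := {s | ∃ g, s = Q.gen d m * Q.phi g}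
  zero_mem' := ⟨0, by simp⟩
  add_mem' := by
    rintro _ _ ⟨g₁, rfl⟩ ⟨g₂, rfl⟩
    exact ⟨g₁ + g₂, by rw [map_add, mul_add]⟩
  neg_mem' := by
    rintro _ ⟨g, rfl⟩
    exact ⟨-g, by rw [map_neg, mul_neg]⟩

omit [IsAlgClosed k] in
lemma gen_eq (d m : ℕ) :
    Q.gen d m = toFrac (MvPolynomial.X 2) ^ (d : ℤ) * Q.phi (dh Q.F) ^ m := by
  have hZ : toFrac (MvPolynomial.X 2 : CoordRing k) ≠ 0 :=
    toFrac_ne_zero (MvPolynomial.X_ne_zero 2)
  rw [gen, Q.phi_dh Q.hF, div_pow, zpow_sub₀ hZ, ← pow_mul,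
    show (4 * (m : ℤ)) = ((4 * m : ℕ) : ℤ) by push_cast; ring, zpow_natCast, zpow_natCast]
  field_simp

/-- denominators -/
lemma denom (d m : ℕ) (x : Q.W) (s : Frac k) (hs : IsRegularAt p d (fun _ => (m : ℤ)) x.1 s) :
    ∃ h, MvPolynomial.eval (Q.xi x) h ≠ 0 ∧ Q.phi h * s ∈ Q.L d m := by
  have hF0 := Q.F_ne_zero x
  have hZ : toFrac (MvPolynomial.X 2 : CoordRing k) ≠ 0 :=
    toFrac_ne_zero (MvPolynomial.X_ne_zero 2)
  have hz : x.1.vec 2 ≠ 0 := by
    have := x.2.1
    rwa [MvPolynomial.eval_X] at this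
  have hΦ : Q.phi (dh Q.F) ≠ 0 := by
    rw [Q.phi_dh Q.hF]
    exact div_ne_zero (toFrac_ne_zero hF0) (pow_ne_zero _ hZ)
  obtain ⟨x, hx⟩ := x
  cases x with
  | away q hq =>
    obtain ⟨n, e, a, b, ha, hb, hn, hbq, rfl⟩ := (isRegularAt_away_iff _ _ _ _ _).1 hs
    have hb0 : b ≠ 0 := by
      rintro rfl
      simp at hbq
    refine ⟨dh b * dh Q.F ^ m, ?_, dh a, ?_⟩
    · rw [map_mul, map_pow, Q.eval_xi_dh _ hb, Q.eval_xi_dh _ Q.hF]
      refine mul_ne_zero (div_ne_zero hbq (pow_ne_zero _ hz)) (pow_ne_zero _ (div_ne_zero ?_ (pow_ne_zero _ hz)))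
      have := hx.2
      rwa [BlowUp.ord, BlowUp.lead_zero] at this
    · rw [Q.gen_eq, map_mul, map_pow, Q.phi_dh hb, Q.phi_dh ha]
      have hb' := toFrac_ne_zero hb0
      have hd : toFrac (MvPolynomial.X 2 : CoordRing k) ^ (d : ℤ) =
          toFrac (MvPolynomial.X 2) ^ n / toFrac (MvPolynomial.X 2) ^ e := by
        have : (d : ℤ) = n - e := by omega
        rw [this, zpow_sub₀ hZ, zpow_natCast, zpow_natCast]
      rw [hd]
      field_simp
  | exc i L =>
    rw [isRegularAt_iff] at hs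
    obtain ⟨n, e, μ, a, b, ha, hb, hn, haI, hbI, hbl, rfl⟩ := hs
    set x : BlowUp p := .exc i L with hxdef
    have haI' : a ∈ pointIdeal (p i) ^ (μ + m) := by
      have : ((μ : ℤ) + x.mlt fun _ => (m : ℤ)).toNat = μ + m := by
        simp [hxdef, BlowUp.mlt]
        omega
      rw [this] at haI
      exact haI
    have hbI' : b ∈ pointIdeal (p i) ^ μ := hbI
    obtain ⟨ga, hga⟩ := Q.exists_phi_eq hF0 i (μ + m) a haI'
    obtain ⟨gb, hgb⟩ := Q.exists_phi_eq hF0 i μ b hbI'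
    have hb0 : b ≠ 0 := x.ne_zero_of_lead hbl
    have hb' := toFrac_ne_zero hb0
    have hFG6 : (Q.F' i * Q.G' i).IsHomogeneous 6 := (Q.hF'3 i).mul (Q.hG'3 i)
    have hFGv : MvPolynomial.eval x.vec (Q.F' i * Q.G' i) ≠ 0 := by
      rw [map_mul]
      exact mul_ne_zero (Q.hF' i) (Q.hG' i)
    have hFG0 : Q.F' i * Q.G' i ≠ 0 := by
      intro h0
      rw [h0, map_zero] at hFGv
      exact hFGv rfl
    -- the value of `phi gb`
    have hval : HasVal x (Q.phi gb) (x.lead μ (b * (Q.F' i * Q.G' i) ^ μ) /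
        x.lead μ (Q.F ^ μ * MvPolynomial.X 2 ^ (e + 2 * μ))) ∧
        x.lead μ (b * (Q.F' i * Q.G' i) ^ μ) /
          x.lead μ (Q.F ^ μ * MvPolynomial.X 2 ^ (e + 2 * μ)) ≠ 0 := by
      have hl1 : x.lead μ (b * (Q.F' i * Q.G' i) ^ μ) =
          x.lead μ b * MvPolynomial.eval x.vec (Q.F' i * Q.G' i) ^ μ := by
        have := x.lead_mul (μ := μ) (ν := 0) (a := b) (b := (Q.F' i * Q.G' i) ^ μ) hbI (by simp)
        rw [add_zero] at this
        rw [this, x.lead_zero, map_pow]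
      have hFord : x.ord = 1 := rfl
      have hFm : Q.F ∈ x.idl ^ 1 := hFord ▸ Q.F_mem x
      have hpow : ∀ j : ℕ, Q.F ^ j ∈ x.idl ^ j ∧ x.lead j (Q.F ^ j) = x.lead 1 Q.F ^ j := by
        intro j
        induction j with
        | zero => simp [x.lead_zero]
        | succ j ih =>
          refine ⟨?_, ?_⟩
          · rw [pow_succ, pow_succ]
            rw [pow_one] at hFm
            exact Ideal.mul_mem_mul ih.1 hFm
          · rw [pow_succ, x.lead_mul ih.1 hFm, ih.2, pow_succ]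
      have hl2 : x.lead μ (Q.F ^ μ * MvPolynomial.X 2 ^ (e + 2 * μ)) =
          x.lead 1 Q.F ^ μ * x.vec 2 ^ (e + 2 * μ) := by
        have := x.lead_mul (μ := μ) (ν := 0) (a := Q.F ^ μ)
          (b := MvPolynomial.X 2 ^ (e + 2 * μ)) (hpow μ).1 (by simp)
        rw [add_zero] at this
        rw [this, (hpow μ).2, x.lead_zero, map_pow, MvPolynomial.eval_X]
      have hne2 : x.lead μ (Q.F ^ μ * MvPolynomial.X 2 ^ (e + 2 * μ)) ≠ 0 := by
        rw [hl2]
        exact mul_ne_zero (pow_ne_zero _ hx.2) (pow_ne_zero _ hz)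
      have hne1 : x.lead μ (b * (Q.F' i * Q.G' i) ^ μ) ≠ 0 := by
        rw [hl1]
        exact mul_ne_zero hbl (pow_ne_zero _ hFGv)
      refine ⟨⟨e + 6 * μ, μ, _, _, hb.mul (hFG6.pow μ), ?_, ?_, ?_, hne2, ?_, rfl⟩,
        div_ne_zero hne1 hne2⟩
      · have h1 := (Q.hF.pow μ).mul ((MvPolynomial.isHomogeneous_X k (2 : Fin 3)).pow (e + 2 * μ))
        have h2 : 4 * μ + 1 * (e + 2 * μ) = e + 6 * μ := by ring
        rwa [h2] at h1
      · exact Ideal.mul_mem_right _ _ hbI
      · exact Ideal.mul_mem_right _ _ (hpow μ).1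
      · rw [Q.phi_dh hb, Q.phi_dh hFG6, Q.phi_dh Q.hF] at hgb
        have hF' := toFrac_ne_zero hF0
        rw [map_mul, map_mul, map_pow, map_pow, map_pow]
        rw [div_pow, div_pow, ← pow_mul, ← pow_mul] at hgb
        field_simp at hgb
        field_simp
        have e1 : toFrac (MvPolynomial.X 2 : CoordRing k) ^ (6 * μ) =
            toFrac (MvPolynomial.X 2) ^ (2 * μ) * toFrac (MvPolynomial.X 2) ^ (4 * μ) := by
          rw [← pow_add]
          congr 1
          ring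
        rw [e1] at hgb
        have hZ4 : toFrac (MvPolynomial.X 2 : CoordRing k) ^ (4 * μ) ≠ 0 := pow_ne_zero _ hZ
        apply mul_right_cancel₀ hZ4
        rw [pow_add]
        linear_combination -hgb
    have hgb_ne : MvPolynomial.eval (Q.xi ⟨x, hx⟩) gb ≠ 0 := by
      rw [HasVal.unique (Q.hasVal_phi ⟨x, hx⟩ gb) hval.1]
      exact hval.2
    refine ⟨gb * dh (Q.F' i * Q.G' i) ^ m, ?_, ga, ?_⟩
    · rw [map_mul, map_pow, Q.eval_xi_dh ⟨x, hx⟩ hFG6]
      exact mul_ne_zero hgb_ne (pow_ne_zero _ (div_ne_zero hFGv (pow_ne_zero _ hz)))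
    · rw [Q.gen_eq, map_mul, map_pow]
      have hd : toFrac (MvPolynomial.X 2 : CoordRing k) ^ (d : ℤ) =
          toFrac (MvPolynomial.X 2) ^ n / toFrac (MvPolynomial.X 2) ^ e := by
        have : (d : ℤ) = n - e := by omega
        rw [this, zpow_sub₀ hZ, zpow_natCast, zpow_natCast]
      rw [hd]
      have hA : toFrac a = Q.phi (dh a) * toFrac (MvPolynomial.X 2) ^ n := by
        rw [Q.phi_dh ha, div_mul_cancel₀ _ (pow_ne_zero _ hZ)]
      have hB : toFrac b = Q.phi (dh b) * toFrac (MvPolynomial.X 2) ^ e := by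
        rw [Q.phi_dh hb, div_mul_cancel₀ _ (pow_ne_zero _ hZ)]
      have hB0 : Q.phi (dh b) ≠ 0 := by
        intro h0
        rw [hB, h0, zero_mul] at hb'
        exact hb' rfl
      have hT0 : Q.phi (dh (Q.F' i * Q.G' i)) ≠ 0 := by
        rw [Q.phi_dh hFG6]
        exact div_ne_zero (toFrac_ne_zero hFG0) (pow_ne_zero _ hZ)
      rw [hA, hB]
      have hgb2 : Q.phi gb = Q.phi (dh b) * Q.phi (dh (Q.F' i * Q.G' i)) ^ μ /
          Q.phi (dh Q.F) ^ μ := by
        rw [hgb]
        field_simp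
      have hga2 : Q.phi ga = Q.phi (dh a) * Q.phi (dh (Q.F' i * Q.G' i)) ^ (μ + m) /
          Q.phi (dh Q.F) ^ (μ + m) := by
        rw [hga]
        field_simp
      rw [hgb2, hga2, pow_add, pow_add]
      field_simp

end Pencil

end

end

end Pool.Agent.Lib.MP_8481ed_ag
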