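import Mathlib
import Pool.Agent.Lib.MP_8481ed_ag.ChartW2

/-!
# The affine chart `G / F`: assembling the chart
-/

open scoped LinearAlgebra.Projectivization
open TopologicalSpace

universe u

namespace Pool.Agent.Lib.MP_8481ed_ag

noncomputable section

variable {k : Type u} [Field k] [IsAlgClosed k] {r : ℕ} {p : Fin r → Plane k}

namespace Pencil

variable (Q : Pencil p)

omit [IsAlgClosed k] in
lemma ker (x : Q.W) (h : MvPolynomial (Fin 3) k) (h0 : Q.phi h = 0) :
    MvPolynomial.eval (Q.xi x) h = 0 := by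
  have h1 := Q.hasVal_phi x h
  rw [h0] at h1
  have h2 := HasVal.const x.1 (0 : k)
  rw [map_zero] at h2
  exact h1.unique h2

omit [IsAlgClosed k] in
lemma pts (hF0 : Q.F ≠ 0) (z : Fin 3 → k)
    (hz : ∀ g, Q.phi g = 0 → MvPolynomial.eval z g = 0) : ∃ x : Q.W, Q.xi x = z := by
  set v : Fin 3 → k := ![z 0, z 1, 1] with hv
  have hv0 : v ≠ 0 := by
    intro h
    have := congrFun h 2
    simp [hv] at this
  have hv2 : v 2 = 1 := rfl
  have hrel : z 2 * MvPolynomial.eval v Q.F = MvPolynomial.eval v Q.G := by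
    have h1 := hz (MvPolynomial.X 2 * dh Q.F - dh Q.G) (by
      rw [map_sub, map_mul, Q.phi_X2_mul hF0, sub_self])
    rw [map_sub, map_mul, MvPolynomial.eval_X, eval_dh, eval_dh] at h1
    exact sub_eq_zero.1 h1
  set q : Plane k := Projectivization.mk k v hv0 with hq
  obtain ⟨c, hc⟩ := Projectivization.exists_smul_eq_mk_rep k v hv0
  have hc' : q.rep = (c : k) • v := hc.symm
  have hc0 : (c : k) ≠ 0 := c.ne_zero
  have hrep2 : q.rep 2 ≠ 0 := by
    rw [hc']
    simp [hv2]
  have h01 : ∀ j : Fin 3, q.rep j / q.rep 2 = v j := by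
    intro j
    rw [hc']
    simp only [Pi.smul_apply, smul_eq_mul, hv2, mul_one]
    field_simp
  by_cases hF : MvPolynomial.eval q.rep Q.F = 0
  · -- the point is one of the `p i`
    have hFv : MvPolynomial.eval v Q.F = 0 := (eval_rep_mk Q.hF v hv0).1 hF
    have hGv : MvPolynomial.eval v Q.G = 0 := by rw [← hrel, hFv, mul_zero]
    obtain ⟨i, hi⟩ := Q.hcommon q hF ((eval_rep_mk Q.hG v hv0).2 hGv)
    obtain ⟨w, hwU, hwV⟩ := Q.hdir i 1
      (z 2 * MvPolynomial.eval (p i).rep (Q.F' i) / MvPolynomial.eval (p i).rep (Q.G' i))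
    have hw : w ∉ (p i).submodule := by
      intro hw
      have h1 := Q.hUI i w hw
      have h2 : MvPolynomial.eval w (Q.U i) = 0 := h1
      rw [hwU] at h2
      exact one_ne_zero h2
    obtain ⟨α, β, hβ, hdir⟩ := LineThrough.ofDir_dir (p i) w hw
    let x : BlowUp p := .exc i (LineThrough.ofDir (p i) w hw)
    have hUrep : MvPolynomial.eval (p i).rep (Q.U i) = 0 := eval_rep_eq_zero (Q.hUI i)
    have hVrep : MvPolynomial.eval (p i).rep (Q.V i) = 0 := eval_rep_eq_zero (Q.hVI i)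
    have hleadF : x.lead x.ord Q.F = β * MvPolynomial.eval (p i).rep (Q.F' i) := by
      have hU1 : Q.U i ∈ x.idl ^ 1 := by
        rw [pow_one]
        exact Q.hUI i
      have e1 := x.lead_mul (μ := 1) (ν := 0) (a := Q.U i) (b := Q.F' i) hU1 (by simp)
      rw [add_zero, ← Q.hFU i, x.lead_zero] at e1
      change x.lead 1 Q.F = _
      rw [e1]
      have e2 : x.lead 1 (Q.U i) = β := by
        have e3 : x.lead 1 (Q.U i) = MvPolynomial.eval x.dir (Q.U i) :=
          coeff_one_linear (Q.hU i) _ _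
        have e4 : x.dir = α • (p i).rep + β • w := hdir
        rw [e3, e4, eval_linear (Q.hU i), hUrep, hwU]
        ring
      rw [e2]
      rfl
    have hleadG : x.lead x.ord Q.G = β * (z 2 * MvPolynomial.eval (p i).rep (Q.F' i)) := by
      have hV1 : Q.V i ∈ x.idl ^ 1 := by
        rw [pow_one]
        exact Q.hVI i
      have e1 := x.lead_mul (μ := 1) (ν := 0) (a := Q.V i) (b := Q.G' i) hV1 (by simp)
      rw [add_zero, ← Q.hGV i, x.lead_zero] at e1
      change x.lead 1 Q.G = _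
      rw [e1]
      have e3 : x.lead 1 (Q.V i) = MvPolynomial.eval x.dir (Q.V i) :=
        coeff_one_linear (Q.hV i) _ _
      have e4 : x.dir = α • (p i).rep + β • w := hdir
      have e5 : x.vec = (p i).rep := rfl
      rw [e3, e4, eval_linear (Q.hV i), hVrep, hwV, e5]
      have := Q.hG' i
      field_simp
      ring
    have hF'i := Q.hF' i
    refine ⟨⟨x, Q.hZ i, ?_⟩, ?_⟩
    · rw [hleadF]
      exact mul_ne_zero hβ hF'i
    · have hxv : x.vec = q.rep := by
        rw [hi]
        rfl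
      funext j
      fin_cases j
      · change x.vec 0 / x.vec 2 = z 0
        rw [hxv]
        exact h01 0
      · change x.vec 1 / x.vec 2 = z 1
        rw [hxv]
        exact h01 1
      · change x.lead x.ord Q.G / x.lead x.ord Q.F = z 2
        rw [hleadF, hleadG]
        field_simp
  · have hq' : ∀ i, q ≠ p i := by
      intro i hi
      apply hF
      rw [hi, Q.hFU i, map_mul, eval_rep_eq_zero (Q.hUI i), zero_mul]
    refine ⟨⟨.away q hq', ?_, ?_⟩, ?_⟩
    · rw [MvPolynomial.eval_X]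
      exact hrep2
    · change (BlowUp.away q hq').lead 0 Q.F ≠ 0
      rw [BlowUp.lead_zero]
      exact hF
    · funext j
      fin_cases j
      · exact h01 0
      · exact h01 1
      · change (BlowUp.away q hq').lead 0 Q.G / (BlowUp.away q hq').lead 0 Q.F = z 2
        rw [BlowUp.lead_zero, BlowUp.lead_zero]
        change MvPolynomial.eval q.rep Q.G / MvPolynomial.eval q.rep Q.F = z 2
        rw [div_eq_iff hF, hc', eval_smul_homog Q.hG, eval_smul_homog Q.hF, ← hrel]
        ring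

/-- The chart. -/
def chart (hF0 : Q.F ≠ 0) (d m : ℕ) : Chart k (Frac k) Q.W where
  xi := Q.xi
  phi := Q.phi
  M := fun x => stalk p d (fun _ => (m : ℤ)) x.1
  L := Q.L d m
  ker := Q.ker
  inv_mem := fun x h hx s hs => by
    rw [← mul_comm s, mul_comm]
    exact isRegularAt_smul ((Q.hasVal_phi x h).inv hx).isRegular hs
  smul_mem := by
    rintro g _ ⟨g', rfl⟩
    exact ⟨g * g', by rw [map_mul]; ring⟩
  denom := Q.denom d m
  le := by
    rintro x _ ⟨g, rfl⟩
    rw [mul_comm]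
    exact isRegularAt_smul (Q.hasVal_phi x g).isRegular (Q.gen_regular d m x)
  pts := Q.pts hF0

/-- Basic open subsets of the chart are a basis of its topology. -/
lemma exists_basic (x : Q.W) {V : Set (BlowUp p)} (hV : IsOpen V) (hx : x.1 ∈ V) :
    ∃ h, MvPolynomial.eval (Q.xi x) h ≠ 0 ∧
      ∀ y : Q.W, MvPolynomial.eval (Q.xi y) h ≠ 0 → y.1 ∈ V := by
  have hF0 := Q.F_ne_zero x
  induction hV with
  | basic s hs =>
    obtain ⟨g, rfl⟩ := hs
    have hz : (fun _ : Fin r => ((0 : ℕ) : ℤ)) = 0 := by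
      funext
      simp
    have hx' : IsRegularAt p ((0 : ℕ) : ℤ) (fun _ => ((0 : ℕ) : ℤ)) x.1 g := by
      rw [hz]
      exact hx
    obtain ⟨h, hh, g', hg'⟩ := Q.denom 0 0 x g hx'
    refine ⟨h, hh, fun y hy => ?_⟩
    have h1 : g = (Q.phi h)⁻¹ * (Q.gen 0 0 * Q.phi g') := by
      rw [← hg']
      have : Q.phi h ≠ 0 := fun h0 => hh (Q.ker x h h0)
      field_simp
    have h2 := (Q.chart hF0 0 0).inv_mem y h hy (Q.gen 0 0 * Q.phi g')
      ((Q.chart hF0 0 0).le y ⟨g', rfl⟩)
    have h3 : (Q.phi h)⁻¹ * (Q.gen 0 0 * Q.phi g') ∈ stalk p (0 : ℕ) (fun _ => ((0 : ℕ) : ℤ)) y.1 := h2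
    rw [← h1, hz] at h3
    exact h3
  | univ => exact ⟨1, by simp, fun _ _ => trivial⟩
  | inter s t _ _ ih1 ih2 =>
    obtain ⟨h1, hh1, hs1⟩ := ih1 hx.1
    obtain ⟨h2, hh2, hs2⟩ := ih2 hx.2
    refine ⟨h1 * h2, ?_, fun y hy => ?_⟩
    · rw [map_mul]
      exact mul_ne_zero hh1 hh2
    · rw [map_mul] at hy
      exact ⟨hs1 y (left_ne_zero_of_mul hy), hs2 y (right_ne_zero_of_mul hy)⟩
  | sUnion S _ ih =>
    obtain ⟨s, hs, hxs⟩ := hx
    obtain ⟨h, hh, hs'⟩ := ih s hs hxs
    exact ⟨h, hh, fun y hy => ⟨s, hs, hs' y hy⟩⟩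

end Pencil

end

end Pool.Agent.Lib.MP_8481ed_ag
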