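import Mathlib

/-!
# Some facts about polynomials in three variables
-/

universe u

namespace Pool.Agent.Lib.MP_8481ed_ag

open MvPolynomial

variable {k : Type u} [Field k]

/-- Homogeneous components of a product with a homogeneous polynomial. -/
lemma hc_mul {b : MvPolynomial (Fin 3) k} {e : ℕ} (hb : b.IsHomogeneous e) (n : ℕ)
    (A : MvPolynomial (Fin 3) k) :
    homogeneousComponent (n + e) (A * b) = homogeneousComponent n A * b := by
  conv_lhs => rw [← sum_homogeneousComponent A]
  rw [Finset.sum_mul, map_sum]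
  have h1 : ∀ i, homogeneousComponent (n + e) (homogeneousComponent i A * b) =
      if i = n then homogeneousComponent i A * b else 0 := by
    intro i
    have h2 : homogeneousComponent i A * b ∈ homogeneousSubmodule (Fin 3) k (i + e) :=
      (homogeneousComponent_isHomogeneous i A).mul hb
    rw [homogeneousComponent_of_mem h2]
    by_cases h : i = n
    · simp [h]
    · rw [if_neg (by omega), if_neg h]
  rw [Finset.sum_congr rfl fun i _ => h1 i, Finset.sum_ite_eq' ]
  split_ifs with h
  · rfl
  · rw [Finset.mem_range, not_lt] at h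
    rw [homogeneousComponent_eq_zero n A (by omega), zero_mul]

lemma hc_mul_of_lt {b : MvPolynomial (Fin 3) k} {e : ℕ} (hb : b.IsHomogeneous e) {n : ℕ}
    (hn : n < e) (A : MvPolynomial (Fin 3) k) : homogeneousComponent n (A * b) = 0 := by
  conv_lhs => rw [← sum_homogeneousComponent A]
  rw [Finset.sum_mul, map_sum]
  refine Finset.sum_eq_zero fun i _ => ?_
  have h2 : homogeneousComponent i A * b ∈ homogeneousSubmodule (Fin 3) k (i + e) :=
    (homogeneousComponent_isHomogeneous i A).mul hb
  rw [homogeneousComponent_of_mem h2, if_neg (by omega)]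

/-- If `A * b` and `b ≠ 0` are homogeneous then `A` is homogeneous. -/
lemma isHomogeneous_of_mul {A b : MvPolynomial (Fin 3) k} {e n : ℕ} (hb : b.IsHomogeneous e)
    (hb0 : b ≠ 0) (hAb : (A * b).IsHomogeneous (n + e)) : A.IsHomogeneous n := by
  have h1 : homogeneousComponent n A * b = A * b := by
    rw [← hc_mul hb, homogeneousComponent_eq_self hAb]
  have h2 : homogeneousComponent n A = A := mul_right_cancel₀ hb0 h1
  rw [← h2]
  exact homogeneousComponent_isHomogeneous n A

/-- The substitution `Xᵢ ↦ a X₂`. -/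
noncomputable def subst (i : Fin 3) (a : k) : MvPolynomial (Fin 3) k →ₐ[k] MvPolynomial (Fin 3) k :=
  aeval (fun j => if j = i then C a * X 2 else X j)

lemma sub_dvd_sub_subst (i : Fin 3) (a : k) (P : MvPolynomial (Fin 3) k) :
    (X i - C a * X 2) ∣ P - subst i a P := by
  induction P using MvPolynomial.induction_on with
  | C c => simp [subst]
  | add p q hp hq =>
    have := dvd_add hp hq
    rw [map_add]
    convert! this using 1
    ring
  | mul_X p j hp =>
    have hX : (X i - C a * X 2 : MvPolynomial (Fin 3) k) ∣ X j - subst i a (X j) := by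
      by_cases h : j = i
      · subst h
        simp [subst]
      · simp [subst, h]
    rw [map_mul]
    have : p * X j - subst i a p * subst i a (X j) =
      (p - subst i a p) * X j + subst i a p * (X j - subst i a (X j)) := by ring
    rw [this]
    exact dvd_add (hp.mul_right _) (hX.mul_left _)

lemma sub_dvd_iff (i : Fin 3) (a : k) (P : MvPolynomial (Fin 3) k) (hi : i ≠ 2) :
    (X i - C a * X 2) ∣ P ↔ subst i a P = 0 := by
  have hself : subst i a (X i - C a * X 2 : MvPolynomial (Fin 3) k) = 0 := by
    simp [subst, hi.symm]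
  constructor
  · rintro ⟨Q, rfl⟩
    rw [map_mul, hself, zero_mul]
  · intro h
    have key := sub_dvd_sub_subst i a P
    rwa [h, sub_zero] at key

lemma sub_ne_zero' (i : Fin 3) (a : k) (hi : i ≠ 2) :
    (X i - C a * X 2 : MvPolynomial (Fin 3) k) ≠ 0 := by
  intro h
  have := congrArg (eval (Pi.single i (1 : k))) h
  simp [hi.symm] at this

lemma prime_sub (i : Fin 3) (a : k) (hi : i ≠ 2) :
    Prime (X i - C a * X 2 : MvPolynomial (Fin 3) k) := by
  refine ⟨sub_ne_zero' i a hi, ?_, ?_⟩
  · intro hu
    have := (sub_dvd_iff i a 1 hi).1 hu.dvd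
    rw [map_one] at this
    exact one_ne_zero this
  · intro P Q h
    rw [sub_dvd_iff i a _ hi, map_mul, mul_eq_zero] at h
    rwa [sub_dvd_iff i a _ hi, sub_dvd_iff i a _ hi]

/-- `F = ∏ (Xᵢ - a_j X₂)`. -/
noncomputable def lineProd (i : Fin 3) (a : Fin 4 → k) : MvPolynomial (Fin 3) k :=
  ∏ j, (X i - C (a j) * X 2)

lemma lineProd_homog (i : Fin 3) (a : Fin 4 → k) : (lineProd i a).IsHomogeneous 4 := by
  have h : ∀ j ∈ (Finset.univ : Finset (Fin 4)), (X i - C (a j) * X 2 : MvPolynomial (Fin 3) k).IsHomogeneous 1 := by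
    intro j _
    refine (isHomogeneous_X k i).sub ?_
    have := (isHomogeneous_C (Fin 3) (a j)).mul (isHomogeneous_X k 2)
    rwa [zero_add] at this
  have := IsHomogeneous.prod Finset.univ _ (fun _ => 1) h
  simpa [lineProd] using this

lemma lineProd_isRelPrime (a : Fin 4 → k) (N : ℕ) :
    IsRelPrime (lineProd 0 a ^ N) (lineProd 1 a ^ N) := by
  apply IsRelPrime.pow
  apply IsRelPrime.prod_left
  intro j _
  apply IsRelPrime.prod_right
  intro j' _
  have hp := prime_sub 0 (a j) (by decide : (0 : Fin 3) ≠ 2)
  rw [hp.irreducible.isRelPrime_iff_not_dvd, sub_dvd_iff 0 _ _ (by decide)]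
  intro h
  have := congrArg (eval (Pi.single 1 (1 : k))) h
  simp [subst] at this

end Pool.Agent.Lib.MP_8481ed_ag
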