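import Mathlib
import Pool.Agent.Lib.MP_8481ed_ag.Sheaf
import Pool.Agent.Lib.MP_8481ed_ag.Poly

/-!
# The 16 points of a `4 × 4` grid
-/

open CategoryTheory TopologicalSpace Opposite
open scoped LinearAlgebra.Projectivization

universe u

namespace Pool.Agent.Lib.MP_8481ed_ag

noncomputable section

variable {k : Type u} [Field k]

/-- the vector `(x, y, 1)` -/
def affVec (x y : k) : Fin 3 → k := ![x, y, 1]

lemma affVec_ne_zero (x y : k) : affVec x y ≠ 0 := by
  intro h
  have := congrFun h 2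
  simp [affVec] at this

/-- the point `[x : y : 1]` -/
def affPt (x y : k) : Plane k := Projectivization.mk k (affVec x y) (affVec_ne_zero x y)

/-- the index equivalence -/
def idx : Fin 16 ≃ Fin 4 × Fin 4 := (finProdFinEquiv (m := 4) (n := 4)).symm

/-- The 16 points `[a i : a j : 1]`. -/
def grid (a : Fin 4 → k) (n : Fin 16) : Plane k := affPt (a (idx n).1) (a (idx n).2)

lemma affPt_injective {x y x' y' : k} (h : affPt x y = affPt x' y') : x = x' ∧ y = y' := by
  rw [affPt, affPt, Projectivization.mk_eq_mk_iff'] at h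
  obtain ⟨c, hc⟩ := h
  have h2 := congrFun hc 2
  have h0 := congrFun hc 0
  have h1 := congrFun hc 1
  simp [affVec] at h0 h1 h2
  subst h2
  simp at h0 h1
  exact ⟨h0.symm, h1.symm⟩

lemma grid_injective {a : Fin 4 → k} (ha : Function.Injective a) :
    Function.Injective (grid a) := by
  intro n n' h
  obtain ⟨h1, h2⟩ := affPt_injective h
  apply idx.injective
  exact Prod.ext (ha h1) (ha h2)

lemma exists_rep (x y : k) : ∃ c : k, c ≠ 0 ∧ (affPt x y).rep = c • affVec x y := by
  obtain ⟨c, hc⟩ := Projectivization.exists_smul_eq_mk_rep k (affVec x y) (affVec_ne_zero x y)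
  exact ⟨c, c.ne_zero, hc.symm⟩

/-- Linear relations among the values at the grid of polynomials of degree at most five. -/
lemma exists_weights (a : Fin 4 → k) : ∃ c : Fin 4 → k, c ≠ 0 ∧
    ∀ s : ℕ, s ≤ 2 → ∑ i, c i * a i ^ s = 0 := by
  let M : Matrix (Fin 3) (Fin 4) k := fun s i => a i ^ (s : ℕ)
  have hker : LinearMap.ker M.mulVecLin ≠ ⊥ := by
    apply LinearMap.ker_ne_bot_of_finrank_lt
    simp
  obtain ⟨c, hc, hc0⟩ := (Submodule.ne_bot_iff _).1 hker
  refine ⟨c, hc0, fun s hs => ?_⟩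
  have h1 := congrFun (LinearMap.mem_ker.1 hc) ⟨s, by omega⟩
  simp only [M, Pi.zero_apply] at h1
  rw [← h1]
  exact Finset.sum_congr rfl fun i _ => mul_comm _ _

/-- The weights kill all forms of degree five. -/
lemma weights_form {a c : Fin 4 → k} (hc : ∀ s : ℕ, s ≤ 2 → ∑ i, c i * a i ^ s = 0)
    {A : CoordRing k} (hA : A.IsHomogeneous 5) :
    ∑ n : Fin 16, c (idx n).1 * c (idx n).2 *
      MvPolynomial.eval (affVec (a (idx n).1) (a (idx n).2)) A = 0 := by
  rw [Equiv.sum_comp idx (fun ij : Fin 4 × Fin 4 => c ij.1 * c ij.2 *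
      MvPolynomial.eval (affVec (a ij.1) (a ij.2)) A)]
  simp only [MvPolynomial.eval_eq, Finset.mul_sum]
  rw [Finset.sum_comm]
  refine Finset.sum_eq_zero fun d hd => ?_
  have hdeg : d 0 + d 1 + d 2 = 5 := by
    have h1 := hA (MvPolynomial.mem_support_iff.1 hd)
    rw [Finsupp.weight_apply, Finsupp.sum_fintype] at h1
    · simpa [Fin.sum_univ_three] using h1
    · simp
  have h2 : ∀ ij : Fin 4 × Fin 4, c ij.1 * c ij.2 * (MvPolynomial.coeff d A *
      ∏ i ∈ d.support, affVec (a ij.1) (a ij.2) i ^ d i) =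
      MvPolynomial.coeff d A * ((c ij.1 * a ij.1 ^ d 0) * (c ij.2 * a ij.2 ^ d 1)) := by
    intro ij
    have h3 : ∏ i ∈ d.support, affVec (a ij.1) (a ij.2) i ^ d i = a ij.1 ^ d 0 * a ij.2 ^ d 1 := by
      rw [Finset.prod_subset (Finset.subset_univ _)]
      · simp [Fin.prod_univ_three, affVec]
      · intro i _ hi
        rw [Finsupp.notMem_support_iff.1 hi, pow_zero]
    rw [h3]
    ring
  rw [Finset.sum_congr rfl fun ij _ => h2 ij, ← Finset.mul_sum, Fintype.sum_prod_type]
  simp only [← Finset.mul_sum, ← Finset.sum_mul]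
  rcases Nat.lt_or_ge 2 (d 0) with h | h
  · rw [hc (d 1) (by omega)]
    ring
  · rw [hc (d 0) h]
    ring

/-- `F = ∏ (X₀ - a_j X₂)` and `G = ∏ (X₁ - a_j X₂)` vanish at the grid. -/
lemma lineProd_zero_grid (a : Fin 4 → k) (n : Fin 16) :
    MvPolynomial.eval (affVec (a (idx n).1) (a (idx n).2)) (lineProd 0 a) = 0 := by
  rw [lineProd, map_prod]
  exact Finset.prod_eq_zero (Finset.mem_univ (idx n).1) (by simp [affVec])

lemma lineProd_one_grid (a : Fin 4 → k) (n : Fin 16) :
    MvPolynomial.eval (affVec (a (idx n).1) (a (idx n).2)) (lineProd 1 a) = 0 := by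
  rw [lineProd, map_prod]
  exact Finset.prod_eq_zero (Finset.mem_univ (idx n).2) (by simp [affVec])

lemma eval_grid_rep {a : Fin 4 → k} {A : CoordRing k} {d : ℕ} (hA : A.IsHomogeneous d)
    (n : Fin 16) : MvPolynomial.eval (grid a n).rep A = 0 ↔
      MvPolynomial.eval (affVec (a (idx n).1) (a (idx n).2)) A = 0 :=
  eval_rep_mk hA _ _

/-- A rational section of `𝒪(d)` regular away from the grid is a form of degree `d`. -/
lemma exists_form_of_regular [IsAlgClosed k] (a : Fin 4 → k) (d : ℕ) (m : Fin 16 → ℤ) (f : Frac k)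
    (hf : ∀ q hq, IsRegularAt (grid a) d m (.away q hq) f) :
    ∃ A : CoordRing k, A.IsHomogeneous d ∧ f = toFrac A := by
  let J : Ideal (CoordRing k) :=
    { carrier := {h | ∃ A, toFrac h * f = toFrac A}
      zero_mem' := ⟨0, by simp⟩
      add_mem' := by
        rintro x y ⟨A, hA⟩ ⟨B, hB⟩
        exact ⟨A + B, by rw [map_add, map_add, add_mul, hA, hB]⟩
      smul_mem' := by
        rintro c x ⟨A, hA⟩
        exact ⟨c * A, by rw [smul_eq_mul, map_mul, map_mul, mul_assoc, hA]⟩ }
  have key : ∀ (H : CoordRing k) (n : ℕ), H.IsHomogeneous n →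
      (∀ i, MvPolynomial.eval (affVec (a (idx i).1) (a (idx i).2)) H = 0) → 0 < n →
      H ∈ J.radical := by
    intro H n hH hHgrid hn
    rw [← MvPolynomial.vanishingIdeal_zeroLocus_eq_radical (K := k)]
    intro v hv
    by_contra hne
    have hne' : MvPolynomial.eval v H ≠ 0 := hne
    have hv0 : v ≠ 0 := by
      rintro rfl
      apply hne'
      have := eval_smul_homog hH 0 (0 : Fin 3 → k)
      rw [zero_pow hn.ne', zero_mul, smul_zero] at this
      exact this
    let q : Plane k := Projectivization.mk k v hv0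
    have hq : ∀ i, q ≠ grid a i := by
      intro i hi
      have h1 := (eval_grid_rep hH i).2 (hHgrid i)
      rw [← hi, eval_rep_mk hH v hv0] at h1
      exact hne' h1
    obtain ⟨n', e, A, B, hA, hB, hn', hBq, hfAB⟩ := (isRegularAt_away_iff _ _ _ _ _).1 (hf q hq)
    have hBv : MvPolynomial.eval v B ≠ 0 := fun h0 => hBq ((eval_rep_mk hB v hv0).2 h0)
    have hB0 : B ≠ 0 := by
      rintro rfl
      simp at hBv
    have hBJ : B ∈ J := ⟨A, by
      rw [hfAB]
      exact mul_div_cancel₀ _ (toFrac_ne_zero hB0)⟩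
    exact hBv (hv B hBJ)
  obtain ⟨N, A₁, hN⟩ := key _ 4 (lineProd_homog 0 a) (lineProd_zero_grid a) (by norm_num)
  obtain ⟨M, B₁, hM⟩ := key _ 4 (lineProd_homog 1 a) (lineProd_one_grid a) (by norm_num)
  have hF0 : (lineProd 0 a : CoordRing k) ≠ 0 :=
    Finset.prod_ne_zero_iff.2 fun j _ => sub_ne_zero' 0 _ (by decide)
  have hG0 : (lineProd 1 a : CoordRing k) ≠ 0 :=
    Finset.prod_ne_zero_iff.2 fun j _ => sub_ne_zero' 1 _ (by decide)
  have hdvd : lineProd 0 a ^ N ∣ A₁ * lineProd 1 a ^ M := by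
    refine ⟨B₁, ?_⟩
    apply toFrac_injective
    rw [map_mul, map_mul, ← hN, ← hM]
    ring
  have hrel : IsRelPrime (lineProd 0 a ^ N) (lineProd 1 a ^ M) :=
    IsRelPrime.pow (by simpa using lineProd_isRelPrime a 1)
  obtain ⟨A, hA⟩ := hrel.dvd_of_dvd_mul_right hdvd
  have hfA : f = toFrac A := by
    rw [hA, map_mul] at hN
    exact mul_left_cancel₀ (toFrac_ne_zero (pow_ne_zero N hF0)) hN
  refine ⟨A, ?_, hfA⟩
  obtain ⟨q, hq, -⟩ := exists_away (p := grid a) (one_ne_zero (α := CoordRing k))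
    (MvPolynomial.isHomogeneous_one _ _)
  obtain ⟨n', e, A', B', hA', hB', hn', hBq, hfAB⟩ := (isRegularAt_away_iff _ _ _ _ _).1 (hf q hq)
  have hB0 : B' ≠ 0 := by
    rintro rfl
    simp at hBq
  apply isHomogeneous_of_mul hB' hB0
  have h1 : A * B' = A' := by
    apply toFrac_injective
    rw [map_mul, ← hfA, hfAB]
    exact div_mul_cancel₀ _ (toFrac_ne_zero hB0)
  rw [h1]
  have : n' = d + e := by omega
  rwa [this] at hA'

end

end Pool.Agent.Lib.MP_8481ed_ag
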