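import Mathlib
import Pool.Agent.Lib.MP_8481ed_ag.Grid

/-!
# `H¹(X, 5H - ∑ Eᵢ) ≠ 0` and `H⁰(X, 5H - ∑ Eᵢ) ≠ 0` for the `4 × 4` grid
-/

open CategoryTheory TopologicalSpace Opposite
open scoped LinearAlgebra.Projectivization

universe u

namespace Pool.Agent.Lib.MP_8481ed_ag

noncomputable section

variable {k : Type u} [Field k] [IsAlgClosed k]

omit [IsAlgClosed k] in
/-- A form of degree `d` is a regular section of `𝒪(d)` outside the exceptional curves. -/
lemma isRegularAt_form_away {r : ℕ} {p : Fin r → Plane k} {A : CoordRing k} {d : ℕ}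
    (hA : A.IsHomogeneous d) (m : Fin r → ℤ) (q : Plane k) (hq : ∀ i, q ≠ p i) :
    IsRegularAt p d m (.away q hq) (toFrac A) :=
  ⟨d, 0, A, 1, hA, MvPolynomial.isHomogeneous_one _ _, by simp, by simp, by simp⟩

/-- A form of degree `d` with the right multiplicities is a regular section at every point. -/
lemma isRegularAt_form {r : ℕ} {p : Fin r → Plane k} {A : CoordRing k} {d : ℕ}
    (hA : A.IsHomogeneous d) (m : ℕ) (hm : ∀ i, A ∈ pointIdeal (p i) ^ m) (x : BlowUp p) :
    IsRegularAt p d (fun _ => (m : ℤ)) x (toFrac A) := by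
  rw [isRegularAt_iff]
  refine ⟨d, 0, 0, A, 1, hA, MvPolynomial.isHomogeneous_one _ _, by simp, ?_, by simp, ?_, by simp⟩
  · cases x with
    | away q hq => simp [BlowUp.mlt]
    | exc i L => simpa [BlowUp.mlt, BlowUp.idl] using hm i
  · rw [BlowUp.lead_zero, map_one]
    exact one_ne_zero

omit [IsAlgClosed k] in
/-- membership in the ideal of a point can be tested on forms by evaluation -/
lemma mem_pointIdeal_of_homog {A : CoordRing k} {d : ℕ} (hA : A.IsHomogeneous d)
    (P : Plane k) (h : MvPolynomial.eval P.rep A = 0) : A ∈ pointIdeal P := by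
  intro v hv
  have hv' : v ∈ P.submodule := hv
  rw [Projectivization.submodule_eq, Submodule.mem_span_singleton] at hv'
  obtain ⟨c, rfl⟩ := hv'
  have := eval_smul_homog hA c P.rep
  rw [h, mul_zero] at this
  exact this

omit [IsAlgClosed k] in
lemma lineProd_mem_pointIdeal_zero (a : Fin 4 → k) (n : Fin 16) :
    lineProd 0 a ∈ pointIdeal (grid a n) :=
  mem_pointIdeal_of_homog (lineProd_homog 0 a) _
    ((eval_grid_rep (lineProd_homog 0 a) n).2 (lineProd_zero_grid a n))

omit [IsAlgClosed k] in
lemma lineProd_mem_pointIdeal_one (a : Fin 4 → k) (n : Fin 16) :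
    lineProd 1 a ∈ pointIdeal (grid a n) :=
  mem_pointIdeal_of_homog (lineProd_homog 1 a) _
    ((eval_grid_rep (lineProd_homog 1 a) n).2 (lineProd_one_grid a n))

theorem nontrivial_H0 (a : Fin 4 → k) :
    Nontrivial (H (grid a) 5 (fun _ => 1) 0) := by
  refine (nontrivial_cohomology_zero_iff (stalk (grid a) 5 (fun _ => 1))).2 ?_
  have hF0 : (lineProd 0 a : CoordRing k) ≠ 0 :=
    Finset.prod_ne_zero_iff.2 fun j _ => sub_ne_zero' 0 _ (by decide)
  refine ⟨toFrac (lineProd 0 a * MvPolynomial.X 0),
    toFrac_ne_zero (mul_ne_zero hF0 (MvPolynomial.X_ne_zero 0)), fun x => ?_⟩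
  have h := isRegularAt_form (p := grid a) ((lineProd_homog 0 a).mul (MvPolynomial.isHomogeneous_X k 0)) 1
    (fun i => by
      rw [pow_one]
      exact Ideal.mul_mem_right _ _ (lineProd_mem_pointIdeal_zero a i)) x
  rw [mem_stalk_iff]
  simpa using h

/-- Values of a form at a grid point are detected by the stalk of `𝒪_X(dH - ∑ Eᵢ)`. -/
lemma eval_eq_zero_of_regular {r : ℕ} {p : Fin r → Plane k} {A : CoordRing k} {d : ℤ}
    (i : Fin r) (L : LineThrough (p i))
    (h : IsRegularAt p d (fun _ => 1) (.exc i L) (toFrac A)) :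
    MvPolynomial.eval (p i).rep A = 0 := by
  rw [isRegularAt_iff] at h
  obtain ⟨n, e, μ, a, b, ha, hb, hn, haI, hbI, hbl, hab⟩ := h
  set x : BlowUp p := .exc i L with hx
  have h1 : A * b = a := by
    apply toFrac_injective
    rw [map_mul, hab]
    exact div_mul_cancel₀ _ (toFrac_ne_zero (x.ne_zero_of_lead hbl))
  have h2 : x.lead (0 + μ) (A * b) = 0 := by
    rw [h1]
    apply x.lead_of_lt (ν := ((μ : ℤ) + x.mlt fun _ => 1).toNat) _ haI
    simp [hx, BlowUp.mlt]
  rw [x.lead_mul (by simp) hbI, x.lead_zero] at h2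
  exact (mul_eq_zero.1 h2).resolve_right hbl

omit [IsAlgClosed k] in
lemma exists_lineThrough (P : Plane k) : Nonempty (LineThrough P) := by
  have : ∃ w, w ∉ P.submodule := by
    by_contra h
    push Not at h
    have h1 : P.submodule = ⊤ := by
      rw [eq_top_iff]
      intro w _
      exact h w
    have h2 := P.finrank_submodule
    rw [h1, finrank_top, Module.finrank_fin_fun] at h2
    omega
  obtain ⟨w, hw⟩ := this
  exact ⟨LineThrough.ofDir P w hw⟩

theorem nontrivial_H1 {a : Fin 4 → k} (ha : Function.Injective a) :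
    Nontrivial (H (grid a) 5 (fun _ => 1) 1) := by
  classical
  rw [← not_subsingleton_iff_nontrivial]
  intro hsub
  have hcousin := (subsingleton_cohomology_one_iff (stalk (grid a) 5 (fun _ => 1))).1 hsub
  obtain ⟨c, hc0, hc⟩ := exists_weights a
  obtain ⟨i₀, hi₀⟩ := Function.ne_iff.1 hc0
  let n₀ : Fin 16 := idx.symm (i₀, i₀)
  -- the Cousin datum: `X₂ ^ 5` on the exceptional curve over the point `n₀`, zero elsewhere
  let dat : BlowUp (grid a) → Frac k := fun x => match x with
    | .away _ _ => 0
    | .exc n _ => if n = n₀ then toFrac (MvPolynomial.X 2 ^ 5) else 0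
  have hX5 : (MvPolynomial.X 2 ^ 5 : CoordRing k).IsHomogeneous 5 := by
    have := (MvPolynomial.isHomogeneous_X k (2 : Fin 3)).pow 5
    rwa [one_mul] at this
  obtain ⟨f, hf⟩ := hcousin dat (by
    intro x
    change BlowUp (grid a) at x
    by_cases hx : ∃ L, x = .exc n₀ L
    · obtain ⟨L, rfl⟩ := hx
      refine ⟨⟨⋂ n ∈ {n : Fin 16 | n ≠ n₀}, {x : BlowUp (grid a) | x.center ≠ grid a n}, ?_⟩,
        ?_, ?_⟩
      · exact Set.Finite.isOpen_biInter (Set.toFinite _) fun n _ => isOpen_center_ne _
      · change (BlowUp.exc n₀ L) ∈ ⋂ n ∈ {n : Fin 16 | n ≠ n₀}, _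
        simp only [Set.mem_iInter]
        intro n hn h
        exact hn (grid_injective ha h.symm)
      · intro y hy
        change y ∈ ⋂ n ∈ {n : Fin 16 | n ≠ n₀}, {x : BlowUp (grid a) | x.center ≠ grid a n} at hy
        simp only [Set.mem_iInter] at hy
        change BlowUp (grid a) at y
        cases y with
        | away q hq =>
          have e1 : dat (.away q hq) - dat (.exc n₀ L) = - toFrac (MvPolynomial.X 2 ^ 5) := by
            simp [dat]
          rw [e1]
          exact AddSubgroup.neg_mem _ (isRegularAt_form_away hX5 (fun _ => 1) q hq)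
        | exc n L' =>
          have hn : n = n₀ := by
            by_contra hne
            exact hy n hne rfl
          have e1 : dat (.exc n L') - dat (.exc n₀ L) = 0 := by simp [dat, hn]
          rw [e1]
          exact AddSubgroup.zero_mem _
    · have hdat : ∀ y : BlowUp (grid a), y.center ≠ grid a n₀ → dat y = 0 := by
        intro y hy
        cases y with
        | away q hq => rfl
        | exc n L =>
          have hn : n ≠ n₀ := by
            rintro rfl
            exact hy rfl
          simp [dat, hn]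
      have hxc : x.center ≠ grid a n₀ := by
        cases x with
        | away q hq => exact hq n₀
        | exc n L =>
          intro h
          have : n = n₀ := grid_injective ha h
          subst this
          exact hx ⟨L, rfl⟩
      refine ⟨⟨{x : BlowUp (grid a) | x.center ≠ grid a n₀}, isOpen_center_ne _⟩, hxc, ?_⟩
      intro y hy
      rw [hdat y hy, hdat x hxc, sub_zero]
      exact AddSubgroup.zero_mem _)
  -- a solution is a form of degree five
  obtain ⟨A, hA, hfA⟩ := exists_form_of_regular a 5 (fun _ => 1) f (fun q hq => by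
    have h := hf (.away q hq)
    have e1 : dat (.away q hq) = 0 := rfl
    rw [e1, sub_zero] at h
    exact h)
  -- it vanishes at the grid points other than `n₀`
  have hval : ∀ n : Fin 16, n ≠ n₀ →
      MvPolynomial.eval (affVec (a (idx n).1) (a (idx n).2)) A = 0 := by
    intro n hn
    obtain ⟨L⟩ := exists_lineThrough (grid a n)
    have h := hf (.exc n L)
    have e1 : dat (.exc n L) = 0 := by simp [dat, hn]
    rw [e1, sub_zero, hfA] at h
    exact (eval_grid_rep hA n).1 (eval_eq_zero_of_regular n L h)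
  have hval0 : MvPolynomial.eval (affVec (a (idx n₀).1) (a (idx n₀).2)) A = 1 := by
    obtain ⟨L⟩ := exists_lineThrough (grid a n₀)
    have h := hf (.exc n₀ L)
    have e1 : dat (.exc n₀ L) = toFrac (MvPolynomial.X 2 ^ 5) := by simp [dat]
    rw [e1, hfA, ← map_sub] at h
    have h1 := (eval_grid_rep (hA.sub hX5) n₀).1 (eval_eq_zero_of_regular n₀ L h)
    simp only [map_sub, map_pow, MvPolynomial.eval_X] at h1
    have h2 : affVec (a (idx n₀).1) (a (idx n₀).2) 2 = 1 := rfl
    rw [h2, one_pow] at h1
    exact sub_eq_zero.1 h1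
  have hsum := weights_form hc hA
  rw [Finset.sum_eq_single n₀ (fun n _ hn => by rw [hval n hn, mul_zero])
    (fun h => absurd (Finset.mem_univ _) h), hval0, mul_one] at hsum
  have hn₀ : idx n₀ = (i₀, i₀) := idx.apply_symm_apply _
  rw [hn₀] at hsum
  exact hi₀ (mul_self_eq_zero.1 hsum)

end

end Pool.Agent.Lib.MP_8481ed_ag
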