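import Mathlib
import Pool.Agent.Lib.MP_8481ed_ag.ChartW3
import Pool.Agent.Lib.MP_8481ed_ag.NonVan

/-!
# Solving the Cousin problem over the affine plane
-/

open scoped LinearAlgebra.Projectivization
open TopologicalSpace

universe u

namespace Pool.Agent.Lib.MP_8481ed_ag

noncomputable section

variable {k : Type u} [Field k] {r : ℕ} {p : Fin r → Plane k}

/-- setting the last variable to zero -/
def kill2 : MvPolynomial (Fin 3) k →+* MvPolynomial (Fin 3) k :=
  MvPolynomial.eval₂Hom MvPolynomial.C ![MvPolynomial.X 0, MvPolynomial.X 1, 0]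

lemma exists_kill2 (g : MvPolynomial (Fin 3) k) : ∃ g₁, g = kill2 g + MvPolynomial.X 2 * g₁ := by
  induction g using MvPolynomial.induction_on with
  | C c => exact ⟨0, by simp [kill2]⟩
  | add f g hf hg =>
    obtain ⟨f₁, hf⟩ := hf
    obtain ⟨g₁, hg⟩ := hg
    refine ⟨f₁ + g₁, ?_⟩
    rw [map_add]
    linear_combination hf + hg
  | mul_X f j hf =>
    obtain ⟨f₁, hf⟩ := hf
    by_cases hj : j = 2
    · subst hj
      refine ⟨f, ?_⟩
      simp [kill2, mul_comm]
    · refine ⟨f₁ * MvPolynomial.X j, ?_⟩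
      have : kill2 (MvPolynomial.X j : MvPolynomial (Fin 3) k) = MvPolynomial.X j := by
        fin_cases j
        · simp [kill2]
        · simp [kill2]
        · exact absurd rfl hj
      rw [map_mul, this]
      linear_combination (MvPolynomial.X j) * hf

namespace Pencil

variable (Q : Pencil p)

lemma phi_kill2 (g : MvPolynomial (Fin 3) k) : Q.swap.phi (kill2 g) = Q.phi (kill2 g) := by
  have : Q.swap.phi.comp kill2 = Q.phi.comp kill2 := by
    apply MvPolynomial.ringHom_ext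
    · intro c
      simp [kill2, phi]
    · intro i
      fin_cases i <;> simp [kill2, phi]
  exact congrArg (fun f : MvPolynomial (Fin 3) k →+* Frac k => f g) this

/-- The key decomposition of sections over the intersection of the two charts. -/
lemma decompose (hF0 : Q.F ≠ 0) (hG0 : Q.G ≠ 0) (d m : ℕ) (N : ℕ) :
    ∀ g : MvPolynomial (Fin 3) k, ∃ s₁ ∈ Q.L d m, ∃ s₂ ∈ Q.swap.L d m,
      Q.gen d m * Q.phi g * (toFrac Q.F / toFrac Q.G) ^ N = s₁ + s₂ := by
  have hF := toFrac_ne_zero hF0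
  have hG := toFrac_ne_zero hG0
  have hX2 : Q.phi (MvPolynomial.X 2) = toFrac Q.G / toFrac Q.F := by simp [phi]
  have hX2' : Q.swap.phi (MvPolynomial.X 2) = toFrac Q.F / toFrac Q.G := by simp [phi, swap]
  induction N with
  | zero =>
    intro g
    exact ⟨_, ⟨g, rfl⟩, 0, AddSubgroup.zero_mem _, by simp⟩
  | succ N ih =>
    intro g
    obtain ⟨g₁, hg₁⟩ := exists_kill2 g
    obtain ⟨s₁, hs₁, s₂, hs₂, h⟩ := ih g₁
    refine ⟨s₁, hs₁, s₂ + Q.swap.gen d m *
      Q.swap.phi (MvPolynomial.X 2 ^ (m + (N + 1)) * kill2 g),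
      AddSubgroup.add_mem _ hs₂ ⟨_, rfl⟩, ?_⟩
    rw [← add_assoc, ← h, map_mul, map_pow, Q.phi_kill2, hX2']
    have hg2 : Q.phi g = Q.phi (kill2 g) + toFrac Q.G / toFrac Q.F * Q.phi g₁ := by
      conv_lhs => rw [hg₁]
      rw [map_add, map_mul, hX2]
    rw [hg2, gen, gen]
    change _ = _ + toFrac (MvPolynomial.X 2) ^ ((d : ℤ) - 4 * m) * toFrac Q.G ^ m *
      ((toFrac Q.F / toFrac Q.G) ^ (m + (N + 1)) * Q.phi (kill2 g))
    have e1 : toFrac Q.G ^ m * (toFrac Q.F / toFrac Q.G) ^ m = toFrac Q.F ^ m := by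
      rw [← mul_pow, mul_div_cancel₀ _ hG]
    have e2 : toFrac Q.G / toFrac Q.F * (toFrac Q.F / toFrac Q.G) = 1 := by field_simp
    rw [pow_add _ m (N + 1), pow_succ _ N, ← e1]
    linear_combination (toFrac (MvPolynomial.X 2) ^ ((d : ℤ) - 4 * m) * (toFrac Q.G ^ m *
      (toFrac Q.F / toFrac Q.G) ^ m) * Q.phi g₁ * (toFrac Q.F / toFrac Q.G) ^ N) * e2

variable [IsAlgClosed k]

omit [IsAlgClosed k] in
lemma exists_linear_dir (P : Plane k) (w : Fin 3 → k) (hw : w ∉ P.submodule) :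
    ∃ l ∈ pointIdeal P, MvPolynomial.eval w l ≠ 0 := by
  have hw0 : w ≠ 0 := by
    rintro rfl
    exact hw (Submodule.zero_mem _)
  have hne : Projectivization.mk k w hw0 ≠ P := by
    rintro rfl
    exact hw (by
      rw [Projectivization.submodule_mk]
      exact Submodule.mem_span_singleton_self _)
  obtain ⟨l, hl1, hlP, hlw⟩ := exists_separating P _ hne
  exact ⟨l, mem_pointIdeal_of_homog hl1 P hlP, fun h => hlw ((eval_rep_mk hl1 w hw0).2 h)⟩

omit [IsAlgClosed k] in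
lemma lead_ne_zero_or (x : BlowUp p) : x.lead x.ord Q.F ≠ 0 ∨ x.lead x.ord Q.G ≠ 0 := by
  cases x with
  | away q hq =>
    by_contra h
    push Not at h
    have h1 : MvPolynomial.eval q.rep Q.F = 0 := by
      have := h.1
      rwa [BlowUp.ord, BlowUp.lead_zero] at this
    have h2 : MvPolynomial.eval q.rep Q.G = 0 := by
      have := h.2
      rwa [BlowUp.ord, BlowUp.lead_zero] at this
    obtain ⟨i, hi⟩ := Q.hcommon q h1 h2
    exact hq i hi
  | exc i L =>
    set x : BlowUp p := .exc i L with hx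
    have hF : ∀ R : Pencil p, x.lead x.ord R.F =
        MvPolynomial.eval L.dir (R.U i) * MvPolynomial.eval (p i).rep (R.F' i) := by
      intro R
      have hU1 : R.U i ∈ x.idl ^ 1 := by
        rw [pow_one]
        exact R.hUI i
      have e1 := x.lead_mul (μ := 1) (ν := 0) (a := R.U i) (b := R.F' i) hU1 (by simp)
      rw [add_zero, ← R.hFU i, x.lead_zero] at e1
      change x.lead 1 R.F = _
      rw [e1]
      have e3 : x.lead 1 (R.U i) = MvPolynomial.eval x.dir (R.U i) :=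
        coeff_one_linear (R.hU i) _ _
      rw [e3]
      rfl
    by_contra h
    push Not at h
    have h1 := h.1
    have h2 : x.lead x.ord Q.swap.F = 0 := h.2
    rw [hF Q] at h1
    rw [hF Q.swap] at h2
    have hU := (mul_eq_zero.1 h1).resolve_right (Q.hF' i)
    have hV := (mul_eq_zero.1 h2).resolve_right (Q.swap.hF' i)
    obtain ⟨l, hl, hlw⟩ := exists_linear_dir (p i) L.dir L.dir_not_mem
    obtain ⟨α, β, hαβ⟩ := Ideal.mem_span_pair.1 (Q.hI i hl)
    apply hlw
    rw [← hαβ, map_add, map_mul, map_mul, hU]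
    change _ * 0 + _ * MvPolynomial.eval L.dir (Q.swap.U i) = 0
    rw [hV]
    ring

/-- Over the affine plane every Cousin datum can be solved. -/
theorem solve_affinePlane (hF0 : Q.F ≠ 0) (hG0 : Q.G ≠ 0) (d m : ℕ) (c : BlowUp p → Frac k)
    (hc : ∀ x : BlowUp p, ∃ V : Set (BlowUp p), IsOpen V ∧ x ∈ V ∧
      ∀ y ∈ V, c y - c x ∈ stalk p d (fun _ => (m : ℤ)) y) :
    ∃ f : Frac k, ∀ x : BlowUp p,
      MvPolynomial.eval x.vec (MvPolynomial.X 2 : CoordRing k) ≠ 0 →
      f - c x ∈ stalk p d (fun _ => (m : ℤ)) x := by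
  have step : ∀ R : Pencil p, R.F ≠ 0 → ∃ f : Frac k, ∀ x : R.W,
      f - c x.1 ∈ stalk p d (fun _ => (m : ℤ)) x.1 := by
    intro R hR
    refine (R.chart hR d m).cousin (fun x => c x.1) fun x => ?_
    obtain ⟨V, hV, hxV, hcV⟩ := hc x.1
    obtain ⟨h, hh, hy⟩ := R.exists_basic x hV hxV
    exact ⟨h, hh, fun y hyh => hcV y.1 (hy y hyh)⟩
  obtain ⟨f₁, hf₁⟩ := step Q hF0
  obtain ⟨f₂, hf₂⟩ := step Q.swap hG0
  obtain ⟨N, g, hN⟩ := (Q.chart hF0 d m).exists_pow_mul_mem (f₁ - f₂) (MvPolynomial.X 2)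
    (fun x hx => by
      have hx' : (Q.xi x) 2 ≠ 0 := by
        have : MvPolynomial.eval (Q.xi x) (MvPolynomial.X 2) ≠ 0 := hx
        rwa [MvPolynomial.eval_X] at this
      have hG : x.1.lead x.1.ord Q.G ≠ 0 := by
        intro h0
        apply hx'
        change x.1.lead x.1.ord Q.G / _ = 0
        rw [h0, zero_div]
      have h1 := hf₁ x
      have h2 := hf₂ ⟨x.1, x.2.1, hG⟩
      have e : f₁ - f₂ = (f₁ - c x.1) - (f₂ - c x.1) := by ring
      rw [e]
      exact AddSubgroup.sub_mem _ h1 h2)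
  obtain ⟨s₁, hs₁, s₂, hs₂, hs⟩ := Q.decompose hF0 hG0 d m N g
  have hX2 : (Q.chart hF0 d m).phi (MvPolynomial.X 2) = toFrac Q.G / toFrac Q.F := by
    change Q.phi _ = _
    simp [phi]
  have hF := toFrac_ne_zero hF0
  have hG := toFrac_ne_zero hG0
  have hdiff : f₁ - f₂ = s₁ + s₂ := by
    rw [← hs]
    have h1 : (toFrac Q.G / toFrac Q.F) ^ N * (f₁ - f₂) = Q.gen d m * Q.phi g := by
      rw [← hN, hX2]
    rw [← h1]
    have h2 : (toFrac Q.G / toFrac Q.F) ^ N * (toFrac Q.F / toFrac Q.G) ^ N = 1 := by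
      rw [← mul_pow]
      have : toFrac Q.G / toFrac Q.F * (toFrac Q.F / toFrac Q.G) = 1 := by field_simp
      rw [this, one_pow]
    calc f₁ - f₂ = ((toFrac Q.G / toFrac Q.F) ^ N * (toFrac Q.F / toFrac Q.G) ^ N) *
          (f₁ - f₂) := by rw [h2, one_mul]
      _ = _ := by ring
  refine ⟨f₁ - s₁, fun x hx => ?_⟩
  rcases Q.lead_ne_zero_or x with h | h
  · have h1 := hf₁ ⟨x, hx, h⟩
    have h2 := (Q.chart hF0 d m).le ⟨x, hx, h⟩ hs₁
    have e : f₁ - s₁ - c x = (f₁ - c x) - s₁ := by ring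
    rw [e]
    exact AddSubgroup.sub_mem _ h1 h2
  · have h1 := hf₂ ⟨x, hx, h⟩
    have h2 := (Q.swap.chart hG0 d m).le ⟨x, hx, h⟩ hs₂
    have e : f₁ - s₁ - c x = (f₂ - c x) + s₂ := by linear_combination hdiff
    rw [e]
    exact AddSubgroup.add_mem _ h1 h2

end Pencil

end

end Pool.Agent.Lib.MP_8481ed_ag
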