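import Mathlib
import Pool.Agent.Lib.MP_8481ed_ag.GlueA2

/-!
# The pencil of quartics through the `4 × 4` grid
-/

open scoped LinearAlgebra.Projectivization

universe u

namespace Pool.Agent.Lib.MP_8481ed_ag

noncomputable section

variable {k : Type u} [Field k]

/-- the linear form `Xᵢ - a X₂` -/
def lin (i : Fin 3) (a : k) : CoordRing k := MvPolynomial.X i - MvPolynomial.C a * MvPolynomial.X 2

lemma lin_homog (i : Fin 3) (a : k) : (lin i a).IsHomogeneous 1 := by
  refine (MvPolynomial.isHomogeneous_X k i).sub ?_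
  have := (MvPolynomial.isHomogeneous_C (Fin 3) a).mul (MvPolynomial.isHomogeneous_X k 2)
  rwa [zero_add] at this

lemma eval_lin (i : Fin 3) (a : k) (v : Fin 3 → k) :
    MvPolynomial.eval v (lin i a) = v i - a * v 2 := by
  simp [lin]

/-- the product of the other three lines -/
def restProd (i : Fin 3) (a : Fin 4 → k) (j : Fin 4) : CoordRing k :=
  ∏ l ∈ Finset.univ.erase j, lin i (a l)

lemma lineProd_eq (i : Fin 3) (a : Fin 4 → k) (j : Fin 4) :
    lineProd i a = lin i (a j) * restProd i a j :=
  (Finset.mul_prod_erase Finset.univ (fun l => lin i (a l)) (Finset.mem_univ j)).symm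

lemma restProd_homog (i : Fin 3) (a : Fin 4 → k) (j : Fin 4) :
    (restProd i a j).IsHomogeneous 3 := by
  have h := MvPolynomial.IsHomogeneous.prod (Finset.univ.erase j) (fun l => lin i (a l))
    (fun _ => 1) (fun l _ => lin_homog i (a l))
  simpa [restProd] using h

lemma eval_restProd (i : Fin 3) (a : Fin 4 → k) (j : Fin 4) (v : Fin 3 → k) :
    MvPolynomial.eval v (restProd i a j) = ∏ l ∈ Finset.univ.erase j, (v i - a l * v 2) := by
  rw [restProd, map_prod]
  exact Finset.prod_congr rfl fun l _ => eval_lin i (a l) v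

lemma eval_lineProd (i : Fin 3) (a : Fin 4 → k) (v : Fin 3 → k) :
    MvPolynomial.eval v (lineProd i a) = ∏ l, (v i - a l * v 2) := by
  rw [lineProd, map_prod]
  exact Finset.prod_congr rfl fun l _ => eval_lin i (a l) v

lemma eval_subst (i : Fin 3) (a : k) (P : CoordRing k) (v : Fin 3 → k) :
    MvPolynomial.eval v (subst i a P) =
      MvPolynomial.eval (fun j => if j = i then a * v 2 else v j) P := by
  have : (MvPolynomial.eval v).comp (subst i a : CoordRing k →ₐ[k] CoordRing k).toRingHom =
      MvPolynomial.eval (fun j => if j = i then a * v 2 else v j) := by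
    apply MvPolynomial.ringHom_ext
    · intro c
      simp [subst]
    · intro j
      by_cases h : j = i
      · simp [subst, h]
      · simp [subst, h]
  exact congrArg (fun f : CoordRing k →+* k => f P) this

lemma pointIdeal_le [Infinite k] (x y : k) :
    pointIdeal (affPt x y) ≤ Ideal.span {lin 0 x, lin 1 y} := by
  intro P hP
  have h0 : subst 1 y (subst 0 x P) = 0 := by
    apply MvPolynomial.funext
    intro v
    rw [eval_subst, eval_subst, map_zero]
    have hv : (fun j : Fin 3 => if j = 0 then x * (if (2 : Fin 3) = 1 then y * v 2 else v 2)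
        else if j = 1 then y * v 2 else v j) = v 2 • affVec x y := by
      funext j
      fin_cases j <;> simp [affVec, mul_comm]
    have hP' := hP (v 2 • affVec x y) (by
      change _ ∈ (affPt x y).submodule
      rw [affPt, Projectivization.submodule_mk]
      exact Submodule.smul_mem _ _ (Submodule.mem_span_singleton_self _))
    rw [hv]
    exact hP'
  have h1 : lin 0 x ∣ P - subst 0 x P := sub_dvd_sub_subst 0 x P
  have h2 : lin 1 y ∣ subst 0 x P - subst 1 y (subst 0 x P) := sub_dvd_sub_subst 1 y _
  rw [h0, sub_zero] at h2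
  have h3 : P = (P - subst 0 x P) + subst 0 x P := by ring
  rw [h3]
  refine Ideal.add_mem _ ?_ ?_
  · exact Ideal.mem_of_dvd _ h1 (Ideal.subset_span (by simp))
  · exact Ideal.mem_of_dvd _ h2 (Ideal.subset_span (by simp))

lemma grid_hcommon (a : Fin 4 → k) (q : Plane k)
    (hF : MvPolynomial.eval q.rep (lineProd 0 a) = 0)
    (hG : MvPolynomial.eval q.rep (lineProd 1 a) = 0) : ∃ n, q = grid a n := by
  rw [eval_lineProd] at hF hG
  obtain ⟨i, -, hi⟩ := Finset.prod_eq_zero_iff.1 hF
  obtain ⟨j, -, hj⟩ := Finset.prod_eq_zero_iff.1 hG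
  rw [sub_eq_zero] at hi hj
  have h2 : q.rep 2 ≠ 0 := by
    intro h2
    apply q.rep_nonzero
    rw [h2, mul_zero] at hi hj
    funext l
    fin_cases l
    · exact hi
    · exact hj
    · exact h2
  refine ⟨idx.symm (i, j), ?_⟩
  rw [grid, idx.apply_symm_apply, ← q.mk_rep, affPt, Projectivization.mk_eq_mk_iff']
  refine ⟨q.rep 2, ?_⟩
  funext l
  fin_cases l
  · simp [affVec, hi, mul_comm]
  · simp [affVec, hj, mul_comm]
  · simp [affVec]

/-- The pencil of quartics through the grid. -/
def gridPencil [Infinite k] {a : Fin 4 → k} (ha : Function.Injective a) : Pencil (grid a) where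
  F := lineProd 0 a
  G := lineProd 1 a
  U := fun n => lin 0 (a (idx n).1)
  V := fun n => lin 1 (a (idx n).2)
  F' := fun n => restProd 0 a (idx n).1
  G' := fun n => restProd 1 a (idx n).2
  hF := lineProd_homog 0 a
  hG := lineProd_homog 1 a
  hFU := fun n => lineProd_eq 0 a _
  hGV := fun n => lineProd_eq 1 a _
  hU := fun n => lin_homog _ _
  hV := fun n => lin_homog _ _
  hF'3 := fun n => restProd_homog _ _ _
  hG'3 := fun n => restProd_homog _ _ _
  hF' := fun n => by
    rw [Ne, eval_grid_rep (restProd_homog _ _ _), eval_restProd, ← Ne, Finset.prod_ne_zero_iff]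
    intro l hl h
    have h' : a (idx n).1 = a l := by
      simpa [affVec, sub_eq_zero] using h
    exact (Finset.ne_of_mem_erase hl) (ha h').symm
  hG' := fun n => by
    rw [Ne, eval_grid_rep (restProd_homog _ _ _), eval_restProd, ← Ne, Finset.prod_ne_zero_iff]
    intro l hl h
    have h' : a (idx n).2 = a l := by
      simpa [affVec, sub_eq_zero] using h
    exact (Finset.ne_of_mem_erase hl) (ha h').symm
  hUI := fun n => mem_pointIdeal_of_homog (lin_homog _ _) _ ((eval_grid_rep (lin_homog _ _) n).2 (by
    rw [eval_lin]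
    simp [affVec]))
  hVI := fun n => mem_pointIdeal_of_homog (lin_homog _ _) _ ((eval_grid_rep (lin_homog _ _) n).2 (by
    rw [eval_lin]
    simp [affVec]))
  hI := fun n => pointIdeal_le _ _
  hZ := fun n => by
    rw [Ne, eval_grid_rep (MvPolynomial.isHomogeneous_X k 2), MvPolynomial.eval_X]
    simp [affVec]
  hdir := fun n u v => ⟨![u, v, 0], by rw [eval_lin]; simp, by rw [eval_lin]; simp⟩
  hcommon := grid_hcommon a

end

end Pool.Agent.Lib.MP_8481ed_ag
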