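import Mathlib
import Pool.Agent.Lib.MP_8481ed_ag.GridPencil

/-!
# Interpolation of forms at the doubled grid
-/

open scoped LinearAlgebra.Projectivization

universe u

namespace Pool.Agent.Lib.MP_8481ed_ag

noncomputable section

variable {k : Type u} [Field k]

lemma X2_dvd_lineProd_sub (i : Fin 3) (a : Fin 4 → k) :
    (MvPolynomial.X 2 : CoordRing k) ∣ lineProd i a - MvPolynomial.X i ^ 4 := by
  rw [← Ideal.mem_span_singleton, ← Ideal.Quotient.eq_zero_iff_mem, map_sub, map_pow, lineProd,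
    map_prod]
  have h2 : (Ideal.Quotient.mk (Ideal.span {(MvPolynomial.X 2 : CoordRing k)}))
      (MvPolynomial.X 2) = 0 :=
    Ideal.Quotient.eq_zero_iff_mem.2 (Ideal.subset_span rfl)
  have h : ∀ j ∈ (Finset.univ : Finset (Fin 4)),
      (Ideal.Quotient.mk (Ideal.span {(MvPolynomial.X 2 : CoordRing k)}))
        (MvPolynomial.X i - MvPolynomial.C (a j) * MvPolynomial.X 2) =
      (Ideal.Quotient.mk (Ideal.span {(MvPolynomial.X 2 : CoordRing k)})) (MvPolynomial.X i) := by
    intro j _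
    rw [map_sub, map_mul, h2, mul_zero, sub_zero]
  rw [Finset.prod_congr rfl h]
  simp

/-- The ideal generated by `F², FG, G², X₂` contains all monomials of degree at least `11`. -/
lemma mem_of_homog (a : Fin 4 → k) {N : ℕ} (hN : 11 ≤ N) {D : CoordRing k}
    (hD : D.IsHomogeneous N) :
    D ∈ Ideal.span {lineProd 0 a ^ 2, lineProd 0 a * lineProd 1 a, lineProd 1 a ^ 2,
      (MvPolynomial.X 2 : CoordRing k)} := by
  set I : Ideal (CoordRing k) := Ideal.span {lineProd 0 a ^ 2, lineProd 0 a * lineProd 1 a,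
    lineProd 1 a ^ 2, (MvPolynomial.X 2 : CoordRing k)} with hI
  have hX2 : (MvPolynomial.X 2 : CoordRing k) ∈ I := Ideal.subset_span (by simp)
  have hF : lineProd 0 a - MvPolynomial.X 0 ^ 4 ∈ I :=
    Ideal.mem_of_dvd _ (X2_dvd_lineProd_sub 0 a) hX2
  have hG : lineProd 1 a - MvPolynomial.X 1 ^ 4 ∈ I :=
    Ideal.mem_of_dvd _ (X2_dvd_lineProd_sub 1 a) hX2
  have h1 : (MvPolynomial.X 0 ^ 8 : CoordRing k) ∈ I := by
    have e : (MvPolynomial.X 0 ^ 8 : CoordRing k) = lineProd 0 a ^ 2 -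
        (lineProd 0 a + MvPolynomial.X 0 ^ 4) * (lineProd 0 a - MvPolynomial.X 0 ^ 4) := by ring
    rw [e]
    exact Ideal.sub_mem _ (Ideal.subset_span (by simp)) (Ideal.mul_mem_left _ _ hF)
  have h2 : (MvPolynomial.X 0 ^ 4 * MvPolynomial.X 1 ^ 4 : CoordRing k) ∈ I := by
    have e : (MvPolynomial.X 0 ^ 4 * MvPolynomial.X 1 ^ 4 : CoordRing k) =
        lineProd 0 a * lineProd 1 a - lineProd 1 a * (lineProd 0 a - MvPolynomial.X 0 ^ 4) -
        MvPolynomial.X 0 ^ 4 * (lineProd 1 a - MvPolynomial.X 1 ^ 4) := by ring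
    rw [e]
    exact Ideal.sub_mem _ (Ideal.sub_mem _ (Ideal.subset_span (by simp))
      (Ideal.mul_mem_left _ _ hF)) (Ideal.mul_mem_left _ _ hG)
  have h3 : (MvPolynomial.X 1 ^ 8 : CoordRing k) ∈ I := by
    have e : (MvPolynomial.X 1 ^ 8 : CoordRing k) = lineProd 1 a ^ 2 -
        (lineProd 1 a + MvPolynomial.X 1 ^ 4) * (lineProd 1 a - MvPolynomial.X 1 ^ 4) := by ring
    rw [e]
    exact Ideal.sub_mem _ (Ideal.subset_span (by simp)) (Ideal.mul_mem_left _ _ hG)
  rw [D.as_sum]
  refine Ideal.sum_mem _ fun e he => ?_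
  have hdeg : e 0 + e 1 + e 2 = N := by
    have h := hD (MvPolynomial.mem_support_iff.1 he)
    rw [Finsupp.weight_apply, Finsupp.sum_fintype] at h
    · simpa [Fin.sum_univ_three] using h
    · simp
  have hmon : MvPolynomial.monomial e (MvPolynomial.coeff e D) =
      MvPolynomial.C (MvPolynomial.coeff e D) * (MvPolynomial.X 0 ^ e 0 * MvPolynomial.X 1 ^ e 1 *
        MvPolynomial.X 2 ^ e 2) := by
    rw [MvPolynomial.monomial_eq, Finsupp.prod_fintype]
    · rw [Fin.prod_univ_three]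
    · simp
  rw [hmon]
  apply Ideal.mul_mem_left
  by_cases c2 : e 2 = 0
  · by_cases c0 : 8 ≤ e 0
    · obtain ⟨t, ht⟩ := Nat.exists_eq_add_of_le c0
      rw [ht, pow_add, mul_assoc, mul_assoc]
      exact Ideal.mul_mem_right _ _ h1
    · by_cases c1 : 8 ≤ e 1
      · obtain ⟨t, ht⟩ := Nat.exists_eq_add_of_le c1
        rw [ht, pow_add]
        have e' : (MvPolynomial.X 0 ^ e 0 * (MvPolynomial.X 1 ^ 8 * MvPolynomial.X 1 ^ t) *
          MvPolynomial.X 2 ^ e 2 : CoordRing k) = MvPolynomial.X 1 ^ 8 * (MvPolynomial.X 0 ^ e 0 *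
          MvPolynomial.X 1 ^ t * MvPolynomial.X 2 ^ e 2) := by ring
        rw [e']
        exact Ideal.mul_mem_right _ _ h3
      · obtain ⟨s, hs⟩ := Nat.exists_eq_add_of_le (show 4 ≤ e 0 by omega)
        obtain ⟨t, ht⟩ := Nat.exists_eq_add_of_le (show 4 ≤ e 1 by omega)
        rw [hs, ht, pow_add, pow_add]
        have e' : (MvPolynomial.X 0 ^ 4 * MvPolynomial.X 0 ^ s * (MvPolynomial.X 1 ^ 4 *
          MvPolynomial.X 1 ^ t) * MvPolynomial.X 2 ^ e 2 : CoordRing k) =
          MvPolynomial.X 0 ^ 4 * MvPolynomial.X 1 ^ 4 * (MvPolynomial.X 0 ^ s *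
          MvPolynomial.X 1 ^ t * MvPolynomial.X 2 ^ e 2) := by ring
        rw [e']
        exact Ideal.mul_mem_right _ _ h2
  · obtain ⟨t, ht⟩ := Nat.exists_eq_add_of_le (show 1 ≤ e 2 by omega)
    rw [ht, pow_add, pow_one]
    have e' : (MvPolynomial.X 0 ^ e 0 * MvPolynomial.X 1 ^ e 1 * (MvPolynomial.X 2 *
      MvPolynomial.X 2 ^ t) : CoordRing k) = MvPolynomial.X 2 * (MvPolynomial.X 0 ^ e 0 *
      MvPolynomial.X 1 ^ e 1 * MvPolynomial.X 2 ^ t) := by ring
    rw [e']
    exact Ideal.mul_mem_right _ _ hX2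

/-- Every form of degree `10 + t` is the sum of a form singular at the grid and of `X₂ ^ t` times
a form of degree `10`. -/
lemma interp (a : Fin 4 → k) (t : ℕ) : ∀ D : CoordRing k, D.IsHomogeneous (10 + t) →
    ∃ A B C g : CoordRing k, A.IsHomogeneous (2 + t) ∧ B.IsHomogeneous (2 + t) ∧
      C.IsHomogeneous (2 + t) ∧ g.IsHomogeneous 10 ∧
      D = A * lineProd 0 a ^ 2 + B * (lineProd 0 a * lineProd 1 a) + C * lineProd 1 a ^ 2 +
        MvPolynomial.X 2 ^ t * g := by
  induction t with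
  | zero =>
    intro D hD
    exact ⟨0, 0, 0, D, MvPolynomial.isHomogeneous_zero _ _ _, MvPolynomial.isHomogeneous_zero _ _ _,
      MvPolynomial.isHomogeneous_zero _ _ _, hD, by simp⟩
  | succ t ih =>
    intro D hD
    have h := mem_of_homog a (N := 10 + (t + 1)) (by omega) hD
    rw [Ideal.mem_span_insert] at h
    obtain ⟨A, z, hz, rfl⟩ := h
    rw [Ideal.mem_span_insert] at hz
    obtain ⟨B, z, hz, rfl⟩ := hz
    obtain ⟨C, E, hCE⟩ := Ideal.mem_span_pair.1 hz
    subst hCE
    set D := A * lineProd 0 a ^ 2 + (B * (lineProd 0 a * lineProd 1 a) +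
      (C * lineProd 1 a ^ 2 + E * MvPolynomial.X 2)) with hDdef
    have hFF : (lineProd 0 a ^ 2 : CoordRing k).IsHomogeneous 8 := (lineProd_homog 0 a).pow 2
    have hFG : (lineProd 0 a * lineProd 1 a : CoordRing k).IsHomogeneous 8 :=
      (lineProd_homog 0 a).mul (lineProd_homog 1 a)
    have hGG : (lineProd 1 a ^ 2 : CoordRing k).IsHomogeneous 8 := (lineProd_homog 1 a).pow 2
    have hX : (MvPolynomial.X 2 : CoordRing k).IsHomogeneous 1 := MvPolynomial.isHomogeneous_X k 2
    have key : D = MvPolynomial.homogeneousComponent (2 + (t + 1)) A * lineProd 0 a ^ 2 +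
        (MvPolynomial.homogeneousComponent (2 + (t + 1)) B * (lineProd 0 a * lineProd 1 a) +
        (MvPolynomial.homogeneousComponent (2 + (t + 1)) C * lineProd 1 a ^ 2 +
        MvPolynomial.homogeneousComponent (10 + t) E * MvPolynomial.X 2)) := by
      have e1 : MvPolynomial.homogeneousComponent (2 + (t + 1) + 8) D = D := by
        apply MvPolynomial.homogeneousComponent_eq_self
        have : 10 + (t + 1) = 2 + (t + 1) + 8 := by ring
        rwa [this] at hD
      have e2 : 2 + (t + 1) + 8 = 10 + t + 1 := by ring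
      rw [← e1]
      conv_lhs => rw [hDdef]
      rw [map_add, map_add, map_add, hc_mul hFF, hc_mul hFG, hc_mul hGG, e2, hc_mul hX]
    obtain ⟨A', B', C', g, hA', hB', hC', hg, hE⟩ := ih
      (MvPolynomial.homogeneousComponent (10 + t) E)
      (MvPolynomial.homogeneousComponent_isHomogeneous _ _)
    have hXm : ∀ P : CoordRing k, P.IsHomogeneous (2 + t) →
        (P * MvPolynomial.X 2).IsHomogeneous (2 + (t + 1)) := fun P hP => hP.mul hX
    refine ⟨MvPolynomial.homogeneousComponent (2 + (t + 1)) A + A' * MvPolynomial.X 2,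
      MvPolynomial.homogeneousComponent (2 + (t + 1)) B + B' * MvPolynomial.X 2,
      MvPolynomial.homogeneousComponent (2 + (t + 1)) C + C' * MvPolynomial.X 2, g,
      (MvPolynomial.homogeneousComponent_isHomogeneous _ _).add (hXm _ hA'),
      (MvPolynomial.homogeneousComponent_isHomogeneous _ _).add (hXm _ hB'),
      (MvPolynomial.homogeneousComponent_isHomogeneous _ _).add (hXm _ hC'), hg, ?_⟩
    rw [key]
    conv_lhs => rw [hE]
    ring

end

end Pool.Agent.Lib.MP_8481ed_ag
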