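import Mathlib
import Pool.Agent.Lib.MP_8481ed_ag.Val
import Pool.Agent.Lib.MP_8481ed_ag.Affine
import Pool.Agent.Lib.MP_8481ed_ag.Poly

/-!
# The standard charts of the plane and the Cousin problem for `𝒪(d)`
-/

open scoped LinearAlgebra.Projectivization

universe u

namespace Pool.Agent.Lib.MP_8481ed_ag

noncomputable section

variable {k : Type u} [Field k]

/-- the empty family of points -/
def emp : Fin 0 → Plane k := fun i => i.elim0

/-- a point of the plane, seen in the blow-up at no points -/
def pt (q : Plane k) : BlowUp (emp (k := k)) := .away q (fun i => i.elim0)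

/-- regularity of a rational section of `𝒪(d)` at a point of the plane -/
abbrev PReg (d : ℤ) (q : Plane k) (s : Frac k) : Prop := IsRegularAt (emp (k := k)) d 0 (pt q) s

lemma pt_vec (q : Plane k) : (pt q).vec = q.rep := rfl

lemma pt_lead_zero (q : Plane k) (a : CoordRing k) : (pt q).lead 0 a = MvPolynomial.eval q.rep a :=
  BlowUp.lead_zero _ _

/-- points with `X_i ≠ 0` -/
abbrev D (k : Type u) [Field k] (i : Fin 3) : Type u :=
  {q : Plane k // MvPolynomial.eval q.rep (MvPolynomial.X i : CoordRing k) ≠ 0}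

/-- coordinates on `X_i ≠ 0` -/
def pxi (i : Fin 3) (q : D k i) : Fin 3 → k := fun j => q.1.rep j / q.1.rep i

/-- coordinate functions on `X_i ≠ 0` -/
def pphi (i : Fin 3) : MvPolynomial (Fin 3) k →+* Frac k :=
  MvPolynomial.eval₂Hom (algebraMap k (Frac k))
    (fun j => (toFrac (MvPolynomial.X i))⁻¹ * toFrac (MvPolynomial.X j))

lemma toFrac_X_ne_zero (i : Fin 3) : toFrac (MvPolynomial.X i : CoordRing k) ≠ 0 :=
  toFrac_ne_zero (MvPolynomial.X_ne_zero i)

lemma pphi_homog (i : Fin 3) {A : CoordRing k} {n : ℕ} (hA : A.IsHomogeneous n) :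
    pphi i A = toFrac A / toFrac (MvPolynomial.X i) ^ n := by
  rw [pphi, MvPolynomial.coe_eval₂Hom, eval₂_smul_homog _ hA, div_eq_inv_mul, inv_pow]
  congr 1
  have h3 : (MvPolynomial.eval₂Hom (algebraMap k (Frac k)) fun i => toFrac (MvPolynomial.X i)) =
      toFrac := by
    apply MvPolynomial.ringHom_ext
    · intro c
      rw [MvPolynomial.eval₂Hom_C, IsScalarTower.algebraMap_apply k (CoordRing k) (Frac k)]
      rfl
    · intro i
      simp
  exact congrArg (fun f : CoordRing k →+* Frac k => f A) h3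

lemma pphi_X_self (i : Fin 3) : pphi i (MvPolynomial.X i : MvPolynomial (Fin 3) k) = 1 := by
  rw [pphi_homog i (MvPolynomial.isHomogeneous_X k i), pow_one, div_self (toFrac_X_ne_zero i)]

lemma hasVal_pphi (i : Fin 3) (q : D k i) (h : MvPolynomial (Fin 3) k) :
    HasVal (pt q.1) (pphi i h) (MvPolynomial.eval (pxi i q) h) := by
  have hX : ∀ j, HasVal (pt q.1) (pphi i (MvPolynomial.X j)) (pxi i q j) := by
    intro j
    refine ⟨1, 0, MvPolynomial.X j, MvPolynomial.X i, MvPolynomial.isHomogeneous_X k j,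
      MvPolynomial.isHomogeneous_X k i, by simp, by simp, ?_, ?_, ?_⟩
    · rw [pt_lead_zero]
      exact q.2
    · rw [pphi_homog i (MvPolynomial.isHomogeneous_X k j), pow_one]
    · rw [pt_lead_zero, pt_lead_zero, MvPolynomial.eval_X, MvPolynomial.eval_X]
      rfl
  induction h using MvPolynomial.induction_on with
  | C c =>
    have := HasVal.const (pt q.1) c
    simpa [pphi] using this
  | add f g hf hg =>
    rw [map_add, map_add]
    exact hf.add hg
  | mul_X f j hf =>
    rw [map_mul, map_mul, MvPolynomial.eval_X]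
    exact hf.mul (hX j)

/-- Every regular function on the chart has the form `B / X_i ^ M`. -/
lemma exists_pphi_eq (i : Fin 3) (g : MvPolynomial (Fin 3) k) : ∃ (M : ℕ) (B : CoordRing k),
    B.IsHomogeneous M ∧ pphi i g = toFrac B / toFrac (MvPolynomial.X i) ^ M := by
  have hX := toFrac_X_ne_zero (k := k) i
  induction g using MvPolynomial.induction_on with
  | C c =>
    exact ⟨0, MvPolynomial.C c, MvPolynomial.isHomogeneous_C _ _,
      pphi_homog i (MvPolynomial.isHomogeneous_C _ _)⟩
  | add f g hf hg =>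
    obtain ⟨M, B, hB, hf⟩ := hf
    obtain ⟨N, C, hC, hg⟩ := hg
    refine ⟨M + N, B * MvPolynomial.X i ^ N + C * MvPolynomial.X i ^ M, ?_, ?_⟩
    · have h1 := hB.mul ((MvPolynomial.isHomogeneous_X k i).pow N)
      have h2 := hC.mul ((MvPolynomial.isHomogeneous_X k i).pow M)
      rw [one_mul] at h1 h2
      rw [add_comm N M] at h2
      exact h1.add h2
    · rw [map_add, hf, hg, map_add, map_mul, map_mul, map_pow, map_pow, pow_add]
      field_simp
  | mul_X f j hf =>
    obtain ⟨M, B, hB, hf⟩ := hf
    refine ⟨M + 1, B * MvPolynomial.X j, hB.mul (MvPolynomial.isHomogeneous_X k j), ?_⟩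
    rw [map_mul, hf, pphi_homog i (MvPolynomial.isHomogeneous_X k j), map_mul, pow_one, pow_succ]
    field_simp

variable [IsAlgClosed k]

/-- the standard chart `X_i ≠ 0` with the sheaf `𝒪(d)` -/
def pchart (i : Fin 3) (d : ℕ) : Chart k (Frac k) (D k i) where
  xi := pxi i
  phi := pphi i
  M := fun q => stalk emp d 0 (pt q.1)
  L :=
    { carrier := {s | ∃ g, s = toFrac (MvPolynomial.X i) ^ d * pphi i g}
      zero_mem' := ⟨0, by simp⟩
      add_mem' := by
        rintro _ _ ⟨g₁, rfl⟩ ⟨g₂, rfl⟩
        exact ⟨g₁ + g₂, by rw [map_add, mul_add]⟩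
      neg_mem' := by
        rintro _ ⟨g, rfl⟩
        exact ⟨-g, by rw [map_neg, mul_neg]⟩ }
  ker := fun q h h0 => by
    have h1 := hasVal_pphi i q h
    rw [h0] at h1
    have h2 := HasVal.const (pt q.1) (0 : k)
    rw [map_zero] at h2
    exact h1.unique h2
  inv_mem := fun q h hq s hs =>
    isRegularAt_smul (m := 0) ((hasVal_pphi i q h).inv hq).isRegular hs
  smul_mem := by
    rintro g _ ⟨g', rfl⟩
    exact ⟨g * g', by rw [map_mul]; ring⟩
  denom := by
    intro q s hs
    obtain ⟨n, e, a, b, ha, hb, hn, hbq, rfl⟩ :=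
      (isRegularAt_away_iff (p := emp (k := k)) d 0 q.1 (fun i => i.elim0) s).1 hs
    have hq : q.1.rep i ≠ 0 := by
      have := q.2
      rwa [MvPolynomial.eval_X] at this
    have hX := toFrac_X_ne_zero (k := k) i
    have hb0 : b ≠ 0 := by
      rintro rfl
      simp at hbq
    refine ⟨b, ?_, a, ?_⟩
    · have h1 : pxi i q = (q.1.rep i)⁻¹ • q.1.rep := by
        funext j
        simp [pxi, div_eq_inv_mul]
      rw [h1, eval_smul_homog hb]
      exact mul_ne_zero (pow_ne_zero _ (inv_ne_zero hq)) hbq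
    · rw [pphi_homog i ha, pphi_homog i hb]
      have hb' := toFrac_ne_zero hb0
      have hne : n = e + d := by omega
      rw [hne, pow_add]
      field_simp
  le := by
    rintro q _ ⟨g, rfl⟩
    rw [mul_comm]
    have h1 : IsRegularAt (emp (k := k)) d 0 (pt q.1) (toFrac (MvPolynomial.X i) ^ d) := by
      refine ⟨d, 0, MvPolynomial.X i ^ d, 1, ?_, MvPolynomial.isHomogeneous_one _ _, by simp,
        by simp, by simp⟩
      have := (MvPolynomial.isHomogeneous_X k i).pow d
      rwa [one_mul] at this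
    exact isRegularAt_smul (hasVal_pphi i q g).isRegular h1
  pts := fun z hz => by
    have hzi : z i = 1 := by
      have h1 := hz (MvPolynomial.X i - 1) (by rw [map_sub, pphi_X_self, map_one, sub_self])
      rw [map_sub, MvPolynomial.eval_X, map_one] at h1
      exact sub_eq_zero.1 h1
    have hz0 : z ≠ 0 := by
      rintro rfl
      simp at hzi
    obtain ⟨c, hc⟩ := Projectivization.exists_smul_eq_mk_rep k z hz0
    have hc0 : (c : k) ≠ 0 := c.ne_zero
    refine ⟨⟨Projectivization.mk k z hz0, ?_⟩, ?_⟩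
    · rw [MvPolynomial.eval_X, ← hc]
      simp [Units.smul_def, hzi]
    · funext j
      simp only [pxi]
      rw [← hc]
      simp only [Units.smul_def, Pi.smul_apply, smul_eq_mul, hzi, mul_one]
      field_simp

end

end Pool.Agent.Lib.MP_8481ed_ag
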