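import Mathlib
import Pool.Agent.Lib.MP_8481ed_ag.PlaneChart

/-!
# The Cousin problem for `𝒪(d)` on the plane
-/

open scoped LinearAlgebra.Projectivization

universe u

namespace Pool.Agent.Lib.MP_8481ed_ag

noncomputable section

variable {k : Type u} [Field k]

/-- The monomial ideal step. -/
lemma mem_span_of_mul {a : ℕ} {A B C : CoordRing k}
    (h : MvPolynomial.X 2 ^ a * A = MvPolynomial.X 1 ^ a * B - MvPolynomial.X 0 ^ a * C) :
    ∃ α β : CoordRing k, A = α * MvPolynomial.X 0 ^ a + β * MvPolynomial.X 1 ^ a := by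
  classical
  let S : Set (Fin 3 →₀ ℕ) := {Finsupp.single 0 a, Finsupp.single 1 a}
  have hspan : Ideal.span ((fun s => MvPolynomial.monomial s (1 : k)) '' S) =
      Ideal.span {MvPolynomial.X 0 ^ a, MvPolynomial.X 1 ^ a} := by
    congr 1
    simp only [S, Set.image_insert_eq, Set.image_singleton, MvPolynomial.X_pow_eq_monomial]
  have h1 : MvPolynomial.X 2 ^ a * A ∈ Ideal.span ((fun s => MvPolynomial.monomial s (1 : k)) '' S) := by
    rw [hspan, h]
    refine Ideal.sub_mem _ ?_ ?_
    · exact Ideal.mul_mem_right _ _ (Ideal.subset_span (by simp))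
    · exact Ideal.mul_mem_right _ _ (Ideal.subset_span (by simp))
  have h2 : A ∈ Ideal.span ((fun s => MvPolynomial.monomial s (1 : k)) '' S) := by
    rw [MvPolynomial.mem_ideal_span_monomial_image] at h1 ⊢
    intro e he
    have h3 : e + Finsupp.single 2 a ∈ (MvPolynomial.X 2 ^ a * A).support := by
      rw [MvPolynomial.mem_support_iff, mul_comm, MvPolynomial.X_pow_eq_monomial,
        MvPolynomial.coeff_mul_monomial, mul_one]
      exact MvPolynomial.mem_support_iff.1 he
    obtain ⟨si, hsi, hle⟩ := h1 _ h3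
    refine ⟨si, hsi, ?_⟩
    rcases hsi with rfl | hsi
    · intro j
      have := hle j
      fin_cases j <;> simp_all
    · rw [Set.mem_singleton_iff] at hsi
      subst hsi
      intro j
      have := hle j
      fin_cases j <;> simp_all
  rw [hspan] at h2
  obtain ⟨α, β, h3⟩ := Ideal.mem_span_pair.1 h2
  exact ⟨α, β, h3.symm⟩

variable [IsAlgClosed k]

/-- `A / X_i ^ a` is a regular section of `𝒪(d)` where `X_i ≠ 0`. -/
lemma pReg_div {i : Fin 3} {a d : ℕ} {A : CoordRing k} (hA : A.IsHomogeneous (d + a)) (q : D k i) :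
    toFrac A / toFrac (MvPolynomial.X i) ^ a ∈ stalk (emp (k := k)) d 0 (pt q.1) := by
  refine (isRegularAt_away_iff (p := emp (k := k)) d 0 q.1 (fun i => i.elim0) _).2
    ⟨d + a, a, A, MvPolynomial.X i ^ a, hA, ?_, by push_cast; ring, ?_, by rw [map_pow]⟩
  · have := (MvPolynomial.isHomogeneous_X k i).pow a
    rwa [one_mul] at this
  · rw [map_pow]
    exact pow_ne_zero _ q.2

/-- Differences of local solutions on two standard charts. -/
lemma exists_diff {i j : Fin 3} {d : ℕ} (s : Frac k)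
    (hs : ∀ q : D k i, MvPolynomial.eval q.1.rep (MvPolynomial.X j : CoordRing k) ≠ 0 →
      s ∈ stalk (emp (k := k)) d 0 (pt q.1)) :
    ∃ K₀ : ℕ, ∀ K ≥ K₀, ∃ A : CoordRing k, A.IsHomogeneous (d + 2 * K) ∧
      s = toFrac A / (toFrac (MvPolynomial.X i) ^ K * toFrac (MvPolynomial.X j) ^ K) := by
  obtain ⟨N, g, hN⟩ := (pchart i d).exists_pow_mul_mem s (MvPolynomial.X j) (fun q hq => by
    apply hs
    intro h0
    apply hq
    change MvPolynomial.eval (pxi i q) (MvPolynomial.X j) = 0
    rw [MvPolynomial.eval_X] at h0 ⊢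
    simp [pxi, h0])
  obtain ⟨M, B, hB, hg⟩ := exists_pphi_eq i g
  have hXi := toFrac_X_ne_zero (k := k) i
  have hXj := toFrac_X_ne_zero (k := k) j
  have hs' : s * (toFrac (MvPolynomial.X j) ^ N * toFrac (MvPolynomial.X i) ^ M) =
      toFrac (MvPolynomial.X i) ^ (d + N) * toFrac B := by
    change pphi i (MvPolynomial.X j) ^ N * s = _ at hN
    rw [hg, pphi_homog i (MvPolynomial.isHomogeneous_X k j), pow_one, div_pow] at hN
    field_simp at hN
    rw [pow_add]
    linear_combination hN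
  refine ⟨M + N, fun K hK => ?_⟩
  obtain ⟨t, rfl⟩ := Nat.exists_eq_add_of_le hK
  refine ⟨B * MvPolynomial.X i ^ (d + N) * (MvPolynomial.X i ^ (N + t) * MvPolynomial.X j ^ (M + t)),
    ?_, ?_⟩
  · have h1 := (hB.mul ((MvPolynomial.isHomogeneous_X k i).pow (d + N))).mul
      (((MvPolynomial.isHomogeneous_X k i).pow (N + t)).mul
        ((MvPolynomial.isHomogeneous_X k j).pow (M + t)))
    have h2 : M + 1 * (d + N) + (1 * (N + t) + 1 * (M + t)) = d + 2 * (M + N + t) := by ring
    rwa [h2] at h1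
  · rw [eq_div_iff (mul_ne_zero (pow_ne_zero _ hXi) (pow_ne_zero _ hXj))]
    simp only [map_mul, map_pow]
    calc s * (toFrac (MvPolynomial.X i) ^ (M + N + t) * toFrac (MvPolynomial.X j) ^ (M + N + t))
        = (s * (toFrac (MvPolynomial.X j) ^ N * toFrac (MvPolynomial.X i) ^ M)) *
          (toFrac (MvPolynomial.X i) ^ (N + t) * toFrac (MvPolynomial.X j) ^ (M + t)) := by
          simp only [pow_add]
          ring
      _ = _ := by rw [hs']; ring

/-- **Cousin problem for `𝒪(d)` on the plane.** -/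
theorem plane_solve (d : ℕ) (c : Plane k → Frac k)
    (hc : ∀ q : Plane k, ∃ (h : CoordRing k) (n : ℕ), h.IsHomogeneous n ∧
      MvPolynomial.eval q.rep h ≠ 0 ∧ ∀ q' : Plane k, MvPolynomial.eval q'.rep h ≠ 0 →
        c q' - c q ∈ stalk (emp (k := k)) d 0 (pt q')) :
    ∃ f : Frac k, ∀ q : Plane k, f - c q ∈ stalk (emp (k := k)) d 0 (pt q) := by
  have step : ∀ i : Fin 3, ∃ f : Frac k, ∀ q : D k i,
      f - c q.1 ∈ stalk (emp (k := k)) d 0 (pt q.1) := by
    intro i
    refine (pchart i d).cousin (fun q => c q.1) fun q => ?_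
    obtain ⟨h, n, hh, hq, hq'⟩ := hc q.1
    have key : ∀ y : D k i, MvPolynomial.eval (pxi i y) h ≠ 0 ↔
        MvPolynomial.eval y.1.rep h ≠ 0 := by
      intro y
      have hy : y.1.rep i ≠ 0 := by
        have := y.2
        rwa [MvPolynomial.eval_X] at this
      have h1 : pxi i y = (y.1.rep i)⁻¹ • y.1.rep := by
        funext j
        simp [pxi, div_eq_inv_mul]
      rw [h1, eval_smul_homog hh]
      simp [hy]
    exact ⟨h, (key q).2 hq, fun y hy => hq' y.1 ((key y).1 hy)⟩
  obtain ⟨f₀, hf₀⟩ := step 0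
  obtain ⟨f₁, hf₁⟩ := step 1
  obtain ⟨f₂, hf₂⟩ := step 2
  obtain ⟨K₁, h01⟩ := exists_diff (i := 0) (j := 1) (d := d) (f₀ - f₁) (fun q hq => by
    have e : f₀ - f₁ = (f₀ - c q.1) - (f₁ - c q.1) := by ring
    rw [e]
    exact AddSubgroup.sub_mem _ (hf₀ q) (hf₁ ⟨q.1, hq⟩))
  obtain ⟨K₂, h02⟩ := exists_diff (i := 0) (j := 2) (d := d) (f₀ - f₂) (fun q hq => by
    have e : f₀ - f₂ = (f₀ - c q.1) - (f₂ - c q.1) := by ring
    rw [e]
    exact AddSubgroup.sub_mem _ (hf₀ q) (hf₂ ⟨q.1, hq⟩))
  obtain ⟨K₃, h12⟩ := exists_diff (i := 1) (j := 2) (d := d) (f₁ - f₂) (fun q hq => by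
    have e : f₁ - f₂ = (f₁ - c q.1) - (f₂ - c q.1) := by ring
    rw [e]
    exact AddSubgroup.sub_mem _ (hf₁ q) (hf₂ ⟨q.1, hq⟩))
  let a := K₁ + K₂ + K₃
  obtain ⟨A, hA, hA'⟩ := h01 a (by omega)
  obtain ⟨B, hB, hB'⟩ := h02 a (by omega)
  obtain ⟨C, hC, hC'⟩ := h12 a (by omega)
  have hX := toFrac_X_ne_zero (k := k) 0
  have hY := toFrac_X_ne_zero (k := k) 1
  have hZ := toFrac_X_ne_zero (k := k) 2
  have hXa := pow_ne_zero a hX
  have hYa := pow_ne_zero a hY
  have hZa := pow_ne_zero a hZ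
  have hrel : MvPolynomial.X 2 ^ a * A = MvPolynomial.X 1 ^ a * B - MvPolynomial.X 0 ^ a * C := by
    apply toFrac_injective
    simp only [map_sub, map_mul, map_pow]
    have h1 : f₀ - f₁ = (f₀ - f₂) - (f₁ - f₂) := by ring
    rw [hA', hB', hC'] at h1
    field_simp at h1
    linear_combination h1
  obtain ⟨α₀, β₀, hαβ₀⟩ := mem_span_of_mul hrel
  -- homogeneous components
  have hX0h : ∀ j : Fin 3, (MvPolynomial.X j ^ a : CoordRing k).IsHomogeneous a := by
    intro j
    have := (MvPolynomial.isHomogeneous_X k j).pow a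
    rwa [one_mul] at this
  let α := MvPolynomial.homogeneousComponent (d + a) α₀
  let β := MvPolynomial.homogeneousComponent (d + a) β₀
  have hα : α.IsHomogeneous (d + a) := MvPolynomial.homogeneousComponent_isHomogeneous _ _
  have hβ : β.IsHomogeneous (d + a) := MvPolynomial.homogeneousComponent_isHomogeneous _ _
  have hαβ : A = α * MvPolynomial.X 0 ^ a + β * MvPolynomial.X 1 ^ a := by
    have h1 : MvPolynomial.homogeneousComponent (d + a + a) A = A := by
      apply MvPolynomial.homogeneousComponent_eq_self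
      have : d + 2 * a = d + a + a := by ring
      rwa [this] at hA
    rw [← h1, hαβ₀, map_add, hc_mul (hX0h 0), hc_mul (hX0h 1)]
  have hfA : f₀ - f₁ = toFrac α / toFrac (MvPolynomial.X 1) ^ a +
      toFrac β / toFrac (MvPolynomial.X 0) ^ a := by
    rw [hA', hαβ]
    simp only [map_add, map_mul, map_pow]
    field_simp
    try ring
  -- the solution
  refine ⟨f₀ - toFrac β / toFrac (MvPolynomial.X 0) ^ a, fun q => ?_⟩
  have hf1 : f₀ - toFrac β / toFrac (MvPolynomial.X 0) ^ a =
      f₁ + toFrac α / toFrac (MvPolynomial.X 1) ^ a := by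
    linear_combination hfA
  obtain ⟨i, hi⟩ := exists_linear_ne_zero q.rep q.rep_nonzero
  fin_cases i
  · have e : f₀ - toFrac β / toFrac (MvPolynomial.X 0) ^ a - c q =
        (f₀ - c q) - toFrac β / toFrac (MvPolynomial.X 0) ^ a := by ring
    rw [e]
    exact AddSubgroup.sub_mem _ (hf₀ ⟨q, hi⟩) (pReg_div hβ ⟨q, hi⟩)
  · have e : f₀ - toFrac β / toFrac (MvPolynomial.X 0) ^ a - c q =
        (f₁ - c q) + toFrac α / toFrac (MvPolynomial.X 1) ^ a := by
      rw [hf1]
      ring
    rw [e]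
    exact AddSubgroup.add_mem _ (hf₁ ⟨q, hi⟩) (pReg_div hα ⟨q, hi⟩)
  · -- on the third chart the correction is regular by coprimality
    have h1 : MvPolynomial.X 1 ^ a * (B - MvPolynomial.X 2 ^ a * β) =
        MvPolynomial.X 0 ^ a * (C + MvPolynomial.X 2 ^ a * α) := by
      rw [hαβ] at hrel
      linear_combination -hrel
    have hprime : Prime (MvPolynomial.X 0 : CoordRing k) := by
      have := prime_sub (k := k) 0 0 (by decide)
      simpa using this
    have hrelp : IsRelPrime (MvPolynomial.X 0 ^ a : CoordRing k) (MvPolynomial.X 1 ^ a) := by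
      apply IsRelPrime.pow
      rw [hprime.irreducible.isRelPrime_iff_not_dvd, MvPolynomial.X_dvd_X]
      simp
    obtain ⟨E, hE⟩ := hrelp.dvd_of_dvd_mul_left (Dvd.intro _ h1.symm)
    have hEh : E.IsHomogeneous (d + a) := by
      apply isHomogeneous_of_mul (hX0h 0) (pow_ne_zero _ (MvPolynomial.X_ne_zero 0))
      rw [mul_comm, ← hE]
      have h2 : d + 2 * a = d + a + a := by ring
      rw [h2] at hB
      refine hB.sub ?_
      have h3 := (hX0h 2).mul hβ
      rwa [add_comm a (d + a)] at h3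
    have e : f₀ - toFrac β / toFrac (MvPolynomial.X 0) ^ a - c q =
        (f₂ - c q) + toFrac E / toFrac (MvPolynomial.X 2) ^ a := by
      have h4 : f₀ - f₂ - toFrac β / toFrac (MvPolynomial.X 0) ^ a =
          toFrac E / toFrac (MvPolynomial.X 2) ^ a := by
        have hE' := congrArg toFrac hE
        simp only [map_sub, map_mul, map_pow] at hE'
        rw [hB']
        field_simp
        linear_combination hE'
      linear_combination h4
    rw [e]
    exact AddSubgroup.add_mem _ (hf₂ ⟨q, hi⟩) (pReg_div hEh ⟨q, hi⟩)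

end

end Pool.Agent.Lib.MP_8481ed_ag
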