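import Mathlib
import Pool.Agent.Lib.MP_8481ed_ag.Interp
import Pool.Agent.Lib.MP_8481ed_ag.PlaneSolve

/-!
# Vanishing of `H¹(X, 10H - 2 ∑ Eᵢ)` for the `4 × 4` grid
-/

open CategoryTheory TopologicalSpace Opposite
open scoped LinearAlgebra.Projectivization

universe u

namespace Pool.Agent.Lib.MP_8481ed_ag

noncomputable section

variable {k : Type u} [Field k]

lemma mem_stalk_of_emp [Infinite k] {r : ℕ} {p : Fin r → Plane k} {d : ℤ} {m : Fin r → ℤ}
    {q : Plane k} (hq : ∀ i, q ≠ p i) {s : Frac k} (h : IsRegularAt (emp (k := k)) d 0 (pt q) s) :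
    IsRegularAt p d m (.away q hq) s := h

lemma emp_of_mem_stalk [Infinite k] {r : ℕ} {p : Fin r → Plane k} {d : ℤ} {m : Fin r → ℤ}
    {q : Plane k} (hq : ∀ i, q ≠ p i) {s : Frac k} (h : IsRegularAt p d m (.away q hq) s) :
    IsRegularAt (emp (k := k)) d 0 (pt q) s := h

variable [IsAlgClosed k]

theorem subsingleton_H1_double {a : Fin 4 → k} (ha : Function.Injective a) :
    Subsingleton (H (grid a) 10 (fun _ => 2) 1) := by
  classical
  refine (subsingleton_cohomology_one_iff (stalk (grid a) 10 (fun _ => 2))).2 ?_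
  intro c hc
  change BlowUp (grid a) → Frac k at c
  have hF0 : (lineProd 0 a : CoordRing k) ≠ 0 :=
    Finset.prod_ne_zero_iff.2 fun j _ => sub_ne_zero' 0 _ (by decide)
  have hG0 : (lineProd 1 a : CoordRing k) ≠ 0 :=
    Finset.prod_ne_zero_iff.2 fun j _ => sub_ne_zero' 1 _ (by decide)
  have hc' : ∀ x : BlowUp (grid a), ∃ V : Set (BlowUp (grid a)), IsOpen V ∧ x ∈ V ∧
      ∀ y ∈ V, c y - c x ∈ stalk (grid a) (10 : ℕ) (fun _ => ((2 : ℕ) : ℤ)) y := by
    intro x
    obtain ⟨V, hxV, hV⟩ := hc x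
    exact ⟨V.1, V.2, hxV, fun y hy => hV y hy⟩
  obtain ⟨f₀, hf₀⟩ := (gridPencil ha).solve_affinePlane hF0 hG0 10 2 c hc'
  -- grid points are not at infinity
  have hinf : ∀ (q : Plane k), q.rep 2 = 0 → ∀ i, q ≠ grid a i := by
    rintro q h2 i rfl
    have := (gridPencil ha).hZ i
    rw [MvPolynomial.eval_X] at this
    exact this h2
  -- the Cousin datum on the plane
  let c' : Plane k → Frac k := fun q => if h : q.rep 2 = 0 then c (.away q (hinf q h)) else f₀
  have hc'0 : ∀ q : Plane k, ∀ h : q.rep 2 = 0, c' q = c (.away q (hinf q h)) := fun q h => dif_pos h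
  have hc'1 : ∀ q : Plane k, q.rep 2 ≠ 0 → c' q = f₀ := fun q h => dif_neg h
  obtain ⟨f₁, hf₁⟩ := plane_solve 10 c' (by
    intro q
    by_cases h2 : q.rep 2 = 0
    · obtain ⟨V, hV, hqV, hcV⟩ := hc' (.away q (hinf q h2))
      obtain ⟨h, n, hh0, hhn, hhq, hhV⟩ := exists_form_of_isOpen hV hqV
      obtain ⟨H, hH, hHq, hHgrid⟩ : ∃ H : CoordRing k, H.IsHomogeneous 4 ∧
          MvPolynomial.eval q.rep H ≠ 0 ∧
          ∀ n : Fin 16, MvPolynomial.eval (grid a n).rep H = 0 := by
        by_cases hF : MvPolynomial.eval q.rep (lineProd 0 a) = 0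
        · by_cases hG : MvPolynomial.eval q.rep (lineProd 1 a) = 0
          · obtain ⟨n, hn⟩ := grid_hcommon a q hF hG
            exact absurd hn (hinf q h2 n)
          · exact ⟨_, lineProd_homog 1 a, hG, fun n =>
              (eval_grid_rep (lineProd_homog 1 a) n).2 (lineProd_one_grid a n)⟩
        · exact ⟨_, lineProd_homog 0 a, hF, fun n =>
            (eval_grid_rep (lineProd_homog 0 a) n).2 (lineProd_zero_grid a n)⟩
      refine ⟨h * H, n + 4, hhn.mul hH, ?_, ?_⟩
      · rw [map_mul]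
        exact mul_ne_zero (hhq q _ rfl) hHq
      · intro q' hq'
        rw [map_mul] at hq'
        have hq'g : ∀ i, q' ≠ grid a i := by
          rintro i rfl
          exact right_ne_zero_of_mul hq' (hHgrid i)
        have h1 := hcV _ (hhV q' hq'g (left_ne_zero_of_mul hq'))
        have h1' : IsRegularAt (emp (k := k)) (10 : ℕ) 0 (pt q')
            (c (.away q' hq'g) - c (.away q (hinf q h2))) := emp_of_mem_stalk (m := fun _ => 2) hq'g h1
        rw [hc'0 q h2]
        by_cases h2' : q'.rep 2 = 0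
        · rw [hc'0 q' h2']
          exact h1'
        · rw [hc'1 q' h2']
          have h3 := hf₀ (.away q' hq'g) (by
            rw [MvPolynomial.eval_X]
            exact h2')
          have h3' : IsRegularAt (emp (k := k)) (10 : ℕ) 0 (pt q')
            (f₀ - c (.away q' hq'g)) := emp_of_mem_stalk (m := fun _ => 2) hq'g h3
          have e : f₀ - c (.away q (hinf q h2)) =
            (f₀ - c (.away q' hq'g)) + (c (.away q' hq'g) - c (.away q (hinf q h2))) := by ring
          rw [e]
          exact AddSubgroup.add_mem _ h3' h1'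
    · refine ⟨MvPolynomial.X 2, 1, MvPolynomial.isHomogeneous_X k 2, ?_, ?_⟩
      · rw [MvPolynomial.eval_X]
        exact h2
      · intro q' hq'
        rw [MvPolynomial.eval_X] at hq'
        rw [hc'1 q h2, hc'1 q' hq', sub_self]
        exact AddSubgroup.zero_mem _)
  -- the difference is a form with a pole along the line at infinity
  obtain ⟨N, g₀, hg₀⟩ := (pchart 2 10).exists_pow_mul_mem (f₁ - f₀) (1 : MvPolynomial (Fin 3) k)
    (fun q _ => by
      have h2 : q.1.rep 2 ≠ 0 := by
        have := q.2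
        rwa [MvPolynomial.eval_X] at this
      have := hf₁ q.1
      rw [hc'1 q.1 h2] at this
      exact this)
  rw [map_one, one_pow, one_mul] at hg₀
  obtain ⟨t, B₀, hB₀, hB₀'⟩ := exists_pphi_eq 2 g₀
  have hX := toFrac_X_ne_zero (k := k) 2
  have hdiff : f₁ - f₀ = toFrac (MvPolynomial.X 2 ^ 10 * B₀) / toFrac (MvPolynomial.X 2) ^ t := by
    rw [hg₀]
    rw [hB₀', map_mul, map_pow, mul_div_assoc]
  have hD : (MvPolynomial.X 2 ^ 10 * B₀ : CoordRing k).IsHomogeneous (10 + t) := by
    have h := ((MvPolynomial.isHomogeneous_X k (2 : Fin 3)).pow 10).mul hB₀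
    rwa [one_mul] at h
  obtain ⟨A, B, C, g, hA, hB, hC, hg, hDeq⟩ := interp a t _ hD
  set D' : CoordRing k := A * lineProd 0 a ^ 2 + B * (lineProd 0 a * lineProd 1 a) +
    C * lineProd 1 a ^ 2 with hD'def
  have hD'h : D'.IsHomogeneous (10 + t) := by
    have e : D' = MvPolynomial.X 2 ^ 10 * B₀ - MvPolynomial.X 2 ^ t * g := by
      rw [hDeq]
      ring
    rw [e]
    refine hD.sub ?_
    have h := ((MvPolynomial.isHomogeneous_X k (2 : Fin 3)).pow t).mul hg
    rwa [one_mul, add_comm t 10] at h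
  have hD'I : ∀ i, D' ∈ pointIdeal (grid a i) ^ 2 := by
    intro i
    have hFi := lineProd_mem_pointIdeal_zero a i
    have hGi := lineProd_mem_pointIdeal_one a i
    refine Ideal.add_mem _ (Ideal.add_mem _ ?_ ?_) ?_
    · exact Ideal.mul_mem_left _ _ (Ideal.pow_mem_pow hFi 2)
    · apply Ideal.mul_mem_left
      rw [pow_two]
      exact Ideal.mul_mem_mul hFi hGi
    · exact Ideal.mul_mem_left _ _ (Ideal.pow_mem_pow hGi 2)
  have hdiff' : f₁ - f₀ = toFrac D' / toFrac (MvPolynomial.X 2) ^ t + toFrac g := by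
    rw [hdiff, hDeq, map_add, map_mul, map_pow, add_div, mul_comm, mul_div_assoc,
      div_self (pow_ne_zero _ hX), mul_one]
  refine ⟨f₁ - toFrac g, fun x => ?_⟩
  change BlowUp (grid a) at x
  change f₁ - toFrac g - c x ∈ stalk (grid a) (10 : ℕ) (fun _ => ((2 : ℕ) : ℤ)) x
  by_cases h2 : x.vec 2 = 0
  · cases x with
    | exc i L =>
      have := (gridPencil ha).hZ i
      rw [MvPolynomial.eval_X] at this
      exact absurd h2 this
    | away q hq =>
      have h2' : q.rep 2 = 0 := h2
      have h1 := hf₁ q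
      rw [hc'0 q h2'] at h1
      have h1' : f₁ - c (.away q hq) ∈ stalk (grid a) (10 : ℕ) (fun _ => ((2 : ℕ) : ℤ))
        (.away q hq) := mem_stalk_of_emp (m := fun _ => 2) hq h1
      have e : f₁ - toFrac g - c (.away q hq) = (f₁ - c (.away q hq)) - toFrac g := by ring
      rw [e]
      exact AddSubgroup.sub_mem _ h1' (isRegularAt_form_away hg (fun _ => 2) q hq)
  · have h1 := hf₀ x (by
      rw [MvPolynomial.eval_X]
      exact h2)
    have hreg : toFrac D' / toFrac (MvPolynomial.X 2) ^ t ∈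
        stalk (grid a) (10 : ℕ) (fun _ => ((2 : ℕ) : ℤ)) x := by
      rw [mem_stalk_iff, isRegularAt_iff]
      refine ⟨10 + t, t, 0, D', MvPolynomial.X 2 ^ t, hD'h, ?_, by push_cast; ring, ?_, by simp, ?_,
        by rw [map_pow]⟩
      · have h := (MvPolynomial.isHomogeneous_X k (2 : Fin 3)).pow t
        rwa [one_mul] at h
      · cases x with
        | away q hq => simp [BlowUp.mlt]
        | exc i L => simpa [BlowUp.mlt, BlowUp.idl] using hD'I i
      · rw [BlowUp.lead_zero, map_pow, MvPolynomial.eval_X]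
        exact pow_ne_zero _ h2
    have e : f₁ - toFrac g - c x = (f₀ - c x) + toFrac D' / toFrac (MvPolynomial.X 2) ^ t := by
      linear_combination hdiff'
    rw [e]
    exact AddSubgroup.add_mem _ h1 hreg

end

end Pool.Agent.Lib.MP_8481ed_ag
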